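import Pool.Agent.H1.LP.Defs
import Pool.Agent.H2.EllMV
import Pool.Agent.H2.EllPair

/-!
# [H1 LP ARCH]  the archimedean factor of a pair of forms has bounded variation

* `arch`: with `x = n + b/P`, `x' = n + b'/Q` (`b = P m₀ + h`, `b' = Q m₀ + h`, `bb_cast`), real numbers `≥ n + 1`, `|x - x'| ≤ |h|`:
  by `tw_eq_exp` (`tw t k = exp (i t log k)`) the quotient of consecutive values has phase
  `t (log (1 + 1/x) - log (1 + 1/x'))`, and `|log (1+u) - log (1+u')| ≤ |u - u'|` (`u, u' ≥ 0`),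
  `|1/x - 1/x'| = |x - x'|/(x x') ≤ |h| / (n+1)^2`; `‖exp (iα) - exp (iβ)‖ ≤ |α - β|`
  (`Complex.norm_exp_I_mul_ofReal_sub_one_le` or similar; see `norm_tw_sub_le` in `EllCount`).
* `arch_prod`: telescoping `norm_prod_sub_prod_le` (in `EllCount`) or induction, all factors of norm one.
* `arch_sum`: `∑_{n ∈ Ico m₁ y} 1/(n+1)^2 ≤ 1/m₁` (`sum_Ioc_inv_sq_le_sub`-like).
* `psum`: summation by parts with `S z = ∑_{n<z} f n conj (W n)`: `f n = (S (n+1) - S n) W n`, so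
  `∑_{n ∈ Ico m₁ y} f n = S y W (y-1) - S m₁ W m₁ - ∑_{n ∈ Ico (m₁+1) y} S n (W n - W (n-1))`; the terms `n < m₁` trivially.
-/

set_option autoImplicit false

namespace Pool.Agent.H1.LP

open Finset Pool.H2.Ell

/-- the archimedean factor of the pair of forms `P (n + m₀) + h`, `Q (n + m₀) + h` -/
noncomputable def aw (t : ℝ) (m₀ P Q : ℕ) (h : ℤ) (n : ℕ) : ℂ :=
  tw t (P * n + bb P Q m₀ h true) * tw (-t) (Q * n + bb P Q m₀ h false)

theorem norm_aw (t : ℝ) {m₀ P Q : ℕ} {h : ℤ} (hm : |h| < m₀) (hP : 1 ≤ P) (hQ : 1 ≤ Q) (n : ℕ) :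
    ‖aw t m₀ P Q h n‖ = 1 := by
  have h1 := (bb_cast (P := P) (Q := Q) (m₀ := m₀) (h := h) (β := true) hP hm).2
  have h2 := (bb_cast (P := P) (Q := Q) (m₀ := m₀) (h := h) (β := false) hQ hm).2
  unfold aw
  rw [norm_mul, norm_tw t (by omega), norm_tw (-t) (by omega), mul_one]

private theorem arch_log (u v : ℝ) (hu : 0 ≤ u) (hv : 0 ≤ v) :
    |Real.log (1 + u) - Real.log (1 + v)| ≤ |u - v| := by
  have key : ∀ a b : ℝ, 0 ≤ a → 0 ≤ b → a ≤ b → Real.log (1 + b) - Real.log (1 + a) ≤ b - a := by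
    intro a b ha hb hab
    rw [← Real.log_div (by positivity) (by positivity)]
    refine (Real.log_le_sub_one_of_pos (by positivity)).trans ?_
    rw [div_sub_one (by positivity), div_le_iff₀ (by positivity)]
    nlinarith
  rcases le_total u v with huv | huv
  · have h1 := key u v hu hv huv
    have h2 : Real.log (1 + u) ≤ Real.log (1 + v) :=
      Real.log_le_log (by linarith) (by linarith)
    rw [abs_of_nonpos (by linarith), abs_of_nonpos (by linarith)]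
    linarith
  · have h1 := key v u hv hu huv
    have h2 : Real.log (1 + v) ≤ Real.log (1 + u) :=
      Real.log_le_log (by linarith) (by linarith)
    rw [abs_of_nonneg (by linarith), abs_of_nonneg (by linarith)]
    exact h1

private theorem arch_exp (α β : ℝ) :
    ‖Complex.exp ((α : ℂ) * Complex.I) - Complex.exp ((β : ℂ) * Complex.I)‖ ≤ |α - β| := by
  have h1 : Complex.exp ((α : ℂ) * Complex.I) - Complex.exp ((β : ℂ) * Complex.I)
      = Complex.exp ((β : ℂ) * Complex.I) *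
        (Complex.exp (Complex.I * ((α - β : ℝ) : ℂ)) - 1) := by
    rw [mul_sub, ← Complex.exp_add, mul_one]
    congr 2
    push_cast
    ring
  rw [h1, norm_mul, Complex.norm_exp_ofReal_mul_I, one_mul]
  refine (Real.norm_exp_I_mul_ofReal_sub_one_le).trans ?_
  rw [Real.norm_eq_abs]

private theorem arch_eq (t : ℝ) {m₀ P Q : ℕ} {h : ℤ} (hm : |h| < m₀) (hP : 1 ≤ P) (hQ : 1 ≤ Q)
    (n : ℕ) : aw t m₀ P Q h n = Complex.exp (((t * (Real.log ((P * n + bb P Q m₀ h true : ℕ) : ℝ) -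
      Real.log ((Q * n + bb P Q m₀ h false : ℕ) : ℝ)) : ℝ) : ℂ) * Complex.I) := by
  have h1 := (bb_cast (P := P) (Q := Q) (m₀ := m₀) (h := h) (β := true) hP hm).2
  have h2 := (bb_cast (P := P) (Q := Q) (m₀ := m₀) (h := h) (β := false) hQ hm).2
  unfold aw
  rw [tw_eq_exp t (by omega), tw_eq_exp (-t) (by omega), ← Complex.exp_add]
  congr 1
  push_cast
  ring

theorem arch (t : ℝ) {m₀ P Q : ℕ} {h : ℤ} (hm : |h| < m₀) (hP : 1 ≤ P) (hQ : 1 ≤ Q) (n : ℕ) :
    ‖aw t m₀ P Q h (n + 1) - aw t m₀ P Q h n‖ ≤ |t| * |(h : ℝ)| / ((n : ℝ) + 1) ^ 2 := by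
  obtain ⟨hb1, hb2⟩ := bb_cast (P := P) (Q := Q) (m₀ := m₀) (h := h) (β := true) hP hm
  obtain ⟨hb3, hb4⟩ := bb_cast (P := P) (Q := Q) (m₀ := m₀) (h := h) (β := false) hQ hm
  set b : ℕ := bb P Q m₀ h true with hb
  set b' : ℕ := bb P Q m₀ h false with hb'
  have hbR : (b : ℝ) = P * m₀ + h := by exact_mod_cast hb1
  have hbR' : (b' : ℝ) = Q * m₀ + h := by exact_mod_cast hb3
  have hPR : (1 : ℝ) ≤ P := by exact_mod_cast hP
  have hQR : (1 : ℝ) ≤ Q := by exact_mod_cast hQ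
  have hP0 : (0 : ℝ) < P := by linarith
  have hQ0 : (0 : ℝ) < Q := by linarith
  have hn0 : (0 : ℝ) ≤ n := Nat.cast_nonneg n
  have hmR : |(h : ℝ)| + 1 ≤ m₀ := by
    have : |h| + 1 ≤ (m₀ : ℤ) := by omega
    have h1 : ((|h| + 1 : ℤ) : ℝ) ≤ ((m₀ : ℤ) : ℝ) := by exact_mod_cast this
    push_cast at h1
    exact h1
  have hx : ∀ K : ℕ, 1 ≤ K → (n : ℝ) + 1 ≤ n + (K * m₀ + h) / K := by
    intro K hK
    have hK' : (1 : ℝ) ≤ K := by exact_mod_cast hK
    have hK0 : (0 : ℝ) < K := by linarith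
    have : 1 ≤ (K * (m₀ : ℝ) + h) / K := by
      rw [le_div_iff₀ hK0]
      have k1 := neg_abs_le (h : ℝ)
      have k2 := mul_le_mul_of_nonneg_left hmR hK0.le
      have k3 := mul_le_mul_of_nonneg_right hK' (abs_nonneg (h : ℝ))
      linarith
    linarith
  set x : ℝ := n + b / P with hxdef
  set x' : ℝ := n + b' / Q with hxdef'
  have hx1 : (n : ℝ) + 1 ≤ x := by rw [hxdef, hbR]; exact hx P hP
  have hx2 : (n : ℝ) + 1 ≤ x' := by rw [hxdef', hbR']; exact hx Q hQ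
  have hx0 : 0 < x := by linarith
  have hx0' : 0 < x' := by linarith
  have e1 : ((P * n + b : ℕ) : ℝ) = P * x := by
    rw [hxdef]
    push_cast
    field_simp
  have e2 : ((P * (n + 1) + b : ℕ) : ℝ) = P * x * (1 + 1 / x) := by
    have : P * x * (1 + 1 / x) = P * x + P := by field_simp
    rw [this, hxdef]
    push_cast
    field_simp
    ring
  have e3 : ((Q * n + b' : ℕ) : ℝ) = Q * x' := by
    rw [hxdef']
    push_cast
    field_simp
  have e4 : ((Q * (n + 1) + b' : ℕ) : ℝ) = Q * x' * (1 + 1 / x') := by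
    have : Q * x' * (1 + 1 / x') = Q * x' + Q := by field_simp
    rw [this, hxdef']
    push_cast
    field_simp
    ring
  rw [arch_eq t hm hP hQ, arch_eq t hm hP hQ]
  refine (arch_exp _ _).trans ?_
  rw [← hb, ← hb', e1, e2, e3, e4]
  have hp1 : 0 < 1 + 1 / x := by positivity
  have hp2 : 0 < 1 + 1 / x' := by positivity
  rw [Real.log_mul (mul_pos hP0 hx0).ne' hp1.ne', Real.log_mul (mul_pos hQ0 hx0').ne' hp2.ne']
  have e5 : t * (Real.log (P * x) + Real.log (1 + 1 / x) - (Real.log (Q * x') +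
      Real.log (1 + 1 / x'))) - t * (Real.log (P * x) - Real.log (Q * x')) =
      t * (Real.log (1 + 1 / x) - Real.log (1 + 1 / x')) := by ring
  rw [e5, abs_mul, mul_div_assoc]
  apply mul_le_mul_of_nonneg_left _ (abs_nonneg t)
  refine (arch_log _ _ (by positivity) (by positivity)).trans ?_
  have e6 : 1 / x - 1 / x' = (x' - x) / (x * x') := by field_simp
  rw [e6, abs_div, abs_of_pos (mul_pos hx0 hx0')]
  have hdiff : |x' - x| ≤ |(h : ℝ)| := by
    have e7 : x' - x = h * (1 / Q - 1 / P) := by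
      rw [hxdef, hxdef', hbR, hbR']
      field_simp
      ring
    rw [e7, abs_mul]
    have h1 : |1 / (Q : ℝ) - 1 / P| ≤ 1 := by
      have k1 : 1 / (Q : ℝ) ≤ 1 := by rw [div_le_one hQ0]; exact hQR
      have k2 : 1 / (P : ℝ) ≤ 1 := by rw [div_le_one hP0]; exact hPR
      have k3 : 0 ≤ 1 / (Q : ℝ) := by positivity
      have k4 : 0 ≤ 1 / (P : ℝ) := by positivity
      rw [abs_le]
      constructor <;> linarith
    calc |(h : ℝ)| * |1 / (Q : ℝ) - 1 / P| ≤ |(h : ℝ)| * 1 :=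
          mul_le_mul_of_nonneg_left h1 (abs_nonneg _)
      _ = _ := mul_one _
  have hden : ((n : ℝ) + 1) ^ 2 ≤ x * x' := by
    rw [sq]
    exact mul_le_mul hx1 hx2 (by linarith) hx0.le
  exact div_le_div₀ (abs_nonneg _) hdiff (by positivity) hden

private theorem arch_inv_sq {m₁ : ℕ} (hm₁ : 1 ≤ m₁) (y : ℕ) :
    ∑ n ∈ Ico m₁ y, 1 / ((n : ℝ) + 1) ^ 2 ≤ 1 / (m₁ : ℝ) := by
  have key : ∀ k : ℕ, ∑ n ∈ Ico m₁ (m₁ + k), 1 / ((n : ℝ) + 1) ^ 2 ≤
      1 / (m₁ : ℝ) - 1 / ((m₁ + k : ℕ) : ℝ) := by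
    intro k
    induction k with
    | zero => simp
    | succ k ih =>
      rw [← add_assoc, Finset.sum_Ico_succ_top (by omega)]
      have h1 : (1 : ℝ) ≤ ((m₁ + k : ℕ) : ℝ) := by exact_mod_cast (by omega : 1 ≤ m₁ + k)
      set z : ℝ := ((m₁ + k : ℕ) : ℝ) with hz
      have h2 : (((m₁ + k + 1 : ℕ)) : ℝ) = z + 1 := by
        rw [hz]
        push_cast
        ring
      rw [h2]
      have h3 : 1 / (z + 1) ^ 2 ≤ 1 / z - 1 / (z + 1) := by
        rw [div_sub_div _ _ (by positivity) (by positivity), div_le_div_iff₀ (by positivity)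
          (by positivity)]
        nlinarith
      linarith
  rcases le_total m₁ y with h | h
  · obtain ⟨k, rfl⟩ := Nat.exists_eq_add_of_le h
    refine (key k).trans ?_
    have : 0 ≤ 1 / ((m₁ + k : ℕ) : ℝ) := by positivity
    linarith
  · rw [Finset.Ico_eq_empty (by omega), sum_empty]
    positivity

theorem arch_sum {J : Type} [Fintype J] (t : J → ℝ) {m₀ P Q : ℕ} {h : J → ℤ} (hm : ∀ i, |h i| < m₀)
    (hP : 1 ≤ P) (hQ : 1 ≤ Q) {X : ℕ} (ht : ∀ i, |t i| ≤ X) {m₁ : ℕ} (hm₁ : 1 ≤ m₁) (y : ℕ) :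
    ∑ n ∈ Ico m₁ y, ‖∏ i, aw (t i) m₀ P Q (h i) (n + 1) - ∏ i, aw (t i) m₀ P Q (h i) n‖
      ≤ X * (∑ i, |(h i : ℝ)|) / m₁ := by
  have h1 : ∀ n ∈ Ico m₁ y,
      ‖∏ i, aw (t i) m₀ P Q (h i) (n + 1) - ∏ i, aw (t i) m₀ P Q (h i) n‖ ≤
      (X * ∑ i, |(h i : ℝ)|) * (1 / ((n : ℝ) + 1) ^ 2) := by
    intro n _
    refine (norm_prod_sub_prod_le univ _ _ (fun i _ => (norm_aw (t i) (hm i) hP hQ _).le)
      (fun i _ => (norm_aw (t i) (hm i) hP hQ _).le)).trans ?_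
    rw [mul_sum, sum_mul]
    apply sum_le_sum
    intro i _
    refine (arch (t i) (hm i) hP hQ n).trans ?_
    have : |t i| * |(h i : ℝ)| / ((n : ℝ) + 1) ^ 2 = |t i| * |(h i : ℝ)| * (1 / ((n : ℝ) + 1) ^ 2) := by
      ring
    rw [this]
    apply mul_le_mul_of_nonneg_right _ (by positivity)
    exact mul_le_mul_of_nonneg_right (ht i) (abs_nonneg _)
  refine (sum_le_sum h1).trans ?_
  rw [← mul_sum]
  have h2 : 0 ≤ (X : ℝ) * ∑ i, |(h i : ℝ)| :=
    mul_nonneg (Nat.cast_nonneg _) (sum_nonneg fun i _ => abs_nonneg _)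
  calc (X * ∑ i, |(h i : ℝ)|) * ∑ n ∈ Ico m₁ y, 1 / ((n : ℝ) + 1) ^ 2
      ≤ (X * ∑ i, |(h i : ℝ)|) * (1 / m₁) := mul_le_mul_of_nonneg_left (arch_inv_sq hm₁ y) h2
    _ = _ := by ring

theorem psum (f W : ℕ → ℂ) (hf : ∀ n, ‖f n‖ ≤ 1) (hW : ∀ n, ‖W n‖ = 1) {δ V : ℝ} {y : ℕ}
    (hS : ∀ z ≤ y, ‖∑ n ∈ range z, f n * (starRingEnd ℂ) (W n)‖ ≤ δ) {m₁ : ℕ}
    (hV : ∑ n ∈ Ico m₁ y, ‖W (n + 1) - W n‖ ≤ V) : ‖∑ n ∈ range y, f n‖ ≤ m₁ + δ * (2 + V) := by
  have hδ : 0 ≤ δ := (norm_nonneg _).trans (hS 0 (Nat.zero_le _))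
  have hV0 : 0 ≤ V := (sum_nonneg fun _ _ => norm_nonneg _).trans hV
  have htriv : ∀ z : ℕ, ‖∑ n ∈ range z, f n‖ ≤ z := by
    intro z
    refine (norm_sum_le _ _).trans ?_
    refine (sum_le_sum fun n _ => hf n).trans ?_
    simp
  rcases le_total y m₁ with h | h
  · refine (htriv y).trans ?_
    have h1 : (y : ℝ) ≤ m₁ := by exact_mod_cast h
    have h2 : 0 ≤ δ * (2 + V) := by positivity
    linarith
  · set S : ℕ → ℂ := fun z => ∑ n ∈ range z, f n * (starRingEnd ℂ) (W n) with hSdef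
    have hfn : ∀ n, f n = (S (n + 1) - S n) * W n := by
      intro n
      have h1 : S (n + 1) - S n = f n * (starRingEnd ℂ) (W n) := by
        rw [hSdef]
        simp only
        rw [sum_range_succ]
        ring
      have h2 : (starRingEnd ℂ) (W n) * W n = 1 := by
        rw [mul_comm, Complex.mul_conj, Complex.normSq_eq_norm_sq, hW n]
        norm_num
      rw [h1, mul_assoc, h2, mul_one]
    have htel : ∀ k : ℕ, ∑ n ∈ Ico m₁ (m₁ + k), f n =
        S (m₁ + k) * W (m₁ + k) - S m₁ * W m₁ -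
        ∑ n ∈ Ico m₁ (m₁ + k), S (n + 1) * (W (n + 1) - W n) := by
      intro k
      induction k with
      | zero => simp
      | succ k ih =>
        rw [← add_assoc, sum_Ico_succ_top (by omega), sum_Ico_succ_top (by omega), ih,
          hfn (m₁ + k)]
        ring
    obtain ⟨k, rfl⟩ := Nat.exists_eq_add_of_le h
    have h1 : ∑ n ∈ range (m₁ + k), f n = ∑ n ∈ range m₁, f n + ∑ n ∈ Ico m₁ (m₁ + k), f n :=
      (sum_range_add_sum_Ico _ (by omega)).symm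
    rw [h1, htel k]
    have a1 := htriv m₁
    have a2 : ‖S (m₁ + k) * W (m₁ + k)‖ ≤ δ := by
      rw [norm_mul, hW, mul_one]
      exact hS _ le_rfl
    have a3 : ‖S m₁ * W m₁‖ ≤ δ := by
      rw [norm_mul, hW, mul_one]
      exact hS _ (by omega)
    have a4 : ‖∑ n ∈ Ico m₁ (m₁ + k), S (n + 1) * (W (n + 1) - W n)‖ ≤ δ * V := by
      refine (norm_sum_le _ _).trans ?_
      calc ∑ n ∈ Ico m₁ (m₁ + k), ‖S (n + 1) * (W (n + 1) - W n)‖
          ≤ ∑ n ∈ Ico m₁ (m₁ + k), δ * ‖W (n + 1) - W n‖ := by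
            apply sum_le_sum
            intro n hn
            rw [norm_mul]
            apply mul_le_mul_of_nonneg_right _ (norm_nonneg _)
            exact hS _ (by have := (mem_Ico.1 hn).2; omega)
        _ = δ * ∑ n ∈ Ico m₁ (m₁ + k), ‖W (n + 1) - W n‖ := by rw [mul_sum]
        _ ≤ δ * V := mul_le_mul_of_nonneg_left hV hδ
    have b1 := norm_add_le (∑ n ∈ range m₁, f n) (S (m₁ + k) * W (m₁ + k) - S m₁ * W m₁ -
        ∑ n ∈ Ico m₁ (m₁ + k), S (n + 1) * (W (n + 1) - W n))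
    have b2 := norm_sub_le (S (m₁ + k) * W (m₁ + k) - S m₁ * W m₁)
        (∑ n ∈ Ico m₁ (m₁ + k), S (n + 1) * (W (n + 1) - W n))
    have b3 := norm_sub_le (S (m₁ + k) * W (m₁ + k)) (S m₁ * W m₁)
    linarith

end Pool.Agent.H1.LP
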