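import Pool.Agent.H1.LP.Moment

/-!
# [H1 LP BLOCK]  sums of a periodic function times a product of local factors

Blocks `P j`, `j ∈ I`; `H = ∏_j Hp (P j) φ`, `T = ∏_j Tp (P j) (D j) φ`, `B = ∑_j Bp (P j) (D j) φ`;
`N = Q ∏_j ∏_{p ∈ P j} p^e` is a common period of everything; `M_j = ∏_{p ∈ P j} p^e`.
1. `bad n`: some block has `D j < om (P j) φ n`; then `1 ≤ B n` (`one_le_Bp`, `Bp_nonneg`), else `T n = H n`
   (`Tp_eq`).  `‖H n‖ ≤ 1` (`norm_Hp_le`).  So `‖G n (H n - T n)‖ ≤ b n + b n * ‖T n‖`, with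
   `b n = if bad n then 1 else 0`, `b ^ 2 = b ≤ B`.
2. `∑_{n < y} b ≤ ∑_{n<y} B ≤ y * rmean N B + 2 E ≤ y η + 2 E`: `Rep.sum` and `rep_Bp` (weight `≤ E` by `hE1`),
   `Rep.sum_sub_mean`, `mean_ofReal`, `rmean_sum`, `rmean_Bp`, `hη`.
3. `∑_{n < y} ‖T‖^2 ≤ y exp κ + 2 E`: `‖T‖^2 = T * conj T`, `Rep.prod` and `rep_Tp` (weight `E_T`), `Rep.conj`,
   `Rep.mul`, `hE2`; `rmean N (∏_j ‖T_j‖^2) = ∏_j rmean M_j ‖T_j‖^2` by `mean_prod` (`d j = M_j`, pairwise coprime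
   by `hdis`, `W = 1`; `Tp (P j) (D j) φ` has period `M_j`), `rmean_Tp` with `N = M_j`:
   `≤ ∏_j (1 + exp (35 s) / 4 ^ D j) ≤ exp κ` (`Real.add_one_le_exp`, `hκ`).
4. Cauchy-Schwarz (`Finset.sum_mul_sq_le_sq_mul_sq`): `∑_{n<y} b ‖T‖ ≤ √((y η + 2 E) (y exp κ + 2 E))`.
5. The same for the means over `range N` (`rmean_cs`): `‖mean N (G H) - mean N (G T)‖ ≤ η + √(η exp κ)`, and
   `y √(η exp κ) = √(y η * (y exp κ)) ≤ √((y η + 2 E) (y exp κ + 2 E))`.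
6. `‖∑_{n<y} G T - y mean N (G T)‖ ≤ 2 E`: `Rep.of_periodic` for `G` (weight `1 * Q`), `Rep.mul`, `hE3`,
   `Rep.sum_sub_mean`.
7. `mean N (G H) = mean Q G * ∏_j ∏_{p ∈ P j} (1 + mean (p^e) (φ p))`: `mean_prod` with `I.biUnion P`
   (`Finset.prod_biUnion` with `hdis`), `d p = p ^ e`, `F p n = 1 + φ p n` (`mean_add`, `mean_one`).
8. Add up: `(y η + 2 E) + √ + 2 E + y η + √`.
-/

set_option autoImplicit false

namespace Pool.Agent.H1.LP

open Finset Pool.H2.Ell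

private theorem blk_per_dvd {α : Type*} {f : ℕ → α} {d N : ℕ} (h : Function.Periodic f d)
    (hd : d ∣ N) : Function.Periodic f N := by
  obtain ⟨k, rfl⟩ := hd
  intro x
  have := h.nat_mul k x
  rw [mul_comm d k]
  simpa using this

private theorem blk_Tp_per {e m : ℕ} {P : Finset ℕ} {φ : ℕ → ℕ → ℂ} (hL : Loc e m P φ) (D : ℕ) :
    Function.Periodic (Tp P D φ) (∏ p ∈ P, p ^ e) := by
  intro x
  unfold Tp
  refine Finset.sum_congr rfl (fun S hS => Finset.prod_congr rfl (fun p hp => ?_))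
  have hpP : p ∈ P := (Finset.mem_powerset.1 (Finset.mem_filter.1 hS).1) hp
  exact blk_per_dvd (hL.per p hpP) (Finset.dvd_prod_of_mem (fun p => p ^ e) hpP) x

private theorem blk_M_pos {e m : ℕ} {P : Finset ℕ} {φ : ℕ → ℕ → ℂ} (hL : Loc e m P φ) :
    0 < ∏ p ∈ P, p ^ e :=
  Finset.prod_pos (fun p hp => pow_pos (hL.prime p hp).pos e)

private theorem blk_M_co {e m : ℕ} {P P' : Finset ℕ} {φ : ℕ → ℕ → ℂ} (hL : Loc e m P φ)
    (hL' : Loc e m P' φ) (hd : Disjoint P P') :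
    Nat.Coprime (∏ p ∈ P, p ^ e) (∏ p ∈ P', p ^ e) := by
  refine Nat.Coprime.prod_left (fun p hp => Nat.Coprime.prod_right (fun q hq => ?_))
  refine Nat.Coprime.pow _ _ ((Nat.coprime_primes (hL.prime p hp) (hL'.prime q hq)).2 ?_)
  rintro rfl
  exact Finset.disjoint_left.1 hd hp hq

private theorem blk_rmeanT {e m : ℕ} (I : Finset ℕ) (P : ℕ → Finset ℕ)
    (hdis : (I : Set ℕ).PairwiseDisjoint P)
    (D : ℕ → ℕ) {φ : ℕ → ℕ → ℂ} (hL : ∀ j ∈ I, Loc e m (P j) φ) {N : ℕ} (hN : 0 < N)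
    (hdN : ∏ j ∈ I, ∏ p ∈ P j, p ^ e ∣ N) {s κ : ℝ}
    (hs : ∀ j ∈ I, ∑ p ∈ P j, (m : ℝ) / p ≤ s)
    (hκ : ∑ j ∈ I, Real.exp (35 * s) / 4 ^ D j ≤ κ) :
    rmean N (fun n => ‖∏ j ∈ I, Tp (P j) (D j) φ n‖ ^ 2) ≤ Real.exp κ := by
  have h1 : mean N (fun n => (1 : ℂ) * ∏ j ∈ I, ((‖Tp (P j) (D j) φ n‖ ^ 2 : ℝ) : ℂ))
      = mean 1 (fun _ => (1 : ℂ)) *
        ∏ j ∈ I, mean (∏ p ∈ P j, p ^ e) (fun n => ((‖Tp (P j) (D j) φ n‖ ^ 2 : ℝ) : ℂ)) := by
    refine mean_prod I (fun j => ∏ p ∈ P j, p ^ e) (fun j hj => blk_M_pos (hL j hj)) ?_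
      (fun j n => ((‖Tp (P j) (D j) φ n‖ ^ 2 : ℝ) : ℂ)) ?_ one_pos (fun j _ => Nat.coprime_one_left _)
      (fun _ => rfl) hN (by simpa using hdN)
    · intro i hi j hj hij
      exact blk_M_co (hL i hi) (hL j hj) (hdis (by simpa using hi) (by simpa using hj) hij)
    · intro j hj x
      simp only
      rw [blk_Tp_per (hL j hj) (D j) x]
  rw [mean_one one_pos, one_mul] at h1
  have h2 : (fun n => (1 : ℂ) * ∏ j ∈ I, ((‖Tp (P j) (D j) φ n‖ ^ 2 : ℝ) : ℂ))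
      = fun n => ((‖∏ j ∈ I, Tp (P j) (D j) φ n‖ ^ 2 : ℝ) : ℂ) := by
    funext n
    rw [one_mul, norm_prod, ← Finset.prod_pow, Complex.ofReal_prod]
  rw [h2, mean_ofReal] at h1
  have h3 : rmean N (fun n => ‖∏ j ∈ I, Tp (P j) (D j) φ n‖ ^ 2)
      = ∏ j ∈ I, rmean (∏ p ∈ P j, p ^ e) (fun n => ‖Tp (P j) (D j) φ n‖ ^ 2) := by
    have h4 : (rmean N (fun n => ‖∏ j ∈ I, Tp (P j) (D j) φ n‖ ^ 2) : ℂ)
        = ((∏ j ∈ I, rmean (∏ p ∈ P j, p ^ e) (fun n => ‖Tp (P j) (D j) φ n‖ ^ 2) : ℝ) : ℂ) := by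
      rw [h1, Complex.ofReal_prod]
      exact Finset.prod_congr rfl (fun j _ => mean_ofReal _ _)
    exact_mod_cast h4
  rw [h3]
  calc ∏ j ∈ I, rmean (∏ p ∈ P j, p ^ e) (fun n => ‖Tp (P j) (D j) φ n‖ ^ 2)
      ≤ ∏ j ∈ I, Real.exp (Real.exp (35 * s) / 4 ^ D j) := by
        refine Finset.prod_le_prod (fun j _ => rmean_nonneg _ (fun n => by positivity))
          (fun j hj => ?_)
        refine (rmean_Tp (hL j hj) (D j) (blk_M_pos (hL j hj)) dvd_rfl (hs j hj)).trans ?_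
        rw [add_comm]
        exact Real.add_one_le_exp _
    _ = Real.exp (∑ j ∈ I, Real.exp (35 * s) / 4 ^ D j) := (Real.exp_sum _ _).symm
    _ ≤ Real.exp κ := Real.exp_le_exp.2 hκ

private theorem blk_real {N : ℕ} (hN : 0 < N) {f : ℕ → ℝ} {E : ℝ}
    (h : Rep N (fun n => (f n : ℂ)) E) (y : ℕ) {r : ℝ} (hr : rmean N f ≤ r) :
    ∑ n ∈ range y, f n ≤ y * r + 2 * E := by
  have h1 := h.sum_sub_mean hN y
  rw [mean_ofReal] at h1
  have h2 : (∑ n ∈ range y, (f n : ℂ)) - (y : ℂ) * (rmean N f : ℂ)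
      = ((∑ n ∈ range y, f n - y * rmean N f : ℝ) : ℂ) := by
    push_cast
    ring
  rw [h2, Complex.norm_real, Real.norm_eq_abs] at h1
  have h3 := le_abs_self (∑ n ∈ range y, f n - y * rmean N f)
  have h4 : (y : ℝ) * rmean N f ≤ y * r := mul_le_mul_of_nonneg_left hr (Nat.cast_nonneg y)
  linarith

private theorem blk_cs_range (y : ℕ) (b t : ℕ → ℝ) (hb : ∀ n, 0 ≤ b n) (hb1 : ∀ n, b n ^ 2 = b n)
    {U V : ℝ} (hU : ∑ n ∈ range y, b n ≤ U)
    (hV : ∑ n ∈ range y, t n ^ 2 ≤ V) :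
    ∑ n ∈ range y, b n * t n ≤ Real.sqrt (U * V) := by
  apply Real.le_sqrt_of_sq_le
  have h1 := Finset.sum_mul_sq_le_sq_mul_sq (range y) b t
  have h2 : ∑ n ∈ range y, b n ^ 2 = ∑ n ∈ range y, b n := Finset.sum_congr rfl (fun n _ => hb1 n)
  rw [h2] at h1
  refine h1.trans ?_
  have h3 : 0 ≤ ∑ n ∈ range y, b n := Finset.sum_nonneg (fun n _ => hb n)
  have h4 : 0 ≤ ∑ n ∈ range y, t n ^ 2 := Finset.sum_nonneg (fun n _ => by positivity)
  exact mul_le_mul hU hV h4 (h3.trans hU)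

theorem block {e m : ℕ} (I : Finset ℕ) (P : ℕ → Finset ℕ) (hdis : (I : Set ℕ).PairwiseDisjoint P)
    (D : ℕ → ℕ) {φ : ℕ → ℕ → ℂ} (hL : ∀ j ∈ I, Loc e m (P j) φ) {Q : ℕ} (hQ : 0 < Q)
    (hQP : ∀ j ∈ I, ∀ p ∈ P j, ¬ p ∣ Q) {G : ℕ → ℂ} (hG : Function.Periodic G Q)
    (hG1 : ∀ n, ‖G n‖ ≤ 1) {s κ η E : ℝ} (hs : ∀ j ∈ I, ∑ p ∈ P j, (m : ℝ) / p ≤ s)
    (hκ : ∑ j ∈ I, Real.exp (35 * s) / 4 ^ D j ≤ κ)
    (hη : ∑ j ∈ I, s ^ (D j + 1) / ((D j + 1).factorial : ℝ) ≤ η)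
    (hE1 : ∑ j ∈ I, (∑ p ∈ P j, (p : ℝ) ^ e) ^ (D j + 1) ≤ E)
    (hE2 : (∏ j ∈ I, (1 + ∑ p ∈ P j, 2 * (p : ℝ) ^ e) ^ D j) ^ 2 ≤ E)
    (hE3 : (Q : ℝ) * ∏ j ∈ I, (1 + ∑ p ∈ P j, 2 * (p : ℝ) ^ e) ^ D j ≤ E) (y : ℕ) :
    ‖∑ n ∈ range y, G n * ∏ j ∈ I, Hp (P j) φ n
        - y * (mean Q G * ∏ j ∈ I, ∏ p ∈ P j, (1 + mean (p ^ e) (φ p)))‖
      ≤ 2 * (y * η + 2 * E) + 2 * Real.sqrt ((y * η + 2 * E) * (y * Real.exp κ + 2 * E)) + 2 * E := by
  classical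
  set M : ℕ → ℕ := fun j => ∏ p ∈ P j, p ^ e with hMdef
  set N : ℕ := Q * ∏ j ∈ I, M j with hNdef
  have hMpos : ∀ j ∈ I, 0 < M j := fun j hj => blk_M_pos (hL j hj)
  have hN : 0 < N := Nat.mul_pos hQ (Finset.prod_pos hMpos)
  have hMN : ∀ j ∈ I, M j ∣ N := fun j hj =>
    (Finset.dvd_prod_of_mem M hj).trans (Dvd.intro_left Q rfl)
  have hMMN : ∏ j ∈ I, M j ∣ N := Dvd.intro_left Q rfl
  set H : ℕ → ℂ := fun n => ∏ j ∈ I, Hp (P j) φ n with hH
  set T : ℕ → ℂ := fun n => ∏ j ∈ I, Tp (P j) (D j) φ n with hT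
  set B : ℕ → ℝ := fun n => ∑ j ∈ I, Bp (P j) (D j) φ n with hB
  set b : ℕ → ℝ := fun n => if ∃ j ∈ I, D j < om (P j) φ n then 1 else 0 with hb
  have hb0 : ∀ n, 0 ≤ b n := by
    intro n; simp only [hb]; split_ifs <;> norm_num
  have hbsq : ∀ n, b n ^ 2 = b n := by
    intro n; simp only [hb]; split_ifs <;> norm_num
  have hbB : ∀ n, b n ≤ B n := by
    intro n
    simp only [hb, hB]
    split_ifs with h
    · obtain ⟨j, hj, hjn⟩ := h
      refine (one_le_Bp (P j) (D j) φ n hjn).trans ?_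
      exact Finset.single_le_sum (f := fun j => Bp (P j) (D j) φ n)
        (fun i _ => Bp_nonneg _ _ _ _) hj
    · exact Finset.sum_nonneg (fun i _ => Bp_nonneg _ _ _ _)
  have hH1 : ∀ n, ‖H n‖ ≤ 1 := by
    intro n
    simp only [hH, norm_prod]
    exact Finset.prod_le_one (fun j _ => norm_nonneg _)
      (fun j hj => norm_Hp_le _ _ _ (fun p hp => (hL j hj).bd p hp n))
  have hdiff : ∀ n, ‖G n * H n - G n * T n‖ ≤ b n + b n * ‖T n‖ := by
    intro n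
    by_cases h : ∃ j ∈ I, D j < om (P j) φ n
    · have hb1 : b n = 1 := by simp only [hb]; rw [if_pos h]
      rw [hb1, one_mul, ← mul_sub, norm_mul]
      calc ‖G n‖ * ‖H n - T n‖ ≤ 1 * (‖H n‖ + ‖T n‖) :=
            mul_le_mul (hG1 n) (norm_sub_le _ _) (norm_nonneg _) zero_le_one
        _ ≤ 1 + ‖T n‖ := by rw [one_mul]; linarith [hH1 n]
    · have hb1 : b n = 0 := by simp only [hb]; rw [if_neg h]
      have hTH : T n = H n := by
        simp only [hT, hH]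
        refine Finset.prod_congr rfl (fun j hj => Tp_eq _ _ _ _ ?_)
        by_contra hcon
        exact h ⟨j, hj, by omega⟩
      rw [hTH, hb1]
      simp
  -- representations
  have hRB : Rep N (fun n => (B n : ℂ)) E := by
    have h1 := Rep.sum I (fun j hj => rep_Bp (hL j hj) (D j) N (hMN j hj))
    refine Rep.mono ?_ hE1
    have h2 : (fun n => (B n : ℂ)) = fun n => ∑ j ∈ I, (Bp (P j) (D j) φ n : ℂ) := by
      funext n
      simp only [hB]
      push_cast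
      rfl
    rw [h2]
    exact h1
  have hmB : rmean N B ≤ η := by
    have h1 : rmean N B = ∑ j ∈ I, rmean N (Bp (P j) (D j) φ) :=
      rmean_sum N I (fun j n => Bp (P j) (D j) φ n)
    rw [h1]
    exact (Finset.sum_le_sum (fun j hj => rmean_Bp (hL j hj) (D j) hN (hMN j hj) (hs j hj))).trans hη
  have hη0 : 0 ≤ η :=
    (rmean_nonneg N (fun n => Finset.sum_nonneg (fun i _ => Bp_nonneg _ _ _ _))).trans hmB
  have hE0 : 0 ≤ E := (sq_nonneg _).trans hE2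
  have hRT : Rep N T (∏ j ∈ I, (1 + ∑ p ∈ P j, 2 * (p : ℝ) ^ e) ^ D j) :=
    Rep.prod I (fun j hj => rep_Tp (hL j hj) (D j) N (hMN j hj))
  have hRT2 : Rep N (fun n => ((‖T n‖ ^ 2 : ℝ) : ℂ)) E := by
    have h1 := Rep.mul hRT (Rep.conj hRT)
    rw [← sq] at h1
    refine Rep.mono ?_ hE2
    have h2 : (fun n => ((‖T n‖ ^ 2 : ℝ) : ℂ)) = fun n => T n * (starRingEnd ℂ) (T n) := by
      funext n
      rw [Complex.mul_conj']
      push_cast
      rfl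
    rw [h2]
    exact h1
  have hRGT : Rep N (fun n => G n * T n) E := by
    have h1 := Rep.mul (Rep.of_periodic hQ (Dvd.intro _ rfl : Q ∣ N) hG hG1) hRT
    rw [one_mul] at h1
    exact Rep.mono h1 hE3
  have hmT : rmean N (fun n => ‖T n‖ ^ 2) ≤ Real.exp κ :=
    blk_rmeanT I P hdis D hL hN hMMN hs hκ
  -- sums
  have hSb : ∑ n ∈ range y, b n ≤ y * η + 2 * E :=
    (Finset.sum_le_sum (fun n _ => hbB n)).trans (blk_real hN hRB y hmB)
  have hST : ∑ n ∈ range y, ‖T n‖ ^ 2 ≤ y * Real.exp κ + 2 * E := blk_real hN hRT2 y hmT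
  have hSbT : ∑ n ∈ range y, b n * ‖T n‖
      ≤ Real.sqrt ((y * η + 2 * E) * (y * Real.exp κ + 2 * E)) :=
    blk_cs_range y b (fun n => ‖T n‖) hb0 hbsq hSb hST
  -- means
  have hmb : rmean N b ≤ η := (rmean_mono N hbB).trans hmB
  have hmbT : rmean N (fun n => b n * ‖T n‖) ≤ Real.sqrt (η * Real.exp κ) := by
    apply Real.le_sqrt_of_sq_le
    have h1 := rmean_cs N b (fun n => ‖T n‖)
    have h2 : (fun n => b n ^ 2) = b := funext hbsq
    rw [h2] at h1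
    exact h1.trans (mul_le_mul hmb hmT (rmean_nonneg N (fun n => by positivity)) hη0)
  have hmean : ‖mean N (fun n => G n * H n) - mean N (fun n => G n * T n)‖
      ≤ η + Real.sqrt (η * Real.exp κ) := by
    rw [← mean_sub]
    refine (norm_mean_le N hdiff).trans ?_
    rw [rmean_add]
    exact add_le_add hmb hmbT
  have hmGH : mean N (fun n => G n * H n)
      = mean Q G * ∏ j ∈ I, ∏ p ∈ P j, (1 + mean (p ^ e) (φ p)) := by
    have hmem : ∀ p ∈ I.biUnion P, ∃ j ∈ I, p ∈ P j := fun p hp => Finset.mem_biUnion.1 hp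
    have h1 : mean N (fun n => G n * ∏ p ∈ I.biUnion P, (1 + φ p n))
        = mean Q G * ∏ p ∈ I.biUnion P, mean (p ^ e) (fun n => 1 + φ p n) := by
      refine mean_prod (I.biUnion P) (fun p => p ^ e) ?_ ?_ (fun p n => 1 + φ p n) ?_ hQ ?_ hG hN ?_
      · intro p hp
        obtain ⟨j, hj, hpj⟩ := hmem p hp
        exact pow_pos ((hL j hj).prime p hpj).pos e
      · intro p hp q hq hpq
        obtain ⟨j, hj, hpj⟩ := hmem p hp
        obtain ⟨i, hi, hqi⟩ := hmem q hq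
        exact Nat.Coprime.pow _ _ ((Nat.coprime_primes ((hL j hj).prime p hpj)
          ((hL i hi).prime q hqi)).2 hpq)
      · intro p hp x
        obtain ⟨j, hj, hpj⟩ := hmem p hp
        simp only
        rw [(hL j hj).per p hpj x]
      · intro p hp
        obtain ⟨j, hj, hpj⟩ := hmem p hp
        exact Nat.Coprime.pow_right _
          (((Nat.Prime.coprime_iff_not_dvd ((hL j hj).prime p hpj)).2 (hQP j hj p hpj)).symm)
      · rw [Finset.prod_biUnion hdis]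
    have h2 : (fun n => G n * H n) = fun n => G n * ∏ p ∈ I.biUnion P, (1 + φ p n) := by
      funext n
      simp only [hH, Hp]
      rw [Finset.prod_biUnion hdis]
    rw [h2, h1, Finset.prod_biUnion hdis]
    congr 1
    refine Finset.prod_congr rfl (fun j hj => Finset.prod_congr rfl (fun p hp => ?_))
    rw [mean_add, mean_one (pow_pos ((hL j hj).prime p hp).pos e)]
  have hGT := hRGT.sum_sub_mean hN y
  have hys : (y : ℝ) * Real.sqrt (η * Real.exp κ)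
      ≤ Real.sqrt ((y * η + 2 * E) * (y * Real.exp κ + 2 * E)) := by
    have hy : (0 : ℝ) ≤ y := Nat.cast_nonneg y
    apply Real.le_sqrt_of_sq_le
    have he := (Real.exp_pos κ).le
    rw [mul_pow, Real.sq_sqrt (mul_nonneg hη0 he)]
    have h1 : (y : ℝ) ^ 2 * (η * Real.exp κ) = (y * η) * (y * Real.exp κ) := by ring
    rw [h1]
    refine mul_le_mul (by linarith) (by linarith) (mul_nonneg hy he) ?_
    have := mul_nonneg hy hη0
    linarith
  have hyη : (0 : ℝ) ≤ y * η := mul_nonneg (Nat.cast_nonneg y) hη0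
  have hsplit : ∑ n ∈ range y, G n * H n - y * mean N (fun n => G n * H n)
      = ∑ n ∈ range y, (G n * H n - G n * T n)
        + (∑ n ∈ range y, G n * T n - y * mean N (fun n => G n * T n))
        - y * (mean N (fun n => G n * H n) - mean N (fun n => G n * T n)) := by
    rw [Finset.sum_sub_distrib]
    ring
  have h1 : ‖∑ n ∈ range y, (G n * H n - G n * T n)‖
      ≤ (y * η + 2 * E) + Real.sqrt ((y * η + 2 * E) * (y * Real.exp κ + 2 * E)) := by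
    calc ‖∑ n ∈ range y, (G n * H n - G n * T n)‖
        ≤ ∑ n ∈ range y, (b n + b n * ‖T n‖) :=
          (norm_sum_le _ _).trans (Finset.sum_le_sum (fun n _ => hdiff n))
      _ = ∑ n ∈ range y, b n + ∑ n ∈ range y, b n * ‖T n‖ := Finset.sum_add_distrib
      _ ≤ _ := add_le_add hSb hSbT
  have h2 : ‖(y : ℂ) * (mean N (fun n => G n * H n) - mean N (fun n => G n * T n))‖
      ≤ y * η + Real.sqrt ((y * η + 2 * E) * (y * Real.exp κ + 2 * E)) := by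
    rw [norm_mul, Complex.norm_natCast]
    calc (y : ℝ) * ‖mean N (fun n => G n * H n) - mean N (fun n => G n * T n)‖
        ≤ y * (η + Real.sqrt (η * Real.exp κ)) :=
          mul_le_mul_of_nonneg_left hmean (Nat.cast_nonneg y)
      _ = y * η + y * Real.sqrt (η * Real.exp κ) := by ring
      _ ≤ _ := by linarith
  rw [← hmGH, hsplit]
  refine (norm_sub_le _ _).trans ?_
  have h3 := norm_add_le (∑ n ∈ range y, (G n * H n - G n * T n))
    (∑ n ∈ range y, G n * T n - y * mean N (fun n => G n * T n))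
  linarith

end Pool.Agent.H1.LP
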