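import Pool.Agent.H1.LP.Defs
import Pool.Agent.H2.EllMert
import Pool.Agent.H2.EllLimit

/-!
# [H1 LP SYS]  the local data of a system of linear forms (`Sys`, `hh`, `mm`, `al` in `Pool/Agent/H2`)

`hh D.a D.b D.al n p = ∑_i (if p ∣ a_i n + b_i then al_i p else 0)`.
* `sys_loc`: period `p` (`p ∣ a (n + p) + b ↔ p ∣ a n + b`); `‖1 + hh‖ ≤ 1`: `Sys.norm_one_add_hh`;
  support: the set of `r < p` with `hh ≠ 0` is contained in the union over `i` of `{r < p : p ∣ a_i r + b_i}`, which has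
  one element (`Pool.H2.Ell.exists_residue` or direct: `p ∣ a_i (r - r')` and `¬ p ∣ a_i`, `Sys.not_dvd_a`).
* `sys_mean`: exactly one `r < p` has `p ∣ a_i r + b_i`, so `∑_{r<p} hh = ∑_i al_i p`.
* `sys_large`: `‖hh m p‖ ≤ ∑_i (if p ∣ L_i m then ‖al_i p‖ else 0)`; if `p > X` all terms vanish (`0 < L_i m ≤ X`);
  if `p ≤ X`: `Sys.count_L` gives `∑_{m < y} ≤ ∑_i ‖al_i p‖ A y / p`.  Then for each `i` by Cauchy-Schwarz
  `∑_p ‖al_i p‖ / p ≤ √(∑_p 1/p) √(∑_p ‖al_i p‖^2 / p) ≤ √(4 (J + 1)) √(2 α)`, the sums over the primes `p` of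
  `(Y N', X] ⊆ (Y N', Y (N'+J+1)]`: `sum_blk_inv` for each of the `J + 1` blocks, and
  `‖al‖^2 = ‖u - 1‖^2 ≤ 2 (1 - Re u)` as `‖u‖ ≤ 1` (see `Sys.normSq_one_add_mm`).
-/

set_option autoImplicit false

namespace Pool.Agent.H1.LP

open Finset Pool.H2.Ell

theorem hh_periodic {ι : Type} [Fintype ι] (D : Sys ι) (p : ℕ) :
    Function.Periodic (fun n => hh D.a D.b D.al n p) p := by
  intro n
  beta_reduce
  unfold hh
  refine Finset.sum_congr rfl (fun i _ => ?_)
  have h : p ∣ D.a i * (n + p) + D.b i ↔ p ∣ D.a i * n + D.b i := by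
    have e : D.a i * (n + p) + D.b i = p * D.a i + (D.a i * n + D.b i) := by ring
    rw [e]
    exact Nat.dvd_add_right (Nat.dvd_mul_right p (D.a i))
  by_cases h1 : p ∣ D.a i * n + D.b i
  · rw [if_pos h1, if_pos (h.mpr h1)]
  · rw [if_neg h1, if_neg (fun h2 => h1 (h.mp h2))]

theorem sys_loc {ι : Type} [Fintype ι] (D : Sys ι) {y : ℕ} (hy : D.Adm y) {S : Finset ℕ}
    (hS : ∀ p ∈ S, p.Prime ∧ y < p) :
    Loc 1 (Fintype.card ι) S (fun p n => hh D.a D.b D.al n p) := by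
  classical
  refine ⟨fun p hp => (hS p hp).1, fun p hp => ?_, fun p hp n => ?_, fun p hp => ?_⟩
  · rw [pow_one]
    exact hh_periodic D p
  · exact D.norm_one_add_hh hy (hS p hp).1.pos (hS p hp).2 n
  · obtain ⟨hpp, hyp⟩ := hS p hp
    have hp0 : (0 : ℝ) < p := by exact_mod_cast hpp.pos
    have hres : ∀ i : ι, ∃ m₀ < p, ∀ m : ℕ, p ∣ D.a i * m + D.b i ↔ m % p = m₀ :=
      fun i => exists_residue p (D.a i) (D.b i) hpp (D.not_dvd_a hy hyp i)
    choose m₀ hm₀ hiff using hres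
    have hsub : (range (p ^ 1)).filter (fun r => hh D.a D.b D.al r p ≠ 0) ⊆
        (univ : Finset ι).image m₀ := by
      intro r hr
      rw [Finset.mem_filter, Finset.mem_range, pow_one] at hr
      obtain ⟨hr1, hr2⟩ := hr
      unfold hh at hr2
      obtain ⟨i, _, hi⟩ := Finset.exists_ne_zero_of_sum_ne_zero hr2
      rw [Finset.mem_image]
      refine ⟨i, Finset.mem_univ i, ?_⟩
      by_contra hne
      apply hi
      rw [if_neg]
      intro hd
      rw [hiff i r, Nat.mod_eq_of_lt hr1] at hd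
      exact hne hd.symm
    have hcard : ((range (p ^ 1)).filter (fun r => hh D.a D.b D.al r p ≠ 0)).card ≤
        Fintype.card ι := by
      refine (Finset.card_le_card hsub).trans (Finset.card_image_le.trans ?_)
      rw [Finset.card_univ]
    rw [pow_one (p : ℝ)]
    refine mul_le_mul_of_nonneg_right ?_ hp0.le
    exact_mod_cast hcard

theorem sys_mean {ι : Type} [Fintype ι] (D : Sys ι) {y : ℕ} (hy : D.Adm y) {p : ℕ} (hp : p.Prime)
    (hyp : y < p) : mean (p ^ 1) (fun n => hh D.a D.b D.al n p) = mm D.al p := by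
  have hp0 : (p : ℂ) ≠ 0 := by exact_mod_cast hp.ne_zero
  unfold mean hh mm
  rw [pow_one, Finset.sum_comm, Finset.sum_div]
  refine Finset.sum_congr rfl (fun i _ => ?_)
  obtain ⟨m₀, hm₀, hiff⟩ := exists_residue p (D.a i) (D.b i) hp (D.not_dvd_a hy hyp i)
  congr 1
  rw [Finset.sum_eq_single m₀]
  · rw [if_pos]
    rw [hiff, Nat.mod_eq_of_lt hm₀]
  · intro r hr hne
    rw [Finset.mem_range] at hr
    rw [if_neg]
    rw [hiff, Nat.mod_eq_of_lt hr]
    exact hne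
  · intro h
    exact absurd (Finset.mem_range.mpr hm₀) h

theorem sys_large {ι : Type} [Fintype ι] (D : Sys ι) {A N' J X : ℕ} (hA : ∀ i, D.a i + D.b i ≤ A)
    (hX : X < Y (N' + J + 1)) {α : ℝ}
    (hα : ∀ i, ∑ p ∈ (Ioc (Y N') X).filter Nat.Prime, (1 - (D.u i p).re) / (p : ℝ) ≤ α) {y : ℕ}
    (hy : ∀ i, D.a i * y + D.b i ≤ X) (hyX : y ≤ X) :
    ∑ m ∈ range y, ∑ p ∈ rng N' (N' + J + 1), ‖hh D.a D.b D.al m p‖
      ≤ Fintype.card ι * (A * Real.sqrt (8 * (J + 1) * α)) * X := by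
  classical
  set Q : Finset ℕ := (Ioc (Y N') X).filter Nat.Prime with hQ
  have hα0 : ∀ i, 0 ≤ ∑ p ∈ Q, (1 - (D.u i p).re) / (p : ℝ) := by
    intro i
    refine Finset.sum_nonneg (fun p hp => ?_)
    rw [hQ, Finset.mem_filter] at hp
    have := D.re_u_le i hp.2.pos
    exact div_nonneg (by linarith) (Nat.cast_nonneg _)
  -- large primes do not contribute
  have hz : ∀ m ∈ range y, ∀ p ∈ rng N' (N' + J + 1), p ∉ Q → hh D.a D.b D.al m p = 0 := by
    intro m hm p hp hpQ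
    rw [mem_rng] at hp
    have hXp : X < p := by
      by_contra hcon
      apply hpQ
      rw [hQ, Finset.mem_filter, Finset.mem_Ioc]
      exact ⟨⟨hp.1.1, not_lt.mp hcon⟩, hp.2⟩
    unfold hh
    refine Finset.sum_eq_zero (fun i _ => if_neg (fun hd => ?_))
    have h1 := Nat.le_of_dvd (D.L_pos i m) hd
    have h2 : D.a i * m + D.b i ≤ D.a i * y + D.b i := by
      have := Nat.mul_le_mul_left (D.a i) (Finset.mem_range.mp hm).le
      omega
    have h3 := hy i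
    unfold Sys.L at h1
    omega
  have hQsub : Q ⊆ rng N' (N' + J + 1) := by
    intro p hp
    rw [hQ, Finset.mem_filter, Finset.mem_Ioc] at hp
    rw [mem_rng]
    exact ⟨⟨hp.1.1, hp.1.2.trans hX.le⟩, hp.2⟩
  have hinv : ∑ p ∈ Q, (1 : ℝ) / p ≤ 4 * (J + 1) := by
    calc ∑ p ∈ Q, (1 : ℝ) / p ≤ ∑ p ∈ rng N' (N' + J + 1), (1 : ℝ) / p :=
          Finset.sum_le_sum_of_subset_of_nonneg hQsub (fun p _ _ => by positivity)
      _ = ∑ j ∈ Ico N' (N' + J + 1), ∑ p ∈ blk j, (1 : ℝ) / p := sum_rng _ _ _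
      _ ≤ ∑ j ∈ Ico N' (N' + J + 1), (4 : ℝ) := Finset.sum_le_sum (fun j _ => sum_blk_inv j)
      _ = 4 * (J + 1) := by
        rw [Finset.sum_const, Nat.card_Ico, nsmul_eq_mul]
        have : N' + J + 1 - N' = J + 1 := by omega
        rw [this]
        push_cast
        ring
  have hal : ∀ i, ∀ p ∈ Q, ‖D.al i p‖ ^ 2 ≤ 2 * (1 - (D.u i p).re) := by
    intro i p hp
    rw [hQ, Finset.mem_filter] at hp
    unfold Sys.al
    rw [← Complex.normSq_eq_norm_sq, Complex.normSq_sub]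
    simp only [map_one, mul_one]
    have h1 : Complex.normSq (D.u i p) ≤ 1 := by
      rw [Complex.normSq_eq_norm_sq]
      have := D.norm_u_le i hp.2.pos
      have h0 := norm_nonneg (D.u i p)
      nlinarith
    linarith
  have hCS : ∀ i, ∑ p ∈ Q, ‖D.al i p‖ / p ≤ Real.sqrt (8 * (J + 1) * α) := by
    intro i
    apply Real.le_sqrt_of_sq_le
    have h1 : (∑ p ∈ Q, ‖D.al i p‖ / (p : ℝ)) ^ 2 ≤
        (∑ p ∈ Q, (1 : ℝ) / p) * ∑ p ∈ Q, ‖D.al i p‖ ^ 2 / p := by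
      have h2 := Finset.sum_mul_sq_le_sq_mul_sq Q (fun p : ℕ => Real.sqrt (1 / (p : ℝ)))
        (fun p : ℕ => Real.sqrt (1 / (p : ℝ)) * ‖D.al i p‖)
      have e1 : ∀ p ∈ Q, Real.sqrt (1 / (p : ℝ)) * (Real.sqrt (1 / (p : ℝ)) * ‖D.al i p‖) =
          ‖D.al i p‖ / (p : ℝ) := by
        intro p _
        rw [← mul_assoc, Real.mul_self_sqrt (by positivity)]
        ring
      have e2 : ∀ p ∈ Q, Real.sqrt (1 / (p : ℝ)) ^ 2 = 1 / (p : ℝ) := by
        intro p _
        rw [Real.sq_sqrt (by positivity)]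
      have e3 : ∀ p ∈ Q, (Real.sqrt (1 / (p : ℝ)) * ‖D.al i p‖) ^ 2 =
          ‖D.al i p‖ ^ 2 / (p : ℝ) := by
        intro p _
        rw [mul_pow, Real.sq_sqrt (by positivity)]
        ring
      rw [Finset.sum_congr rfl e1, Finset.sum_congr rfl e2, Finset.sum_congr rfl e3] at h2
      exact h2
    have h3 : ∑ p ∈ Q, ‖D.al i p‖ ^ 2 / (p : ℝ) ≤ 2 * α := by
      calc ∑ p ∈ Q, ‖D.al i p‖ ^ 2 / (p : ℝ) ≤ ∑ p ∈ Q, 2 * ((1 - (D.u i p).re) / (p : ℝ)) := by
            refine Finset.sum_le_sum (fun p hp => ?_)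
            rw [← mul_div_assoc]
            exact div_le_div_of_nonneg_right (hal i p hp) (Nat.cast_nonneg _)
        _ = 2 * ∑ p ∈ Q, (1 - (D.u i p).re) / (p : ℝ) := by rw [Finset.mul_sum]
        _ ≤ 2 * α := by have := hα i; linarith
    have h4 : 0 ≤ ∑ p ∈ Q, ‖D.al i p‖ ^ 2 / (p : ℝ) :=
      Finset.sum_nonneg (fun p _ => by positivity)
    calc (∑ p ∈ Q, ‖D.al i p‖ / (p : ℝ)) ^ 2 ≤
        (∑ p ∈ Q, (1 : ℝ) / p) * ∑ p ∈ Q, ‖D.al i p‖ ^ 2 / p := h1
      _ ≤ (4 * (J + 1)) * (2 * α) := mul_le_mul hinv h3 h4 (by positivity)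
      _ = 8 * (J + 1) * α := by ring
  have hnorm : ∀ m p, ‖hh D.a D.b D.al m p‖ ≤
      ∑ i, ‖D.al i p‖ * (if p ∣ D.L i m then (1 : ℝ) else 0) := by
    intro m p
    unfold hh
    refine (norm_sum_le _ _).trans (Finset.sum_le_sum (fun i _ => ?_))
    by_cases h : p ∣ D.a i * m + D.b i
    · have h' : p ∣ D.L i m := h
      rw [if_pos h, if_pos h', mul_one]
    · have h' : ¬ p ∣ D.L i m := h
      rw [if_neg h, if_neg h', mul_zero, norm_zero]
  calc ∑ m ∈ range y, ∑ p ∈ rng N' (N' + J + 1), ‖hh D.a D.b D.al m p‖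
      = ∑ m ∈ range y, ∑ p ∈ Q, ‖hh D.a D.b D.al m p‖ := by
        refine Finset.sum_congr rfl (fun m hm => ?_)
        refine (Finset.sum_subset hQsub (fun p hp hpQ => ?_)).symm
        rw [hz m hm p hp hpQ, norm_zero]
    _ = ∑ p ∈ Q, ∑ m ∈ range y, ‖hh D.a D.b D.al m p‖ := Finset.sum_comm
    _ ≤ ∑ p ∈ Q, ∑ i, ‖D.al i p‖ * (A * y / p) := by
        refine Finset.sum_le_sum (fun p hp => ?_)
        rw [hQ, Finset.mem_filter] at hp
        calc ∑ m ∈ range y, ‖hh D.a D.b D.al m p‖ ≤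
            ∑ m ∈ range y, ∑ i, ‖D.al i p‖ * (if p ∣ D.L i m then (1 : ℝ) else 0) :=
              Finset.sum_le_sum (fun m _ => hnorm m p)
          _ = ∑ i, ‖D.al i p‖ * ∑ m ∈ range y, (if p ∣ D.L i m then (1 : ℝ) else 0) := by
              rw [Finset.sum_comm]
              exact Finset.sum_congr rfl (fun i _ => (Finset.mul_sum _ _ _).symm)
          _ ≤ ∑ i, ‖D.al i p‖ * (A * y / p) := by
              refine Finset.sum_le_sum (fun i _ => ?_)
              exact mul_le_mul_of_nonneg_left (D.count_L i p y A (hA i) hp.2.pos) (norm_nonneg _)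
    _ = ∑ i, (A * y) * ∑ p ∈ Q, ‖D.al i p‖ / p := by
        rw [Finset.sum_comm]
        refine Finset.sum_congr rfl (fun i _ => ?_)
        rw [Finset.mul_sum]
        refine Finset.sum_congr rfl (fun p _ => ?_)
        ring
    _ ≤ ∑ _i : ι, (A * X) * Real.sqrt (8 * (J + 1) * α) := by
        refine Finset.sum_le_sum (fun i _ => ?_)
        have h1 : (A : ℝ) * y ≤ A * X := by
          have : (y : ℝ) ≤ X := by exact_mod_cast hyX
          gcongr
        have h2 : 0 ≤ ∑ p ∈ Q, ‖D.al i p‖ / (p : ℝ) :=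
          Finset.sum_nonneg (fun p _ => by positivity)
        exact mul_le_mul h1 (hCS i) h2 (by positivity)
    _ = Fintype.card ι * (A * Real.sqrt (8 * (J + 1) * α)) * X := by
        rw [Finset.sum_const, Finset.card_univ, nsmul_eq_mul]
        ring

end Pool.Agent.H1.LP
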