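import Pool.Agent.H1.LP.Params
import Pool.Agent.H1.LP.SysL

/-!
# [H1 LP CORE]  uniform bound for the sums of `F conj W` of a system of linear forms

Follow `Pool.H2.Ell.Sys.core` (`Pool/Agent/H2/EllLimit.lean`).  Let `r = card ι`.
Choice: `j₀` with `B ≤ Y j₀`, `8 r + 2 ≤ Y j₀` and `2 r A / Y j₀ ≤ ε / 8` (`lt_Y`); `K` with
`2 r (Y j₀ + 1) A / 2^K ≤ ε / 8`; `Q = (Y j₀)!^(K+1)`; `(J, N₁)` from `params 1 r (ε/8)`;
`N₀ = max N₁ (max j₀ Q)`; `α > 0` with `r A √(8 (J+1) α) ≤ ε / 8`;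
`M = 2 Y j₀ + α + 2 log (8/ε)`-like, so that `exp (-(M - 2 Y j₀ - α)/2) ≤ ε / 8`.
`D.Adm (Y j₀)` from `D.Adm B`.
* `F n conj (W n) - G n H n = (F n - G n W n H n) conj (W n)` (`‖W n‖ = 1`), `G = D.G (Y j₀) K`,
  `H n = ∏_{p ∈ rng j₀ N'} (1 + hh n p)`.  Its norm is bounded by `Sys.pointwise` (`n := N'`, `n₂ := N'+J+1`,
  `L_i m ≤ a_i y + b_i ≤ X ≤ Y n₂`); sum over `m < y ≤ X`: `Sys.count1`, `Sys.count2` (`EllWindow`), `sys_large`:
  at most `(3/8) ε X`.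
* `‖∑_{n<y} G H - y (mean Q G ∏_{p ∈ rng j₀ N'} (1 + mm p))‖ ≤ (ε/8) X`: `params` with
  `φ p n = hh D.a D.b D.al n p`, `e = 1`, `sys_loc` (`S = blk j`, `j ≥ j₀`), `sys_mean`, `Sys.G_periodic`,
  `Sys.norm_G_le`; a prime `p > Y j₀` does not divide `(Y j₀)!^(K+1)` (`Nat.Prime.dvd_factorial`);
  `Q ≤ N₀ ≤ N' < Y N'`.
* `‖mean Q G‖ ≤ 1`, `‖∏ (1 + mm p)‖^2 ≤ exp (- ∑_{rng j₀ N'} (1 - Re u_i)/p)` (`Sys.normSq_prod_le`) and
  `∑_{rng j₀ N'} ≥ ∑_{(0,X]} - ∑_{(0, Y j₀]} - ∑_{(Y N', X]} ≥ M - 2 Y j₀ - α` (the terms are in `[0, 2/p]`,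
  `2/p ≤ 2`, `N' + J ≥ N'`, `Y N' ≤ X`).
-/

set_option autoImplicit false

namespace Pool.Agent.H1.LP

open Finset Pool.H2.Ell

/-- a prime larger than `y` does not divide a power of `y!` -/
theorem not_dvd_fact_pow {y K p : ℕ} (hp : p.Prime) (hyp : y < p) : ¬ p ∣ y.factorial ^ K := by
  intro h
  have h1 := hp.dvd_of_dvd_pow h
  rw [hp.dvd_factorial] at h1
  omega

theorem sum_filter_Ioc_split (f : ℕ → ℝ) {a b c : ℕ} (hab : a ≤ b) (hbc : b ≤ c) :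
    ∑ p ∈ (Ioc a c).filter Nat.Prime, f p
      = ∑ p ∈ (Ioc a b).filter Nat.Prime, f p + ∑ p ∈ (Ioc b c).filter Nat.Prime, f p := by
  rw [sum_filter, sum_filter, sum_filter, ← Finset.sum_Ioc_consecutive _ hab hbc]

theorem rng_eq_filter (j n : ℕ) : rng j n = (Ioc (Y j) (Y n)).filter Nat.Prime := by
  ext p
  rw [mem_rng, mem_filter, mem_Ioc]

/-- lower bound for the distance restricted to a middle range -/
theorem dist_mid {ι : Type} [Fintype ι] (D : Sys ι) (i : ι) {j₀ N' X : ℕ} (hj : j₀ ≤ N')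
    (hX : Y N' ≤ X) {α M : ℝ}
    (h1 : ∑ p ∈ (Ioc (Y N') X).filter Nat.Prime, (1 - (D.u i p).re) / (p : ℝ) ≤ α)
    (h2 : M ≤ ∑ p ∈ (Ioc 0 X).filter Nat.Prime, (1 - (D.u i p).re) / (p : ℝ)) :
    M - 2 * (Y j₀ : ℝ) - α ≤ ∑ p ∈ rng j₀ N', (1 - (D.u i p).re) / (p : ℝ) := by
  rw [sum_filter_Ioc_split _ (Nat.zero_le (Y j₀)) ((Y_mono hj).trans hX),
    sum_filter_Ioc_split _ (Y_mono hj) hX, ← rng_eq_filter] at h2
  have h3 : ∑ p ∈ (Ioc 0 (Y j₀)).filter Nat.Prime, (1 - (D.u i p).re) / (p : ℝ) ≤ 2 * (Y j₀ : ℝ) := by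
    have hterm : ∀ p ∈ (Ioc 0 (Y j₀)).filter Nat.Prime, (1 - (D.u i p).re) / (p : ℝ) ≤ 2 := by
      intro p hp
      rw [mem_filter, mem_Ioc] at hp
      have hp0 : 0 < p := hp.1.1
      have hp1 : (1 : ℝ) ≤ p := by exact_mod_cast hp0
      have hu := D.norm_u_le i hp0
      have hre : -1 ≤ (D.u i p).re := by
        have := Complex.abs_re_le_norm (D.u i p)
        have := (abs_le.1 (this.trans hu)).1
        exact this
      rw [div_le_iff₀ (by linarith)]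
      nlinarith
    refine (sum_le_sum hterm).trans ?_
    rw [sum_const, nsmul_eq_mul]
    have hc : (((Ioc 0 (Y j₀)).filter Nat.Prime).card : ℝ) ≤ Y j₀ := by
      have := card_filter_le (Ioc 0 (Y j₀)) Nat.Prime
      rw [Nat.card_Ioc, Nat.sub_zero] at this
      exact_mod_cast this
    linarith
  linarith

theorem core_fin (ι : Type) [Fintype ι] (A : ℕ) {ε : ℝ} (hε : 0 < ε) :
    ∃ (α : ℝ) (J : ℕ), 0 < α ∧ ∀ B : ℕ, ∃ (M : ℝ) (N₀ : ℕ), ∀ (D : Sys ι), D.Adm B →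
      (∀ i, D.a i + D.b i ≤ A) →
      ∀ (N' X : ℕ), N₀ ≤ N' → Y (N' + J) ≤ X → X < Y (N' + J + 1) →
      (∀ i, ∑ p ∈ (Ioc (Y N') X).filter Nat.Prime, (1 - (D.u i p).re) / (p : ℝ) ≤ α) →
      (∃ i, M ≤ ∑ p ∈ (Ioc 0 X).filter Nat.Prime, (1 - (D.u i p).re) / (p : ℝ)) →
      ∀ y : ℕ, (∀ i, D.a i * y + D.b i ≤ X) →
      ‖∑ n ∈ range y, D.F n * (starRingEnd ℂ) (D.W n)‖ ≤ ε * X := by
  classical
  set r : ℝ := (Fintype.card ι : ℝ) with hr
  have hr0 : 0 ≤ r := by rw [hr]; positivity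
  have hA0 : (0 : ℝ) ≤ A := by positivity
  obtain ⟨J, N₁, hpar⟩ := params 1 (Fintype.card ι) (show 0 < ε / 8 by positivity)
  -- choice of α
  obtain ⟨α, hα0, hα⟩ : ∃ α : ℝ, 0 < α ∧ r * (A * Real.sqrt (8 * (J + 1) * α)) ≤ ε / 8 := by
    set c : ℝ := r * A with hc
    have hc0 : 0 ≤ c := by rw [hc]; positivity
    have hJ0 : (0 : ℝ) < 8 * ((J : ℝ) + 1) := by positivity
    refine ⟨(ε / (8 * (c + 1))) ^ 2 / (8 * (J + 1)), by positivity, ?_⟩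
    have e1 : 8 * ((J : ℝ) + 1) * ((ε / (8 * (c + 1))) ^ 2 / (8 * (J + 1))) = (ε / (8 * (c + 1))) ^ 2 := by
      field_simp
    rw [e1, Real.sqrt_sq (by positivity)]
    have e2 : r * (A * (ε / (8 * (c + 1)))) = (c / (c + 1)) * (ε / 8) := by
      rw [hc]; field_simp
    rw [e2]
    have e3 : c / (c + 1) ≤ 1 := by rw [div_le_one (by positivity)]; linarith
    have : 0 ≤ ε / 8 := by positivity
    nlinarith
  refine ⟨α, J, hα0, fun B => ?_⟩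
  -- choice of j₀
  obtain ⟨j₂, hj₂⟩ := exists_nat_ge (16 * r * A / ε)
  set j₀ : ℕ := max j₂ (max B (8 * Fintype.card ι + 2)) with hj₀
  have hjlt := lt_Y j₀
  have hBY : B ≤ Y j₀ := by omega
  have hrY : 8 * Fintype.card ι + 2 ≤ Y j₀ := by omega
  set y₀ : ℝ := (Y j₀ : ℝ) with hy₀
  have hy₀0 : 0 < y₀ := by rw [hy₀]; exact_mod_cast Y_pos j₀
  have hT5 : 2 * (r * (A / y₀)) ≤ ε / 8 := by
    have h1 : 16 * r * A / ε ≤ y₀ := by
      refine hj₂.trans ?_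
      rw [hy₀]
      exact_mod_cast (show j₂ ≤ Y j₀ by omega)
    rw [div_le_iff₀ hε] at h1
    have : 2 * (r * (A / y₀)) = (2 * r * A) / y₀ := by ring
    rw [this, div_le_iff₀ hy₀0]
    nlinarith
  obtain ⟨K, hK⟩ := pow_unbounded_of_one_lt (16 * r * (y₀ + 1) * A / ε) (show (1 : ℝ) < 2 by norm_num)
  have hT4 : 2 * (r * ((y₀ + 1) * (A / 2 ^ K))) ≤ ε / 8 := by
    have h2 : (0 : ℝ) < 2 ^ K := by positivity
    have h1 := hK.le
    rw [div_le_iff₀ hε] at h1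
    have : 2 * (r * ((y₀ + 1) * (A / 2 ^ K))) = (2 * r * (y₀ + 1) * A) / 2 ^ K := by ring
    rw [this, div_le_iff₀ h2]
    nlinarith
  set Q : ℕ := (Y j₀).factorial ^ (K + 1) with hQ
  have hQ0 : 0 < Q := by rw [hQ]; positivity
  set M : ℝ := 2 * (Y j₀ : ℝ) + α - Real.log ((ε / 8) ^ 2) with hM
  refine ⟨M, max N₁ (max j₀ Q), ?_⟩
  intro D hadm hA N' X hN hYX hXY hrough hdist y hy
  obtain ⟨i₁, hi₁⟩ := hdist
  have hN1 : N₁ ≤ N' := le_trans (le_max_left _ _) hN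
  have hNj : j₀ ≤ N' := le_trans (le_trans (le_max_left _ _) (le_max_right _ _)) hN
  have hNQ : Q ≤ N' := le_trans (le_trans (le_max_right _ _) (le_max_right _ _)) hN
  have hadm' : D.Adm (Y j₀) := ⟨fun i => (hadm.a_le i).trans hBY, fun i => (hadm.q_le i).trans hBY,
    fun i j => (hadm.cross i j).trans (by omega)⟩
  have hYN : Y N' ≤ X := (Y_mono (Nat.le_add_right N' J)).trans hYX
  have hyX : y ≤ X := by
    have h1 := hy i₁
    have h2 := D.ha i₁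
    nlinarith
  have hXr : (0 : ℝ) ≤ X := by positivity
  have hyXr : (y : ℝ) ≤ X := by exact_mod_cast hyX
  -- pointwise approximation
  set H : ℕ → ℂ := fun n => ∏ p ∈ rng j₀ N', (1 + hh D.a D.b D.al n p) with hH
  set G : ℕ → ℂ := D.G (Y j₀) K with hG
  have hLX : ∀ i, ∀ m < y, D.L i m ≤ X := by
    intro i m hm
    have h1 := hy i
    have h2 : D.a i * m ≤ D.a i * y := Nat.mul_le_mul_left _ hm.le
    show D.a i * m + D.b i ≤ X
    omega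
  have hpt : ∀ m ∈ range y, ‖D.F m * (starRingEnd ℂ) (D.W m) - G m * H m‖
      ≤ 2 * (∑ i, ∑ ℓ ∈ (range (Y j₀ + 1)).filter Nat.Prime, (if ℓ ^ K ∣ D.L i m then (1 : ℝ) else 0))
        + 2 * (∑ i, ∑ p ∈ rng j₀ (N' + J + 1), (if p ^ 2 ∣ D.L i m then (1 : ℝ) else 0))
        + ∑ p ∈ rng N' (N' + J + 1), ‖hh D.a D.b D.al m p‖ := by
    intro m hm
    rw [mem_range] at hm
    have h1 := D.pointwise (K := K) hadm' hNj (show N' ≤ N' + J + 1 by omega)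
      (fun i => (hLX i m hm).trans hXY.le) (m := m)
    refine le_trans (le_of_eq ?_) h1
    have hW := D.norm_W m
    have hWW : D.W m * (starRingEnd ℂ) (D.W m) = 1 := by
      rw [mul_comm]; exact conj_mul_of_norm_one hW
    have e : D.F m * (starRingEnd ℂ) (D.W m) - G m * H m
        = (D.F m - D.G (Y j₀) K m * D.W m * ∏ p ∈ rng j₀ N', (1 + hh D.a D.b D.al m p))
          * (starRingEnd ℂ) (D.W m) := by
      rw [hG, hH]
      linear_combination (D.G (Y j₀) K m * ∏ p ∈ rng j₀ N', (1 + hh D.a D.b D.al m p)) * hWW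
    rw [e, norm_mul, RCLike.norm_conj, hW, mul_one]
  have herr : ‖∑ m ∈ range y, (D.F m * (starRingEnd ℂ) (D.W m) - G m * H m)‖ ≤ (3 * (ε / 8)) * X := by
    refine (norm_sum_le _ _).trans ((sum_le_sum hpt).trans ?_)
    rw [sum_add_distrib, sum_add_distrib, ← mul_sum, ← mul_sum]
    have c1 := D.count1 (Y j₀) K y A hA
    have c2 := D.count2 j₀ (N' + J + 1) y A hA
    have c3 := sys_large D hA hXY hrough hy hyX
    have t1 : 2 * ((Fintype.card ι : ℝ) * (((Y j₀ : ℝ) + 1) * (A * y / 2 ^ K))) ≤ (ε / 8) * X := by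
      calc _ = (2 * (r * ((y₀ + 1) * (A / 2 ^ K)))) * y := by rw [hr, hy₀]; ring
        _ ≤ (ε / 8) * X := by gcongr
    have t2 : 2 * ((Fintype.card ι : ℝ) * (A * y / (Y j₀ : ℝ))) ≤ (ε / 8) * X := by
      calc _ = (2 * (r * (A / y₀))) * y := by rw [hr, hy₀]; ring
        _ ≤ (ε / 8) * X := by gcongr
    have t3 : (Fintype.card ι : ℝ) * (A * Real.sqrt (8 * (J + 1) * α)) * X ≤ (ε / 8) * X := by
      gcongr
    linarith
  -- main term
  have hper : Function.Periodic G Q := by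
    intro n
    have := D.G_periodic (K := K) hadm' n 1
    rw [hG, hQ]
    rw [mul_one, add_comm] at this
    exact this
  have hQP : ∀ p ∈ rng j₀ N', ¬ p ∣ Q := by
    intro p hp
    rw [mem_rng] at hp
    exact not_dvd_fact_pow hp.2 hp.1.1
  have hloc : ∀ j ∈ Ico j₀ N', Loc 1 (Fintype.card ι) (blk j) (fun p n => hh D.a D.b D.al n p) := by
    intro j hj
    apply sys_loc D hadm'
    intro p hp
    rw [mem_blk] at hp
    rw [mem_Ico] at hj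
    exact ⟨hp.2, lt_of_le_of_lt (Y_mono hj.1) hp.1.1⟩
  have hmain := hpar j₀ N' X Q (fun p n => hh D.a D.b D.al n p) G hNj hN1 hYX hQ0
    (hNQ.trans (lt_Y N').le) hQP hloc hper (D.norm_G_le (Y j₀) K) y hyX
  have hmean : ∀ p ∈ rng j₀ N', 1 + mean (p ^ 1) (fun n => hh D.a D.b D.al n p) = 1 + mm D.al p := by
    intro p hp
    rw [mem_rng] at hp
    rw [sys_mean D hadm' hp.2 hp.1.1]
  have hmean' : (∏ p ∈ rng j₀ N', (1 + mean (p ^ 1) (fun n => hh D.a D.b D.al n p)))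
      = ∏ p ∈ rng j₀ N', (1 + mm D.al p) := prod_congr rfl hmean
  rw [hmean'] at hmain
  have hmG : ‖mean Q G‖ ≤ 1 := by
    refine (norm_mean_le Q (f := fun _ => (1 : ℝ)) (D.norm_G_le (Y j₀) K)).trans ?_
    unfold rmean
    rw [sum_const, card_range, nsmul_eq_mul, mul_one]
    exact div_self_le_one _
  have hprod : ‖∏ p ∈ rng j₀ N', (1 + mm D.al p)‖ ≤ ε / 8 := by
    have h1 := D.normSq_prod_le (n := N') hrY i₁
    have h2 := dist_mid D i₁ hNj hYN (hrough i₁) hi₁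
    have h3 : Real.exp (-∑ p ∈ rng j₀ N', (1 - (D.u i₁ p).re) / p) ≤ (ε / 8) ^ 2 := by
      rw [← Real.exp_log (show 0 < (ε / 8) ^ 2 by positivity)]
      apply Real.exp_le_exp.2
      rw [hM] at h2
      linarith
    have h4 := abs_le_of_sq_le_sq (h1.trans h3) (by positivity)
    rwa [abs_of_nonneg (norm_nonneg _)] at h4
  have hy0 : (0 : ℝ) ≤ y := by positivity
  have hmt : ‖(y : ℂ) * (mean Q G * ∏ p ∈ rng j₀ N', (1 + mm D.al p))‖ ≤ (ε / 8) * X := by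
    rw [norm_mul, norm_mul, Complex.norm_natCast]
    calc (y : ℝ) * (‖mean Q G‖ * ‖∏ p ∈ rng j₀ N', (1 + mm D.al p)‖) ≤ X * (1 * (ε / 8)) := by gcongr
      _ = (ε / 8) * X := by ring
  have hfin : ∑ n ∈ range y, D.F n * (starRingEnd ℂ) (D.W n)
      = ∑ m ∈ range y, (D.F m * (starRingEnd ℂ) (D.W m) - G m * H m)
        + (∑ n ∈ range y, G n * H n - (y : ℂ) * (mean Q G * ∏ p ∈ rng j₀ N', (1 + mm D.al p)))
        + (y : ℂ) * (mean Q G * ∏ p ∈ rng j₀ N', (1 + mm D.al p)) := by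
    rw [sum_sub_distrib]; ring
  rw [hfin]
  calc _ ≤ ‖∑ m ∈ range y, (D.F m * (starRingEnd ℂ) (D.W m) - G m * H m)‖
        + ‖∑ n ∈ range y, G n * H n - (y : ℂ) * (mean Q G * ∏ p ∈ rng j₀ N', (1 + mm D.al p))‖
        + ‖(y : ℂ) * (mean Q G * ∏ p ∈ rng j₀ N', (1 + mm D.al p))‖ := norm_add₃_le
    _ ≤ (3 * (ε / 8)) * X + (ε / 8) * X + (ε / 8) * X := by
        gcongr
    _ ≤ ε * X := by nlinarith

end Pool.Agent.H1.LP
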