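import Mathlib
import Pool.Agent.H2.EllFactor
import Pool.Agent.H2.EllBlk
import Pool.Agent.H2.EllPoint

/-!
# MP_0c9a68_nt: correlations with one arbitrary factor, locally pretentious others (proposal 28)

Definitions.  `MB` (1-bounded multiplicative), `tw t n = n^{it}`, `Y j = 2^(2^j)`, `blk j` (primes in
`(Y j, Y (j+1)]`), `rng j n` (primes in `(Y j, Y n]`), `Sys` (systems of multiplicative functions along
linear forms), `hh`, `mm`, `uu`, `FF` come from `Pool/Agent/H2` (namespace `Pool.H2.Ell`).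
-/

set_option autoImplicit false

namespace Pool.Agent.H1.LP

open Finset Pool.H2.Ell

/-- mean over `range N` -/
noncomputable def mean (N : ℕ) (ψ : ℕ → ℂ) : ℂ := (∑ r ∈ range N, ψ r) / N

/-- mean over `range N`, real version -/
noncomputable def rmean (N : ℕ) (ψ : ℕ → ℝ) : ℝ := (∑ r ∈ range N, ψ r) / N

/-- `ψ` is a finite sum of periodic functions with periods dividing `N`, of total weight
(period times sup norm) at most `E` -/
def Rep (N : ℕ) (ψ : ℕ → ℂ) (E : ℝ) : Prop :=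
  ∃ (ι : Type) (_ : Fintype ι) (d : ι → ℕ) (c : ι → ℝ) (u : ι → ℕ → ℂ),
    (∀ j, 0 < d j ∧ d j ∣ N) ∧ (∀ j, Function.Periodic (u j) (d j)) ∧ (∀ j n, ‖u j n‖ ≤ c j) ∧
    (∀ n, ψ n = ∑ j, u j n) ∧ ∑ j, c j * d j ≤ E

open Classical in
/-- local data at the primes of `S`: `φ p` has period `p ^ e`, `‖1 + φ p n‖ ≤ 1`, and `φ p` is nonzero
on at most `m * p ^ (e-1)` classes modulo `p ^ e` -/
structure Loc (e m : ℕ) (S : Finset ℕ) (φ : ℕ → ℕ → ℂ) : Prop where
  prime : ∀ p ∈ S, p.Prime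
  per : ∀ p ∈ S, Function.Periodic (φ p) (p ^ e)
  bd : ∀ p ∈ S, ∀ n, ‖1 + φ p n‖ ≤ 1
  supp : ∀ p ∈ S, (((range (p ^ e)).filter (fun r => φ p r ≠ 0)).card : ℝ) * p ≤ m * (p : ℝ) ^ e

open Classical in
/-- number of primes of `P` that are active at `n` -/
noncomputable def om (P : Finset ℕ) (φ : ℕ → ℕ → ℂ) (n : ℕ) : ℕ :=
  (P.filter (fun p => φ p n ≠ 0)).card

/-- the local product -/
noncomputable def Hp (P : Finset ℕ) (φ : ℕ → ℕ → ℂ) (n : ℕ) : ℂ := ∏ p ∈ P, (1 + φ p n)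

/-- the expansion of the local product, truncated at degree `D` -/
noncomputable def Tp (P : Finset ℕ) (D : ℕ) (φ : ℕ → ℕ → ℂ) (n : ℕ) : ℂ :=
  ∑ S ∈ P.powerset.filter (fun S => S.card ≤ D), ∏ p ∈ S, φ p n

open Classical in
/-- the number of subsets of size `D + 1` of the active primes -/
noncomputable def Bp (P : Finset ℕ) (D : ℕ) (φ : ℕ → ℕ → ℂ) (n : ℕ) : ℝ :=
  ∑ S ∈ P.powersetCard (D + 1), ∏ p ∈ S, (if φ p n ≠ 0 then (1 : ℝ) else 0)

/-- level of `X`: the largest `j` with `Y j ≤ X` (for `X ≥ 2`) -/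
def lev (X : ℕ) : ℕ := Nat.log 2 (Nat.log 2 X)

end Pool.Agent.H1.LP
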