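import Pool.Agent.H1.LP.Main

/-!
# MP_0c9a68_nt, proposal 28: final forms
-/

set_option autoImplicit false

namespace Pool.Agent.H1.LP

open Finset Filter Topology Pool.H2.Ell

/-- the sum over the primes `y < p ≤ x` of `(1 - Re (g(p) conj (χ(p) p^{it}))) / p` -/
noncomputable def distSq (g : ℕ → ℂ) {q : ℕ} (χ : DirichletCharacter ℂ q) (t y x : ℝ) : ℝ :=
  ∑ p ∈ Finset.filter Nat.Prime (Finset.Ioc ⌊y⌋₊ ⌊x⌋₊),
    (1 - (g p * starRingEnd ℂ (χ (p : ZMod q) * (p : ℂ) ^ (Complex.I * (t : ℂ)))).re) / (p : ℝ)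

theorem distSq_eq (g : ℕ → ℂ) {q : ℕ} (χ : DirichletCharacter ℂ q) (t : ℝ) (a b : ℕ) :
    distSq g χ t (a : ℝ) (b : ℝ) = ∑ p ∈ (Ioc a b).filter Nat.Prime, (1 - (uu g χ t p).re) / (p : ℝ) := by
  unfold distSq
  rw [Nat.floor_natCast, Nat.floor_natCast]
  rfl

theorem distSq_eq' (g : ℕ → ℂ) {q : ℕ} (χ : DirichletCharacter ℂ q) (t y : ℝ) (b : ℕ) :
    distSq g χ t y (b : ℝ) = ∑ p ∈ (Ioc ⌊y⌋₊ b).filter Nat.Prime, (1 - (uu g χ t p).re) / (p : ℝ) := by
  unfold distSq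
  rw [Nat.floor_natCast]
  rfl

theorem distSq_mono {g : ℕ → ℂ} (hg : MB g) {q : ℕ} (χ : DirichletCharacter ℂ q) (t : ℝ) {a a' b : ℕ}
    (h : a ≤ a') : ∑ p ∈ (Ioc a' b).filter Nat.Prime, (1 - (uu g χ t p).re) / (p : ℝ)
      ≤ ∑ p ∈ (Ioc a b).filter Nat.Prime, (1 - (uu g χ t p).re) / (p : ℝ) := by
  apply sum_le_sum_of_subset_of_nonneg
  · exact filter_subset_filter _ (Ioc_subset_Ioc_left h)
  · intro p hp _
    rw [mem_filter] at hp
    exact one_sub_re_uu_nonneg hg χ t hp.2.pos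

/-- all indices at once -/
theorem main_all (k : ℕ) (h : Fin k → ℤ) (hinj : Function.Injective h) {ε : ℝ} (hε : 0 < ε) :
    ∃ (α : ℝ) (J₀ : ℕ), 0 < α ∧ ∀ q₀ : ℕ, ∃ (M : ℝ) (X₀ : ℕ), ∀ (i₀ : Fin k) (g : Fin k → ℕ → ℂ)
      (q : Fin k → ℕ) (χ : ∀ i, DirichletCharacter ℂ (q i)) (t : Fin k → ℝ) (X : ℕ), (∀ i, MB (g i)) →
      (∀ i, i ≠ i₀ → 0 < q i ∧ q i ≤ q₀) → X₀ ≤ X → (∀ i, i ≠ i₀ → |t i| ≤ X) →
      (∀ i, i ≠ i₀ → ∑ p ∈ (Ioc (Y (lev X - J₀)) X).filter Nat.Prime,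
        (1 - (uu (g i) (χ i) (t i) p).re) / (p : ℝ) ≤ α) →
      (∃ i, i ≠ i₀ ∧ M ≤ ∑ p ∈ (Ioc 0 X).filter Nat.Prime,
        (1 - (uu (g i) (χ i) (t i) p).re) / (p : ℝ)) →
      ‖∑ n ∈ Icc 1 X, ∏ i, g i ((n : ℤ) + h i).toNat‖ ≤ ε * X := by
  choose αf Jf hαf hf using fun i₀ => main_fin k h hinj i₀ hε
  have hden : 0 < 1 + ∑ i, 1 / αf i := by
    have : 0 ≤ ∑ i, 1 / αf i := sum_nonneg fun i _ => (one_div_pos.2 (hαf i)).le
    linarith
  have hαle : ∀ i, 1 / (1 + ∑ i, 1 / αf i) ≤ αf i := by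
    intro i
    have h1 : 1 / αf i ≤ ∑ i, 1 / αf i :=
      single_le_sum (f := fun i => 1 / αf i) (fun i _ => (one_div_pos.2 (hαf i)).le) (mem_univ i)
    rw [div_le_iff₀ hden]
    have h3 : 1 / αf i ≤ 1 + ∑ i, 1 / αf i := by linarith
    calc (1 : ℝ) = αf i * (1 / αf i) := by rw [mul_one_div, div_self (hαf i).ne']
      _ ≤ αf i * (1 + ∑ i, 1 / αf i) := by
        have := (hαf i).le
        gcongr
  refine ⟨1 / (1 + ∑ i, 1 / αf i), ∑ i, Jf i, one_div_pos.2 hden, fun q₀ => ?_⟩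
  choose Mf Xf hf' using fun i => hf i q₀
  refine ⟨∑ i, |Mf i|, ∑ i, Xf i, ?_⟩
  intro i₀ g q χ t X hMB hq hX ht hrough hdist
  have hXle : Xf i₀ ≤ ∑ i, Xf i := single_le_sum (f := Xf) (fun _ _ => Nat.zero_le _) (mem_univ i₀)
  have hJle : Jf i₀ ≤ ∑ i, Jf i := single_le_sum (f := Jf) (fun _ _ => Nat.zero_le _) (mem_univ i₀)
  have hMle : Mf i₀ ≤ ∑ i, |Mf i| :=
    (le_abs_self _).trans (single_le_sum (f := fun i => |Mf i|) (fun _ _ => abs_nonneg _) (mem_univ i₀))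
  refine hf' i₀ g q χ t X hMB hq (hXle.trans hX) ht ?_ ?_
  · intro i hi
    refine le_trans ?_ ((hrough i hi).trans (hαle i₀))
    exact distSq_mono (hMB i) (χ i) (t i) (Y_mono (by omega))
  · obtain ⟨i, hi, hi2⟩ := hdist
    exact ⟨i, hi, hMle.trans hi2⟩

/-- the scale `X ^ α` -/
theorem floor_rpow_le {X J : ℕ} (hX : 2 ≤ X) {α : ℝ} (hα : α ≤ 1 / 2 ^ (J + 1)) (hJ : J ≤ lev X) :
    ⌊(X : ℝ) ^ α⌋₊ ≤ Y (lev X - J) := by
  have h1 := (lev_spec hX).2
  have h2 : Y (lev X + 1) = Y (lev X - J) ^ (2 ^ (J + 1)) := by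
    unfold Y
    rw [← pow_mul, ← pow_add]
    congr 2
    omega
  rw [h2] at h1
  have hXr : (1 : ℝ) ≤ X := by exact_mod_cast (show 1 ≤ X by omega)
  have h3 : (X : ℝ) ^ α ≤ Y (lev X - J) := by
    calc (X : ℝ) ^ α ≤ (X : ℝ) ^ (1 / 2 ^ (J + 1) : ℝ) := Real.rpow_le_rpow_of_exponent_le hXr hα
      _ ≤ ((Y (lev X - J) : ℝ) ^ (2 ^ (J + 1) : ℕ)) ^ (1 / 2 ^ (J + 1) : ℝ) := by
        apply Real.rpow_le_rpow (by positivity) _ (by positivity)
        exact_mod_cast h1.le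
      _ = Y (lev X - J) := by
        rw [← Real.rpow_natCast, ← Real.rpow_mul (by positivity)]
        push_cast
        rw [mul_one_div_cancel (by positivity), Real.rpow_one]
  have h4 := Nat.floor_le_floor h3
  rwa [Nat.floor_natCast] at h4

/-- single scale theorem -/
theorem partA (k : ℕ) (h : Fin k → ℤ) (hinj : Function.Injective h) {ε : ℝ} (hε : 0 < ε) :
    ∃ α : ℝ, 0 < α ∧ ∀ Q : ℕ, ∃ (D : ℝ) (X₀ : ℕ), ∀ X : ℕ, X₀ ≤ X →
      ∀ (g : Fin k → ArithmeticFunction ℂ), (∀ i, (g i).IsMultiplicative) → (∀ i n, ‖g i n‖ ≤ 1) →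
      ∀ (i₀ : Fin k) (q : Fin k → ℕ) (χ : ∀ i, DirichletCharacter ℂ (q i)) (t : Fin k → ℝ),
      (∀ i, i ≠ i₀ → 0 < q i ∧ q i ≤ Q ∧ |t i| ≤ X ∧
        distSq (fun n => g i n) (χ i) (t i) ((X : ℝ) ^ α) X ≤ α) →
      (∃ j, j ≠ i₀ ∧ D ≤ distSq (fun n => g j n) (χ j) (t j) 0 X) →
      ‖(1 / (X : ℂ)) * ∑ n ∈ Finset.Icc 1 X, ∏ i, g i ((n : ℤ) + h i).toNat‖ ≤ ε := by
  obtain ⟨α, J₀, hα, hmain⟩ := main_all k h hinj hε
  refine ⟨min α (1 / 2 ^ (J₀ + 1)), lt_min hα (by positivity), fun Q => ?_⟩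
  obtain ⟨M, X₀, hX₀⟩ := hmain Q
  refine ⟨M, max X₀ (Y J₀), ?_⟩
  intro X hX g hmul hbd i₀ q χ t hyp hdist
  have hX1 : X₀ ≤ X := (le_max_left _ _).trans hX
  have hX2 : Y J₀ ≤ X := (le_max_right _ _).trans hX
  have h2X : 2 ≤ X := (two_le_Y _).trans hX2
  have hXr : (0 : ℝ) < X := by exact_mod_cast (show 0 < X by omega)
  have hMB : ∀ i, MB (fun n => g i n) := fun i => MB_of (hmul i) (hbd i)
  have h1 := hX₀ i₀ (fun i n => g i n) q χ t X hMB (fun i hi => ⟨(hyp i hi).1, (hyp i hi).2.1⟩) hX1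
    (fun i hi => (hyp i hi).2.2.1)
    (by
      intro i hi
      have h2 := (hyp i hi).2.2.2
      rw [distSq_eq'] at h2
      refine le_trans ?_ (h2.trans (min_le_left _ _))
      exact distSq_mono (hMB i) (χ i) (t i) (floor_rpow_le h2X (min_le_right _ _) (le_lev hX2)))
    (by
      obtain ⟨j, hj, hj2⟩ := hdist
      refine ⟨j, hj, ?_⟩
      rw [distSq_eq', Nat.floor_zero] at hj2
      exact hj2)
  rw [norm_mul, norm_div, norm_one, Complex.norm_natCast, one_div, inv_mul_eq_div, div_le_iff₀ hXr]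
  exact h1

/-- fixed functions of small roughness -/
theorem partB (k : ℕ) (h : Fin k → ℤ) (hinj : Function.Injective h) {ε : ℝ} (hε : 0 < ε) :
    ∃ δ : ℝ, 0 < δ ∧ ∀ (g : Fin k → ArithmeticFunction ℂ), (∀ i, (g i).IsMultiplicative) →
      (∀ i n, ‖g i n‖ ≤ 1) → ∀ (i₀ : Fin k) (q : Fin k → ℕ) (χ : ∀ i, DirichletCharacter ℂ (q i))
      (t : Fin k → ℝ),
      (∀ i, i ≠ i₀ → 0 < q i ∧
        ∀ᶠ x : ℕ in atTop, distSq (fun n => g i n) (χ i) (t i) x ((x : ℝ) ^ 2) ≤ δ) →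
      (∃ j, j ≠ i₀ ∧ Tendsto (fun x : ℕ => distSq (fun n => g j n) (χ j) (t j) 0 x) atTop atTop) →
      ∀ᶠ X : ℕ in atTop, ∀ f : ArithmeticFunction ℂ, f.IsMultiplicative → (∀ n, ‖f n‖ ≤ 1) →
      ‖(1 / (X : ℂ)) * ∑ n ∈ Finset.Icc 1 X, ∏ i, Function.update g i₀ f i ((n : ℤ) + h i).toNat‖ ≤ ε := by
  obtain ⟨α, J₀, hα, hmain⟩ := main_all k h hinj hε
  refine ⟨α / (J₀ + 1), by positivity, ?_⟩
  intro g hmul hbd i₀ q χ t hyp hdist
  obtain ⟨M, X₀, hX₀⟩ := hmain (∑ i, q i)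
  obtain ⟨j, hj, hjdist⟩ := hdist
  have hMB : ∀ i, MB (fun n => g i n) := fun i => MB_of (hmul i) (hbd i)
  -- roughness from the level `j₁` on
  have hall : ∀ᶠ x : ℕ in atTop, ∀ i, i ≠ i₀ →
      distSq (fun n => g i n) (χ i) (t i) x ((x : ℝ) ^ 2) ≤ α / (J₀ + 1) := by
    rw [eventually_all]
    intro i
    by_cases hi : i = i₀
    · exact Eventually.of_forall fun x h => absurd hi h
    · filter_upwards [(hyp i hi).2] with x hx _
      exact hx
  obtain ⟨x₁, hx₁⟩ := eventually_atTop.1 hall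
  obtain ⟨x₂, hx₂⟩ := eventually_atTop.1 (hjdist.eventually_ge_atTop M)
  obtain ⟨x₃, hx₃⟩ := exists_nat_ge (∑ i, |t i|)
  rw [eventually_atTop]
  refine ⟨max (max X₀ (Y (J₀ + x₁))) (max x₂ x₃), fun X hX f hfm hfb => ?_⟩
  have hX1 : X₀ ≤ X := le_trans (le_trans (le_max_left _ _) (le_max_left _ _)) hX
  have hX2 : Y (J₀ + x₁) ≤ X := le_trans (le_trans (le_max_right _ _) (le_max_left _ _)) hX
  have hX3 : x₂ ≤ X := le_trans (le_trans (le_max_left _ _) (le_max_right _ _)) hX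
  have hX4 : x₃ ≤ X := le_trans (le_trans (le_max_right _ _) (le_max_right _ _)) hX
  have h2X : 2 ≤ X := (two_le_Y _).trans hX2
  have hXr : (0 : ℝ) < X := by exact_mod_cast (show 0 < X by omega)
  have hlevX := le_lev hX2
  have hupd : ∀ i, i ≠ i₀ → Function.update g i₀ f i = g i := fun i hi => Function.update_of_ne hi f g
  have hMB' : ∀ i, MB (fun n => Function.update g i₀ f i n) := by
    intro i
    by_cases hi : i = i₀
    · subst hi
      rw [Function.update_self]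
      exact MB_of hfm hfb
    · rw [hupd i hi]
      exact hMB i
  have h1 := hX₀ i₀ (fun i n => Function.update g i₀ f i n) q χ t X hMB'
    (fun i hi => ⟨(hyp i hi).1, single_le_sum (f := q) (fun _ _ => Nat.zero_le _) (mem_univ i)⟩) hX1
    (by
      intro i _
      have h2 : |t i| ≤ ∑ i, |t i| := single_le_sum (f := fun i => |t i|) (fun _ _ => abs_nonneg _) (mem_univ i)
      have h3 : (x₃ : ℝ) ≤ X := by exact_mod_cast hX4
      linarith)
    (by
      intro i hi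
      simp only [hupd i hi]
      have hblk : ∀ j₁ ∈ Ico (lev X - J₀) (lev X + 1),
          ∑ p ∈ blk j₁, (1 - (uu (fun n => g i n) (χ i) (t i) p).re) / (p : ℝ) ≤ α / (J₀ + 1) := by
        intro j₁ hj₁
        rw [mem_Ico] at hj₁
        have h3 := hx₁ (Y j₁) (by have := lt_Y j₁; omega) i hi
        have h4 : ((Y j₁ : ℕ) : ℝ) ^ 2 = ((Y (j₁ + 1) : ℕ) : ℝ) := by
          rw [Y_succ]; push_cast; rfl
        rw [h4, distSq_eq] at h3
        exact h3
      have h5 : ∑ p ∈ (Ioc (Y (lev X - J₀)) X).filter Nat.Prime,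
          (1 - (uu (fun n => g i n) (χ i) (t i) p).re) / (p : ℝ)
          ≤ ∑ p ∈ rng (lev X - J₀) (lev X + 1), (1 - (uu (fun n => g i n) (χ i) (t i) p).re) / (p : ℝ) := by
        apply sum_le_sum_of_subset_of_nonneg
        · intro p hp
          rw [mem_filter, mem_Ioc] at hp
          rw [mem_rng]
          exact ⟨⟨hp.1.1, hp.1.2.trans (lev_spec h2X).2.le⟩, hp.2⟩
        · intro p hp _
          rw [mem_rng] at hp
          exact one_sub_re_uu_nonneg (hMB i) _ _ hp.2.pos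
      refine h5.trans ?_
      rw [sum_rng]
      refine (sum_le_sum hblk).trans ?_
      rw [sum_const, Nat.card_Ico, nsmul_eq_mul, show lev X + 1 - (lev X - J₀) = J₀ + 1 by omega]
      push_cast
      rw [mul_div_cancel₀]
      positivity)
    (by
      refine ⟨j, hj, ?_⟩
      simp only [hupd j hj]
      have h3 := hx₂ X hX3
      rw [distSq_eq', Nat.floor_zero] at h3
      exact h3)
  rw [norm_mul, norm_div, norm_one, Complex.norm_natCast, one_div, inv_mul_eq_div, div_le_iff₀ hXr]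
  exact h1

/-- the part of `n` composed of the primes up to `y` -/
def smoothPart (y n : ℕ) : ℕ := ∏ p ∈ n.primeFactors.filter (fun p => p ≤ y), p ^ n.factorization p

theorem smoothPart_eq (y n : ℕ) : smoothPart y n = sm y n := (sm_eq y n).symm

theorem smoothPart_mul (y : ℕ) {m n : ℕ} (hm : m ≠ 0) (hn : n ≠ 0) :
    smoothPart y (m * n) = smoothPart y m * smoothPart y n := by
  rw [smoothPart_eq, smoothPart_eq, smoothPart_eq]
  unfold sm
  rw [← prod_mul_distrib]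
  apply prod_congr rfl
  intro p _
  rw [Nat.factorization_mul hm hn, Finsupp.add_apply, pow_add]

theorem smoothPart_dvd (y : ℕ) {n : ℕ} (hn : n ≠ 0) : smoothPart y n ∣ n := by
  unfold smoothPart
  conv_rhs => rw [← Nat.prod_factorization_pow_eq_self hn]
  rw [Finsupp.prod, Nat.support_factorization]
  exact prod_dvd_prod_of_subset _ _ _ (filter_subset _ _)

theorem smoothPart_prime_le {y p : ℕ} (hp : p.Prime) (h : p ≤ y) : smoothPart y p = p := by
  unfold smoothPart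
  rw [hp.primeFactors, filter_singleton, if_pos h, prod_singleton, hp.factorization_self, pow_one]

theorem smoothPart_prime_gt {y p : ℕ} (hp : p.Prime) (h : y < p) : smoothPart y p = 1 := by
  unfold smoothPart
  rw [hp.primeFactors, filter_singleton, if_neg (by omega), prod_empty]

/-- the truncation of `g` to the primes up to `y`: `n ↦ g (smoothPart y n)` -/
noncomputable def trunc (g : ArithmeticFunction ℂ) (y : ℕ) : ArithmeticFunction ℂ :=
  ⟨fun n => if n = 0 then 0 else g (smoothPart y n), by simp⟩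

theorem trunc_apply (g : ArithmeticFunction ℂ) (y : ℕ) {n : ℕ} (hn : n ≠ 0) :
    trunc g y n = g (smoothPart y n) := by
  show (if n = 0 then 0 else g (smoothPart y n)) = _
  rw [if_neg hn]

theorem trunc_mult {g : ArithmeticFunction ℂ} (hg : g.IsMultiplicative) (y : ℕ) :
    (trunc g y).IsMultiplicative := by
  constructor
  · rw [trunc_apply _ _ one_ne_zero]
    have : smoothPart y 1 = 1 := by simp [smoothPart]
    rw [this, hg.map_one]
  · intro m n hmn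
    rcases Nat.eq_zero_or_pos m with h0 | hm
    · subst h0; simp
    rcases Nat.eq_zero_or_pos n with h0 | hn
    · subst h0; simp
    rw [trunc_apply _ _ (Nat.mul_ne_zero hm.ne' hn.ne'), trunc_apply _ _ hm.ne', trunc_apply _ _ hn.ne',
      smoothPart_mul y hm.ne' hn.ne', hg.map_mul_of_coprime]
    exact Nat.Coprime.coprime_dvd_left (smoothPart_dvd y hm.ne')
      (Nat.Coprime.coprime_dvd_right (smoothPart_dvd y hn.ne') hmn)

theorem trunc_bdd {g : ArithmeticFunction ℂ} (hg : ∀ n, ‖g n‖ ≤ 1) (y n : ℕ) : ‖trunc g y n‖ ≤ 1 := by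
  show ‖(if n = 0 then 0 else g (smoothPart y n))‖ ≤ 1
  split_ifs
  · simp
  · exact hg _

theorem uu_one (g : ℕ → ℂ) (p : ℕ) : uu g (1 : DirichletCharacter ℂ 1) 0 p = g p := by
  unfold uu tw
  have h1 : (1 : DirichletCharacter ℂ 1) (p : ZMod 1) = 1 := by
    rw [Subsingleton.elim (p : ZMod 1) 1, map_one]
  rw [h1]
  simp

theorem uu_trunc_le (g : ArithmeticFunction ℂ) {y p : ℕ} (hp : p.Prime) (h : p ≤ y) :
    uu (fun n => trunc g y n) (1 : DirichletCharacter ℂ 1) 0 p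
      = uu (fun n => g n) (1 : DirichletCharacter ℂ 1) 0 p := by
  rw [uu_one, uu_one, trunc_apply _ _ hp.ne_zero, smoothPart_prime_le hp h]

theorem uu_trunc_gt {g : ArithmeticFunction ℂ} (hg : g.IsMultiplicative) {y p : ℕ} (hp : p.Prime)
    (h : y < p) : uu (fun n => trunc g y n) (1 : DirichletCharacter ℂ 1) 0 p = 1 := by
  rw [uu_one, trunc_apply _ _ hp.ne_zero, smoothPart_prime_gt hp h, hg.map_one]

/-- truncated functions -/
theorem partC (k : ℕ) (h : Fin k → ℤ) (hinj : Function.Injective h) {ε : ℝ} (hε : 0 < ε) :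
    ∃ α : ℝ, 0 < α ∧ ∃ (D : ℝ) (X₀ : ℕ), ∀ X : ℕ, X₀ ≤ X →
      ∀ (g : Fin k → ArithmeticFunction ℂ), (∀ i, (g i).IsMultiplicative) → (∀ i n, ‖g i n‖ ≤ 1) →
      ∀ (i₀ : Fin k) (f : ArithmeticFunction ℂ), f.IsMultiplicative → (∀ n, ‖f n‖ ≤ 1) →
      (∃ j, j ≠ i₀ ∧ D ≤ distSq (fun n => g j n) (1 : DirichletCharacter ℂ 1) 0 0 ((X : ℝ) ^ α)) →
      ‖(1 / (X : ℂ)) * ∑ n ∈ Finset.Icc 1 X,
        ∏ i, Function.update (fun i => trunc (g i) ⌊(X : ℝ) ^ α⌋₊) i₀ f i ((n : ℤ) + h i).toNat‖ ≤ ε := by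
  obtain ⟨α₀, hα₀, hA⟩ := partA k h hinj hε
  obtain ⟨D, X₀, hX₀⟩ := hA 1
  refine ⟨min α₀ 1, lt_min hα₀ one_pos, D, max X₀ 1, ?_⟩
  intro X hX g hmul hbd i₀ f hf hfb hdist
  have hX1 : X₀ ≤ X := (le_max_left _ _).trans hX
  have hX2 : 1 ≤ X := (le_max_right _ _).trans hX
  have hXr : (1 : ℝ) ≤ X := by exact_mod_cast hX2
  set y : ℕ := ⌊(X : ℝ) ^ (min α₀ 1)⌋₊ with hy
  have hy1 : y ≤ ⌊(X : ℝ) ^ α₀⌋₊ :=
    Nat.floor_le_floor (Real.rpow_le_rpow_of_exponent_le hXr (min_le_left _ _))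
  have hy2 : y ≤ X := by
    have h1 : (X : ℝ) ^ (min α₀ 1) ≤ X := by
      calc (X : ℝ) ^ (min α₀ 1) ≤ (X : ℝ) ^ (1 : ℝ) := Real.rpow_le_rpow_of_exponent_le hXr (min_le_right _ _)
        _ = X := Real.rpow_one _
    have h2 := Nat.floor_le_floor h1
    rwa [Nat.floor_natCast] at h2
  set G : Fin k → ArithmeticFunction ℂ := Function.update (fun i => trunc (g i) y) i₀ f with hG
  have hGi : ∀ i, i ≠ i₀ → G i = trunc (g i) y := fun i hi => Function.update_of_ne hi _ _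
  have hGm : ∀ i, (G i).IsMultiplicative := by
    intro i
    by_cases hi : i = i₀
    · subst hi; rw [hG, Function.update_self]; exact hf
    · rw [hGi i hi]; exact trunc_mult (hmul i) y
  have hGb : ∀ i n, ‖G i n‖ ≤ 1 := by
    intro i
    by_cases hi : i = i₀
    · subst hi; rw [hG, Function.update_self]; exact hfb
    · rw [hGi i hi]; exact trunc_bdd (hbd i) y
  refine hX₀ X hX1 G hGm hGb i₀ (fun _ => 1) (fun _ => 1) (fun _ => 0) ?_ ?_
  · intro i hi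
    refine ⟨one_pos, le_rfl, by simp, ?_⟩
    rw [distSq_eq', sum_eq_zero]
    · exact hα₀.le
    · intro p hp
      rw [mem_filter, mem_Ioc] at hp
      rw [hGi i hi, uu_trunc_gt (hmul i) hp.2 (lt_of_le_of_lt hy1 hp.1.1)]
      simp
  · obtain ⟨j, hj, hj2⟩ := hdist
    refine ⟨j, hj, hj2.trans ?_⟩
    rw [distSq_eq', Nat.floor_zero]
    have e1 : distSq (fun n => g j n) (1 : DirichletCharacter ℂ 1) 0 0 ((X : ℝ) ^ (min α₀ 1))
        = ∑ p ∈ (Ioc 0 y).filter Nat.Prime,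
          (1 - (uu (fun n => g j n) (1 : DirichletCharacter ℂ 1) 0 p).re) / (p : ℝ) := by
      unfold distSq
      rw [Nat.floor_zero]
      rfl
    rw [e1, hGi j hj]
    calc _ = ∑ p ∈ (Ioc 0 y).filter Nat.Prime,
          (1 - (uu (fun n => trunc (g j) y n) (1 : DirichletCharacter ℂ 1) 0 p).re) / (p : ℝ) := by
          apply sum_congr rfl
          intro p hp
          rw [mem_filter, mem_Ioc] at hp
          rw [uu_trunc_le (g j) hp.2 hp.1.2]
      _ ≤ _ := by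
          apply sum_le_sum_of_subset_of_nonneg
          · exact filter_subset_filter _ (Ioc_subset_Ioc_right hy2)
          · intro p hp _
            rw [mem_filter] at hp
            exact one_sub_re_uu_nonneg (MB_of (trunc_mult (hmul j) y) (trunc_bdd (hbd j) y)) _ _ hp.2.pos

end Pool.Agent.H1.LP
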