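import Pool.Agent.H1.LP.Defs
import Pool.Agent.H2.EllKatai

/-!
# [H1 LP KAT]  Katai's criterion at a single scale (finitary version of `Pool.H2.Ell.katai`)

Take `S` from `exists_primes P₀ (max 1 (37/ε^2))` and `δ = H/(2 s^2)`-like as in the proof of `Pool.H2.Ell.katai`; for given
`x`, `F` put `F' n = if n < x then F n else 0`.  `∑_{n<x} g n F n = ∑_{n<x} g n F' n`, and apply `katai_decomp`, `bilinear` to
`F'`: for `N ≤ x`, `∑_{m<N} F'(p m) conj (F' (q m)) = ∑_{m < min N (min (xp x p) (xp x q))} F (p m) conj (F (q m))`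
(`lt_xp_iff`), whose norm is at most `δ x`.  The rest is the end of the proof of `katai` (replace `δ x + C` by `δ x`).
-/

set_option autoImplicit false

namespace Pool.Agent.H1.LP

open Finset Pool.H2.Ell

theorem kat_trunc (F : ℕ → ℂ) (x p q N : ℕ) (hp : 0 < p) (hq : 0 < q) :
    ∑ m ∈ range N, (if p * m < x then F (p * m) else 0) *
      (starRingEnd ℂ) (if q * m < x then F (q * m) else 0) =
    ∑ m ∈ range (min N (min (xp x p) (xp x q))), F (p * m) * (starRingEnd ℂ) (F (q * m)) := by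
  have h3 : range (min N (min (xp x p) (xp x q))) =
      (range N).filter (fun m => p * m < x ∧ q * m < x) := by
    ext m
    simp only [mem_range, mem_filter, lt_min_iff]
    rw [lt_xp_iff x p m hp, lt_xp_iff x q m hq]
  rw [h3, sum_filter]
  apply sum_congr rfl
  intro m _
  by_cases h4 : p * m < x
  · by_cases h5 : q * m < x
    · rw [if_pos h4, if_pos h5, if_pos ⟨h4, h5⟩]
    · have h6 : ¬ (p * m < x ∧ q * m < x) := fun h => h5 h.2
      rw [if_neg h5, if_neg h6]; simp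
  · have h6 : ¬ (p * m < x ∧ q * m < x) := fun h => h4 h.1
    rw [if_neg h4, if_neg h6]; simp

theorem katai_fin {ε : ℝ} (hε : 0 < ε) (P₀ : ℕ) : ∃ (S : Finset ℕ) (δ : ℝ) (x₀ : ℕ),
    (∀ p ∈ S, p.Prime ∧ P₀ < p) ∧ 0 < δ ∧ ∀ x ≥ x₀, ∀ F g : ℕ → ℂ, (∀ n, ‖F n‖ ≤ 1) → MB g →
    (∀ p ∈ S, ∀ q ∈ S, p ≠ q → ∀ N ≤ xp x p, N ≤ xp x q →
      ‖∑ m ∈ range N, F (p * m) * (starRingEnd ℂ) (F (q * m))‖ ≤ δ * x) →
    ‖∑ n ∈ range x, g n * F n‖ ≤ ε * x := by
  classical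
  obtain ⟨S, hSP, hSH⟩ := exists_primes P₀ (max 1 (37 / ε ^ 2))
  have hS : ∀ p ∈ S, p.Prime := fun p hp => (hSP p hp).1
  set H : ℝ := ∑ p ∈ S, (1 : ℝ) / p with hH
  have hH1 : 1 ≤ H := (le_max_left _ _).trans hSH
  have hH2 : 37 / ε ^ 2 ≤ H := (le_max_right _ _).trans hSH
  set s : ℝ := (S.card : ℝ) with hs
  have hs1 : 1 ≤ s := by
    have : S.Nonempty := by
      rw [nonempty_iff_ne_empty]
      intro h0
      rw [hH, h0] at hH1
      simp at hH1
      linarith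
    rw [hs]
    exact_mod_cast this.card_pos
  set δ : ℝ := H / s ^ 2 with hδ
  have hδ0 : 0 < δ := by rw [hδ]; positivity
  obtain ⟨x₀, hx₀⟩ := exists_nat_ge ((4 * s ^ 2 + s) + 32 * s ^ 2)
  refine ⟨S, δ, max x₀ 1, hSP, hδ0, fun x hx F₀ g hF₀ hg hcond => ?_⟩
  have hx1 : 1 ≤ x := le_trans (le_max_right _ _) hx
  have hxr : (1 : ℝ) ≤ x := by exact_mod_cast hx1
  have hxx : (4 * s ^ 2 + s) + 32 * s ^ 2 ≤ x := by
    refine hx₀.trans ?_
    exact_mod_cast le_trans (le_max_left _ _) hx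
  obtain ⟨F, hFdef⟩ : ∃ F : ℕ → ℂ, ∀ n, F n = if n < x then F₀ n else 0 :=
    ⟨fun n => if n < x then F₀ n else 0, fun n => rfl⟩
  have hF : ∀ n, ‖F n‖ ≤ 1 := by
    intro n
    rw [hFdef]
    split_ifs
    · exact hF₀ n
    · rw [norm_zero]; exact zero_le_one
  have hsumF : ∑ n ∈ range x, g n * F₀ n = ∑ n ∈ range x, g n * F n := by
    apply sum_congr rfl
    intro n hn
    rw [hFdef, if_pos (mem_range.1 hn)]
  have hbil : ∀ p ∈ S, ∀ q ∈ S, p ≠ q → ∀ N ≤ x,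
      ‖∑ m ∈ range N, F (p * m) * (starRingEnd ℂ) (F (q * m))‖ ≤ δ * x := by
    intro p hp q hq hne N _
    have h1 : ∑ m ∈ range N, F (p * m) * (starRingEnd ℂ) (F (q * m)) =
        ∑ m ∈ range (min N (min (xp x p) (xp x q))),
          F₀ (p * m) * (starRingEnd ℂ) (F₀ (q * m)) := by
      rw [← kat_trunc F₀ x p q N (hS p hp).pos (hS q hq).pos]
      apply sum_congr rfl
      intro m _
      rw [hFdef, hFdef]
    rw [h1]
    exact hcond p hp q hq hne _ ((min_le_right _ _).trans (min_le_left _ _))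
      ((min_le_right _ _).trans (min_le_right _ _))
  rw [hsumF]
  have hdec := katai_decomp F g hF hg S hS x
  set Z : ℝ := ‖∑ n ∈ range x, g n * F n‖ with hZ
  have hZ0 : 0 ≤ Z := norm_nonneg _
  set a : ℝ := ∑ n ∈ range x, |∑ p ∈ S, ((if p ∣ n then (1 : ℝ) else 0) - 1 / p)| with ha
  set b : ℝ := ∑ p ∈ S, 2 * (xp (xp x p) p : ℝ) with hb
  set c : ℝ := ∑ m ∈ range x, ‖∑ p ∈ S, g p * (if p * m < x then F (p * m) else 0)‖ with hc
  have ha2 : a ^ 2 ≤ x * (x * H + 4 * s ^ 2) := by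
    refine (sq_sum_le x _).trans ?_
    have := turan_kubilius S hS x
    simp only [sq_abs]
    gcongr
  have hb0 : 0 ≤ b := sum_nonneg fun p _ => by positivity
  have hb2 : b ≤ 2 * x + 4 * s := by
    have h1 : ∀ p ∈ S, 2 * (xp (xp x p) p : ℝ) ≤ 2 * x * (1 / p ^ 2) + 4 := by
      intro p hp
      have hp0 := (hS p hp).pos
      have hp1 : (1 : ℝ) ≤ p := by exact_mod_cast hp0
      have hpp : (0 : ℝ) < p := by linarith
      have e1 := (abs_le.1 (abs_xp (xp x p) p hp0)).2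
      have e2 := (abs_le.1 (abs_xp x p hp0)).2
      have e3 : ((xp x p : ℕ) : ℝ) / p ≤ (x / p + 1) / p := by
        gcongr; linarith
      have e4 : ((x : ℝ) / p + 1) / p = x * (1 / p ^ 2) + 1 / p := by field_simp
      have e5 : 1 / (p : ℝ) ≤ 1 := by rw [div_le_one hpp]; exact hp1
      linarith
    calc b ≤ ∑ p ∈ S, (2 * x * (1 / (p : ℝ) ^ 2) + 4) := sum_le_sum h1
      _ = 2 * x * ∑ p ∈ S, (1 : ℝ) / p ^ 2 + 4 * s := by
          rw [sum_add_distrib, mul_sum, sum_const, nsmul_eq_mul]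
          ring
      _ ≤ 2 * x * 1 + 4 * s := by
          gcongr
          exact sum_inv_sq_primes S hS
      _ = _ := by ring
  have hc2 : c ^ 2 ≤ x * (x * H + s + s ^ 2 * (δ * x)) := by
    refine (sq_sum_le x _).trans ?_
    have := bilinear F g hF hg S hS x (δ * x) (by positivity) hbil
    gcongr
  have hδs : s ^ 2 * δ = H := by
    rw [hδ]; field_simp
  have hmain : (H * Z) ^ 2 ≤ 36 * H * x ^ 2 := by
    have h1 : (H * Z) ^ 2 ≤ (a + b + c) ^ 2 := by
      apply pow_le_pow_left₀ (by positivity) hdec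
    have h2 : (a + b + c) ^ 2 ≤ 3 * (a ^ 2 + b ^ 2 + c ^ 2) := by
      nlinarith [sq_nonneg (a - b), sq_nonneg (b - c), sq_nonneg (a - c)]
    have h3 : b ^ 2 ≤ 8 * x ^ 2 + 32 * s ^ 2 := by
      calc b ^ 2 ≤ (2 * x + 4 * s) ^ 2 := pow_le_pow_left₀ hb0 hb2 2
        _ ≤ _ := by nlinarith [sq_nonneg (2 * (x : ℝ) - 4 * s)]
    have h4 : (x : ℝ) * (x * H + s + s ^ 2 * (δ * x)) = 2 * H * x ^ 2 + x * s := by
      calc (x : ℝ) * (x * H + s + s ^ 2 * (δ * x))
          = x * x * H + x * x * (s ^ 2 * δ) + x * s := by ring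
        _ = _ := by rw [hδs]; ring
    rw [h4] at hc2
    have h5 : x * (4 * s ^ 2 + s) + 32 * s ^ 2 ≤ (x : ℝ) ^ 2 := by
      have : 32 * s ^ 2 ≤ x * (32 * s ^ 2) := le_mul_of_one_le_left (by positivity) hxr
      calc _ ≤ x * (4 * s ^ 2 + s) + x * (32 * s ^ 2) := by linarith
        _ = x * ((4 * s ^ 2 + s) + 32 * s ^ 2) := by ring
        _ ≤ x * x := by gcongr
        _ = _ := by ring
    have h6 : (x : ℝ) ^ 2 ≤ H * x ^ 2 := le_mul_of_one_le_left (by positivity) hH1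
    nlinarith
  have hZx : Z < ε * x := by
    have h1 : Z ^ 2 * H ≤ 36 * x ^ 2 := by
      have h2 : H * (Z ^ 2 * H) ≤ H * (36 * x ^ 2) := by
        calc H * (Z ^ 2 * H) = (H * Z) ^ 2 := by ring
          _ ≤ 36 * H * x ^ 2 := hmain
          _ = _ := by ring
      exact le_of_mul_le_mul_left h2 (by linarith)
    have h3 : 37 ≤ H * ε ^ 2 := by
      rwa [div_le_iff₀ (by positivity)] at hH2
    have hx2 : 0 < (x : ℝ) ^ 2 := by positivity
    have h4 : Z ^ 2 * 37 ≤ 36 * (ε ^ 2 * x ^ 2) := by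
      calc Z ^ 2 * 37 ≤ Z ^ 2 * (H * ε ^ 2) := by gcongr
        _ = (Z ^ 2 * H) * ε ^ 2 := by ring
        _ ≤ (36 * x ^ 2) * ε ^ 2 := by gcongr
        _ = _ := by ring
    have h5 : Z ^ 2 < (ε * x) ^ 2 := by
      have : 0 < ε ^ 2 * (x : ℝ) ^ 2 := by positivity
      nlinarith
    exact lt_of_pow_lt_pow_left₀ 2 (by positivity) h5
  exact hZx.le

end Pool.Agent.H1.LP
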