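import Pool.Agent.H1.LP.Pair
import Pool.Agent.H1.LP.Kat
import Pool.Agent.H2.EllMainB

/-!
# [H1 LP MAIN]  the theorem for a given index `i₀`

Follow `Pool.H2.Ell.mainB` (`Pool/Agent/H2/EllMainB.lean`): `h' i = h i - h i₀` on `J = {i // i ≠ i₀}`, `m₀ = ∑ |h' i| + 1`.
`(S, δ, x₀)` from `katai_fin (ε/2) m₀`; for each pair `P ≠ Q` of `S` the constants of `pair_fin h' ... q₀ P Q δ`; `α` the minimum,
`M, J₀, X₀` the maxima over the finitely many pairs (the hypotheses are monotone: a smaller `α`, larger `M`, `J₀` (`Y (lev X - J₀)`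
is antitone in `J₀`, the terms of the sum are nonnegative as `‖uu‖ ≤ 1` at the primes)).  Then
`‖∑_{n<X} g_{i₀}(n) FF (n)‖ ≤ (ε/2) X`, and the sum over `Icc 1 X` of `∏ g_i (n + h_i)` is, after the shift by `h i₀`, the same
up to `2 |h i₀| + 2` terms of norm at most one.
-/

set_option autoImplicit false

namespace Pool.Agent.H1.LP

open Finset Pool.H2.Ell

theorem sum_range_sub_le (f : ℕ → ℂ) (hf : ∀ n, ‖f n‖ ≤ 1) {a b c : ℕ} (h1 : a ≤ b + c) (h2 : b ≤ a + c) :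
    ‖∑ n ∈ range a, f n - ∑ n ∈ range b, f n‖ ≤ c := by
  wlog hab : b ≤ a generalizing a b
  · rw [norm_sub_rev]
    exact this h2 h1 (by omega)
  · obtain ⟨d, rfl⟩ := Nat.exists_eq_add_of_le hab
    rw [sum_range_add, add_sub_cancel_left]
    refine (norm_sum_range_le (fun n => f (b + n)) (fun _ => hf _) d).trans ?_
    exact_mod_cast (show d ≤ c by omega)

theorem one_sub_re_uu_nonneg {f : ℕ → ℂ} (hf : MB f) {q : ℕ} (χ : DirichletCharacter ℂ q) (t : ℝ) {p : ℕ}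
    (hp : 0 < p) : 0 ≤ (1 - (uu f χ t p).re) / (p : ℝ) := by
  have h1 := norm_uu_le hf.bdd χ t hp
  have h2 := Complex.re_le_norm (uu f χ t p)
  apply div_nonneg
  · linarith
  · positivity

theorem main_fin (k : ℕ) (h : Fin k → ℤ) (hinj : Function.Injective h) (i₀ : Fin k) {ε : ℝ}
    (hε : 0 < ε) :
    ∃ (α : ℝ) (J₀ : ℕ), 0 < α ∧ ∀ q₀ : ℕ, ∃ (M : ℝ) (X₀ : ℕ), ∀ (g : Fin k → ℕ → ℂ) (q : Fin k → ℕ)
      (χ : ∀ i, DirichletCharacter ℂ (q i)) (t : Fin k → ℝ) (X : ℕ), (∀ i, MB (g i)) →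
      (∀ i, i ≠ i₀ → 0 < q i ∧ q i ≤ q₀) → X₀ ≤ X → (∀ i, i ≠ i₀ → |t i| ≤ X) →
      (∀ i, i ≠ i₀ → ∑ p ∈ (Ioc (Y (lev X - J₀)) X).filter Nat.Prime,
        (1 - (uu (g i) (χ i) (t i) p).re) / (p : ℝ) ≤ α) →
      (∃ i, i ≠ i₀ ∧ M ≤ ∑ p ∈ (Ioc 0 X).filter Nat.Prime,
        (1 - (uu (g i) (χ i) (t i) p).re) / (p : ℝ)) →
      ‖∑ n ∈ Icc 1 X, ∏ i, g i ((n : ℤ) + h i).toNat‖ ≤ ε * X := by
  classical
  set h' : {i : Fin k // i ≠ i₀} → ℤ := fun i => h i.1 - h i₀ with hh'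
  have hinj' : Function.Injective h' := by
    intro i j hij
    simp only [hh'] at hij
    exact Subtype.ext (hinj (by linarith))
  have hne' : ∀ i, h' i ≠ 0 := by
    intro i hi
    simp only [hh'] at hi
    exact i.2 (hinj (by linarith))
  set m₀ : ℕ := (∑ i, (h' i).natAbs) + 1 with hm₀
  have hm : ∀ i, |h' i| < m₀ := by
    intro i
    have h1 : (h' i).natAbs ≤ ∑ i, (h' i).natAbs :=
      single_le_sum (f := fun i => (h' i).natAbs) (fun _ _ => Nat.zero_le _) (mem_univ i)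
    rw [Int.abs_eq_natAbs, hm₀]
    exact_mod_cast Nat.lt_succ_of_le h1
  obtain ⟨S, δ, x₀, hS, hδ, hkat⟩ := katai_fin (show 0 < ε / 2 by positivity) m₀
  have hC0 : ∀ P Q : ℕ, ∃ (α : ℝ) (J₀ : ℕ), 0 < α ∧ ∀ q₀ : ℕ, ∃ (M : ℝ) (X₀ : ℕ), (P ∈ S → Q ∈ S → P ≠ Q →
      ∀ (g : {i : Fin k // i ≠ i₀} → ℕ → ℂ) (q : {i : Fin k // i ≠ i₀} → ℕ)
      (χ : ∀ i, DirichletCharacter ℂ (q i)) (t : {i : Fin k // i ≠ i₀} → ℝ) (X : ℕ), (∀ i, MB (g i)) →
      (∀ i, 0 < q i) → (∀ i, q i ≤ q₀) → X₀ ≤ X → (∀ i, |t i| ≤ X) →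
      (∀ i, ∑ p ∈ (Ioc (Y (lev X - J₀)) X).filter Nat.Prime,
        (1 - (uu (g i) (χ i) (t i) p).re) / (p : ℝ) ≤ α) →
      (∃ i, M ≤ ∑ p ∈ (Ioc 0 X).filter Nat.Prime, (1 - (uu (g i) (χ i) (t i) p).re) / (p : ℝ)) →
      ∀ N : ℕ, N ≤ xp X P → N ≤ xp X Q →
      ‖∑ m ∈ range N, FF g h' (P * m) * (starRingEnd ℂ) (FF g h' (Q * m))‖ ≤ δ * X) := by
    intro P Q
    by_cases hPQ : P ∈ S ∧ Q ∈ S ∧ P ≠ Q
    · obtain ⟨hPS, hQS, hne⟩ := hPQ
      obtain ⟨α, J₀, hα, hpair⟩ := pair_fin h' hinj' hne' m₀ hm P Q (hS P hPS).1 (hS Q hQS).1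
        (hS P hPS).2.le (hS Q hQS).2.le hne hδ
      refine ⟨α, J₀, hα, fun q₀ => ?_⟩
      obtain ⟨M, X₀, hpair'⟩ := hpair q₀
      exact ⟨M, X₀, fun _ _ _ => hpair'⟩
    · exact ⟨1, 0, one_pos, fun q₀ => ⟨0, 0, fun h1 h2 h3 => absurd ⟨h1, h2, h3⟩ hPQ⟩⟩
  choose αf Jf hαf hC using hC0
  set αs : ℝ := 1 / (1 + ∑ P ∈ S, ∑ Q ∈ S, 1 / αf P Q) with hαs
  set Js : ℕ := ∑ P ∈ S, ∑ Q ∈ S, Jf P Q with hJs
  have hden : 0 < 1 + ∑ P ∈ S, ∑ Q ∈ S, 1 / αf P Q := by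
    have : 0 ≤ ∑ P ∈ S, ∑ Q ∈ S, 1 / αf P Q :=
      sum_nonneg fun P _ => sum_nonneg fun Q _ => (one_div_pos.2 (hαf P Q)).le
    linarith
  have hαle : ∀ P ∈ S, ∀ Q ∈ S, αs ≤ αf P Q := by
    intro P hP Q hQ
    have h1 : 1 / αf P Q ≤ ∑ Q ∈ S, 1 / αf P Q :=
      single_le_sum (f := fun Q => 1 / αf P Q) (fun Q _ => (one_div_pos.2 (hαf P Q)).le) hQ
    have h2 : ∑ Q ∈ S, 1 / αf P Q ≤ ∑ P ∈ S, ∑ Q ∈ S, 1 / αf P Q :=
      single_le_sum (f := fun P => ∑ Q ∈ S, 1 / αf P Q)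
        (fun P _ => sum_nonneg fun Q _ => (one_div_pos.2 (hαf P Q)).le) hP
    rw [hαs, div_le_iff₀ hden]
    have h3 : 1 / αf P Q ≤ 1 + ∑ P ∈ S, ∑ Q ∈ S, 1 / αf P Q := by linarith
    calc (1 : ℝ) = αf P Q * (1 / αf P Q) := by rw [mul_one_div, div_self (hαf P Q).ne']
      _ ≤ αf P Q * (1 + ∑ P ∈ S, ∑ Q ∈ S, 1 / αf P Q) := by
        have := (hαf P Q).le
        gcongr
  refine ⟨αs, Js, one_div_pos.2 hden, fun q₀ => ?_⟩
  choose Mf Xf hf using fun P Q => hC P Q q₀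
  set Ms : ℝ := ∑ P ∈ S, ∑ Q ∈ S, |Mf P Q| with hMs
  set Xs : ℕ := ∑ P ∈ S, ∑ Q ∈ S, Xf P Q with hXs
  have hMle : ∀ P ∈ S, ∀ Q ∈ S, Mf P Q ≤ Ms := by
    intro P hP Q hQ
    have h1 : |Mf P Q| ≤ ∑ Q ∈ S, |Mf P Q| :=
      single_le_sum (f := fun Q => |Mf P Q|) (fun Q _ => abs_nonneg _) hQ
    have h2 : ∑ Q ∈ S, |Mf P Q| ≤ ∑ P ∈ S, ∑ Q ∈ S, |Mf P Q| :=
      single_le_sum (f := fun P => ∑ Q ∈ S, |Mf P Q|)
        (fun P _ => sum_nonneg fun Q _ => abs_nonneg _) hP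
    have h3 := le_abs_self (Mf P Q)
    linarith
  have hNle : ∀ (f : ℕ → ℕ → ℕ), ∀ P ∈ S, ∀ Q ∈ S, f P Q ≤ ∑ P ∈ S, ∑ Q ∈ S, f P Q := by
    intro f P hP Q hQ
    have h1 : f P Q ≤ ∑ Q ∈ S, f P Q := single_le_sum (f := fun Q => f P Q) (fun Q _ => Nat.zero_le _) hQ
    have h2 : ∑ Q ∈ S, f P Q ≤ ∑ P ∈ S, ∑ Q ∈ S, f P Q :=
      single_le_sum (f := fun P => ∑ Q ∈ S, f P Q) (fun P _ => Nat.zero_le _) hP
    omega
  obtain ⟨x₁, hx₁⟩ := exists_nat_ge ((2 * ((h i₀).natAbs : ℝ) + 4) / (ε / 2))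
  refine ⟨Ms, max (max x₀ x₁) Xs, ?_⟩
  intro g q χ t X hMB hq hX ht hrough hdist
  have hXa : x₀ ≤ X := le_trans (le_trans (le_max_left _ _) (le_max_left _ _)) hX
  have hXb : x₁ ≤ X := le_trans (le_trans (le_max_right _ _) (le_max_left _ _)) hX
  have hXc : Xs ≤ X := le_trans (le_max_right _ _) hX
  have hbdry : 2 * ((h i₀).natAbs : ℝ) + 4 ≤ (ε / 2) * X := by
    have h1 : (2 * ((h i₀).natAbs : ℝ) + 4) / (ε / 2) ≤ X := hx₁.trans (by exact_mod_cast hXb)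
    rw [div_le_iff₀ (by positivity)] at h1
    linarith
  set G : {i : Fin k // i ≠ i₀} → ℕ → ℂ := fun i => g i.1 with hG
  have hGMB : ∀ i, MB (G i) := fun i => hMB i.1
  have hk := hkat X hXa (FF G h') (g i₀) (norm_FF_le G h' hGMB) (hMB i₀) (by
    intro P hP Q hQ hPQ N hN1 hN2
    refine hf P Q hP hQ hPQ G (fun i => q i.1) (fun i => χ i.1) (fun i => t i.1) X hGMB
      (fun i => (hq i.1 i.2).1) (fun i => (hq i.1 i.2).2) ((hNle Xf P hP Q hQ).trans hXc)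
      (fun i => ht i.1 i.2) ?_ ?_ N hN1 hN2
    · intro i
      refine le_trans ?_ ((hrough i.1 i.2).trans (hαle P hP Q hQ))
      apply sum_le_sum_of_subset_of_nonneg
      · apply filter_subset_filter
        apply Ioc_subset_Ioc_left
        apply Y_mono
        have := hNle Jf P hP Q hQ
        omega
      · intro p hp _
        rw [mem_filter] at hp
        exact one_sub_re_uu_nonneg (hMB i.1) _ _ hp.2.pos
    · obtain ⟨i, hi, hi2⟩ := hdist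
      exact ⟨⟨i, hi⟩, (hMle P hP Q hQ).trans hi2⟩)
  set A : ℕ → ℂ := fun n => g i₀ n * FF G h' n with hA
  have hAb : ∀ n, ‖A n‖ ≤ 1 := by
    intro n
    rw [hA, norm_mul]
    exact mul_le_one₀ ((hMB i₀).bdd n) (norm_nonneg _) (norm_FF_le G h' hGMB n)
  set B : ℕ → ℂ := fun n => ∏ i, g i ((n : ℤ) + h i).toNat with hB
  have hBb : ∀ n, ‖B n‖ ≤ 1 := by
    intro n
    rw [hB, norm_prod]
    exact prod_le_one (fun _ _ => norm_nonneg _) (fun i _ => (hMB i).bdd _)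
  have hsplit : ∀ (n : ℕ) (N : ℕ), (N : ℤ) = n + h i₀ → B n = A N := by
    intro n N hN
    simp only [hA, hB, FF, hG, hh']
    rw [Fintype.prod_eq_mul_prod_subtype_ne (fun i => g i ((n : ℤ) + h i).toNat) i₀, ← hN,
      Int.toNat_natCast]
    congr 1
    apply prod_congr rfl
    intro i _
    congr 2
    rw [hN]
    ring
  have hIcc : ∑ n ∈ Icc 1 X, B n = ∑ n ∈ range X, B (1 + n) := by
    rw [Finset.range_eq_Ico, Finset.sum_Ico_add B 0 X 1]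
    apply sum_congr _ (fun _ _ => rfl)
    ext n
    simp only [mem_Ico, mem_Icc]
    omega
  have hIcc' : ∑ n ∈ Icc 1 X, B n = ∑ n ∈ range (1 + X), B n - ∑ n ∈ range 1, B n := by
    rw [hIcc, sum_range_add, add_sub_cancel_left]
  have h1B := norm_sum_range_le B hBb 1
  rw [hIcc']
  -- the sum of `B` over `range (1 + X)` and the sum of `A` over `range X`
  have hkey : ‖∑ n ∈ range (1 + X), B n - ∑ n ∈ range X, A n‖ ≤ 2 * ((h i₀).natAbs : ℝ) + 3 := by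
    rcases le_total 0 (h i₀) with h0 | h0
    · obtain ⟨s, hs'⟩ := Int.eq_ofNat_of_zero_le h0
      have hns : (h i₀).natAbs = s := by rw [hs']; rfl
      rw [hns]
      have h1 : ∑ n ∈ range (1 + X), B n = ∑ n ∈ range (s + (1 + X)), A n - ∑ n ∈ range s, A n := by
        rw [sum_range_add A s (1 + X), add_sub_cancel_left]
        apply sum_congr rfl
        intro n _
        apply hsplit
        push_cast
        rw [hs']
        ring
      have h2 := sum_range_sub_le A hAb (a := s + (1 + X)) (b := X) (c := s + 1) (by omega) (by omega)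
      have h3 := norm_sum_range_le A hAb s
      push_cast at h2
      rw [h1]
      have e : ∑ n ∈ range (s + (1 + X)), A n - ∑ n ∈ range s, A n - ∑ n ∈ range X, A n
          = (∑ n ∈ range (s + (1 + X)), A n - ∑ n ∈ range X, A n) - ∑ n ∈ range s, A n := by ring
      rw [e]
      refine (norm_sub_le _ _).trans ?_
      linarith
    · obtain ⟨s, hs'⟩ := Int.eq_ofNat_of_zero_le (show 0 ≤ -(h i₀) by linarith)
      have hns : (h i₀).natAbs = s := by omega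
      rw [hns]
      have h1 : ∑ n ∈ range (1 + X), A n = ∑ n ∈ range (s + (1 + X)), B n - ∑ n ∈ range s, B n := by
        rw [sum_range_add B s (1 + X), add_sub_cancel_left]
        apply sum_congr rfl
        intro n _
        symm
        apply hsplit
        push_cast
        omega
      have h2 := sum_range_sub_le B hBb (a := s + (1 + X)) (b := 1 + X) (c := s) (by omega) (by omega)
      have h3 := norm_sum_range_le B hBb s
      have h4 := sum_range_sub_le A hAb (a := 1 + X) (b := X) (c := 1) (by omega) (by omega)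
      have e : ∑ n ∈ range (1 + X), B n - ∑ n ∈ range X, A n
          = -(∑ n ∈ range (s + (1 + X)), B n - ∑ n ∈ range (1 + X), B n) + ∑ n ∈ range s, B n
            + (∑ n ∈ range (1 + X), A n - ∑ n ∈ range X, A n) := by
        rw [h1]; ring
      rw [e]
      refine norm_add₃_le.trans ?_
      rw [norm_neg]
      push_cast at h4
      linarith
  have hfin : ∑ n ∈ range (1 + X), B n - ∑ n ∈ range 1, B n
      = (∑ n ∈ range (1 + X), B n - ∑ n ∈ range X, A n) + (∑ n ∈ range X, A n) + -∑ n ∈ range 1, B n := by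
    ring
  rw [hfin]
  refine norm_add₃_le.trans ?_
  rw [norm_neg]
  push_cast at h1B
  have hk' : ‖∑ n ∈ range X, A n‖ ≤ (ε / 2) * X := hk
  linarith

end Pool.Agent.H1.LP
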