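import Pool.Agent.H1.LP.Defs

/-!
# [H1 LP MEAN]  means of periodic functions

`mean_dvd`: `N = d k`, group into `k` full periods (`Finset.sum_range_mul`-like induction on `k`).
`mean_mul`: Chinese remainder theorem: `r ↦ (r % d₁, r % d₂)` is a bijection
`range (d₁ d₂) → range d₁ ×ˢ range d₂`, `ψ r = ψ (r % d)` (`Function.Periodic.map_mod_nat`).
`sum_sub_mean`: `y = N k + r`, `r < N`: the sum over `range (N k)` is `k N mean`, the rest and `r mean` are
at most `N c` in norm.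
`mean_prod`: induction on `I` with `mean_mul` (the moduli are pairwise coprime), and `mean_dvd`.
-/

set_option autoImplicit false

namespace Pool.Agent.H1.LP

open Finset Pool.H2.Ell

theorem mean_sum_per {d : ℕ} {ψ : ℕ → ℂ} (hψ : Function.Periodic ψ d) (k : ℕ) :
    ∑ r ∈ range (k * d), ψ r = k * ∑ r ∈ range d, ψ r := by
  induction k with
  | zero => simp
  | succ k ih =>
    have e : (k + 1) * d = k * d + d := by ring
    rw [e, sum_range_add, ih]
    have h1 : ∑ x ∈ range d, ψ (k * d + x) = ∑ x ∈ range d, ψ x := by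
      refine sum_congr rfl fun x _ => ?_
      rw [add_comm]
      exact (hψ.nat_mul k) x
    rw [h1]
    push_cast
    ring

theorem mean_mod {d : ℕ} {ψ : ℕ → ℂ} (hψ : Function.Periodic ψ d) (n : ℕ) :
    ψ (n % d) = ψ n := hψ.map_mod_nat n

theorem mean_dvd {d N : ℕ} (hd : 0 < d) (hN : 0 < N) (h : d ∣ N) {ψ : ℕ → ℂ}
    (hψ : Function.Periodic ψ d) : mean N ψ = mean d ψ := by
  obtain ⟨k, rfl⟩ := h
  have hk : 0 < k := Nat.pos_of_mul_pos_left hN
  have hdC : (d : ℂ) ≠ 0 := by exact_mod_cast hd.ne'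
  have hkC : (k : ℂ) ≠ 0 := by exact_mod_cast hk.ne'
  unfold mean
  rw [mul_comm d k, mean_sum_per hψ k]
  push_cast
  field_simp

theorem mean_mul {d₁ d₂ : ℕ} (h₁ : 0 < d₁) (h₂ : 0 < d₂) (hc : Nat.Coprime d₁ d₂) {ψ₁ ψ₂ : ℕ → ℂ}
    (hψ₁ : Function.Periodic ψ₁ d₁) (hψ₂ : Function.Periodic ψ₂ d₂) :
    mean (d₁ * d₂) (fun n => ψ₁ n * ψ₂ n) = mean d₁ ψ₁ * mean d₂ ψ₂ := by
  unfold mean
  have hinj : Set.InjOn (fun n : ℕ => (n % d₁, n % d₂)) (range (d₁ * d₂) : Set ℕ) := by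
    intro a ha b hb hab
    simp only [coe_range, Set.mem_Iio] at ha hb
    simp only [Prod.mk.injEq] at hab
    have h1 : a ≡ b [MOD d₁ * d₂] := (Nat.modEq_and_modEq_iff_modEq_mul hc).1 ⟨hab.1, hab.2⟩
    exact Nat.ModEq.eq_of_lt_of_lt h1 ha hb
  have himg : (range (d₁ * d₂)).image (fun n : ℕ => (n % d₁, n % d₂))
      = range d₁ ×ˢ range d₂ := by
    apply eq_of_subset_of_card_le
    · intro x hx
      obtain ⟨n, -, rfl⟩ := mem_image.1 hx
      rw [mem_product, mem_range, mem_range]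
      exact ⟨Nat.mod_lt _ h₁, Nat.mod_lt _ h₂⟩
    · rw [card_image_of_injOn hinj, card_product, card_range, card_range, card_range]
  have hs : ∑ r ∈ range (d₁ * d₂), ψ₁ r * ψ₂ r
      = (∑ r ∈ range d₁, ψ₁ r) * ∑ r ∈ range d₂, ψ₂ r := by
    rw [sum_mul_sum, ← sum_product', ← himg, sum_image hinj]
    refine sum_congr rfl (fun n _ => ?_)
    simp only
    rw [mean_mod hψ₁, mean_mod hψ₂]
  rw [hs, div_mul_div_comm]
  push_cast
  rfl

theorem sum_sub_mean {N : ℕ} (hN : 0 < N) {ψ : ℕ → ℂ} (hψ : Function.Periodic ψ N) {c : ℝ}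
    (hc : ∀ n, ‖ψ n‖ ≤ c) (y : ℕ) : ‖∑ n ∈ range y, ψ n - y * mean N ψ‖ ≤ 2 * (c * N) := by
  have hc0 : 0 ≤ c := (norm_nonneg _).trans (hc 0)
  have hNC : (N : ℂ) ≠ 0 := by exact_mod_cast hN.ne'
  have hNR : (0 : ℝ) < N := by exact_mod_cast hN
  have hsum : ∀ m : ℕ, ‖∑ n ∈ range m, ψ n‖ ≤ m * c := by
    intro m
    refine (norm_sum_le _ _).trans ((sum_le_sum fun n _ => hc n).trans ?_)
    rw [sum_const, card_range, nsmul_eq_mul]
  set k := y / N with hk
  set r := y % N with hr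
  have hy : y = k * N + r := by
    rw [hk, hr, mul_comm]
    exact (Nat.div_add_mod y N).symm
  have hrN : r < N := Nat.mod_lt _ hN
  have e1 : ∑ n ∈ range y, ψ n = k * ∑ n ∈ range N, ψ n + ∑ n ∈ range r, ψ n := by
    conv_lhs => rw [hy]
    rw [sum_range_add, mean_sum_per hψ]
    congr 1
    refine sum_congr rfl fun x _ => ?_
    rw [add_comm]
    exact (hψ.nat_mul k) x
  have e2 : ∑ n ∈ range y, ψ n - y * mean N ψ = ∑ n ∈ range r, ψ n - r * mean N ψ := by
    rw [e1]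
    unfold mean
    have hyC : (y : ℂ) = k * N + r := by exact_mod_cast hy
    rw [hyC]
    field_simp
    ring
  have hm : ‖mean N ψ‖ ≤ c := by
    unfold mean
    rw [norm_div, Complex.norm_natCast, div_le_iff₀ hNR, mul_comm c]
    exact hsum N
  have hrR : (r : ℝ) ≤ N := by exact_mod_cast hrN.le
  rw [e2]
  calc ‖∑ n ∈ range r, ψ n - r * mean N ψ‖ ≤ ‖∑ n ∈ range r, ψ n‖ + ‖(r : ℂ) * mean N ψ‖ :=
        norm_sub_le _ _
    _ ≤ r * c + r * c := by
        rw [norm_mul, Complex.norm_natCast]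
        exact add_le_add (hsum r) (mul_le_mul_of_nonneg_left hm (Nat.cast_nonneg r))
    _ ≤ N * c + N * c := by gcongr
    _ = 2 * (c * N) := by ring

theorem norm_mean_le (N : ℕ) {ψ : ℕ → ℂ} {f : ℕ → ℝ} (h : ∀ n, ‖ψ n‖ ≤ f n) :
    ‖mean N ψ‖ ≤ rmean N f := by
  unfold mean rmean
  rw [norm_div, Complex.norm_natCast]
  exact div_le_div_of_nonneg_right ((norm_sum_le _ _).trans (sum_le_sum fun n _ => h n))
    (Nat.cast_nonneg N)

theorem mean_ofReal (N : ℕ) (f : ℕ → ℝ) : mean N (fun n => (f n : ℂ)) = (rmean N f : ℂ) := by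
  unfold mean rmean
  push_cast
  rfl

theorem mean_add (N : ℕ) (f g : ℕ → ℂ) : mean N (fun n => f n + g n) = mean N f + mean N g := by
  unfold mean
  rw [sum_add_distrib, add_div]

theorem mean_sub (N : ℕ) (f g : ℕ → ℂ) : mean N (fun n => f n - g n) = mean N f - mean N g := by
  unfold mean
  rw [sum_sub_distrib, sub_div]

theorem mean_one {N : ℕ} (hN : 0 < N) : mean N (fun _ => 1) = 1 := by
  have hNC : (N : ℂ) ≠ 0 := by exact_mod_cast hN.ne'
  unfold mean
  rw [sum_const, card_range, nsmul_eq_mul, mul_one, div_self hNC]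

theorem rmean_mono (N : ℕ) {f g : ℕ → ℝ} (h : ∀ n, f n ≤ g n) : rmean N f ≤ rmean N g := by
  unfold rmean
  exact div_le_div_of_nonneg_right (sum_le_sum fun n _ => h n) (Nat.cast_nonneg N)

theorem rmean_nonneg (N : ℕ) {f : ℕ → ℝ} (h : ∀ n, 0 ≤ f n) : 0 ≤ rmean N f := by
  unfold rmean
  exact div_nonneg (sum_nonneg fun n _ => h n) (Nat.cast_nonneg N)

theorem rmean_add (N : ℕ) (f g : ℕ → ℝ) : rmean N (fun n => f n + g n) = rmean N f + rmean N g := by
  unfold rmean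
  rw [sum_add_distrib, add_div]

theorem rmean_sum (N : ℕ) {κ : Type} (s : Finset κ) (f : κ → ℕ → ℝ) :
    rmean N (fun n => ∑ i ∈ s, f i n) = ∑ i ∈ s, rmean N (f i) := by
  unfold rmean
  rw [sum_comm, sum_div]

/-- Cauchy-Schwarz for means -/
theorem rmean_cs (N : ℕ) (f g : ℕ → ℝ) :
    (rmean N (fun n => f n * g n)) ^ 2 ≤ rmean N (fun n => f n ^ 2) * rmean N (fun n => g n ^ 2) := by
  unfold rmean
  rw [div_pow, div_mul_div_comm, ← sq (N : ℝ)]
  exact div_le_div_of_nonneg_right (sum_mul_sq_le_sq_mul_sq _ _ _) (sq_nonneg _)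

theorem mean_prod_aux (I : Finset ℕ) (d : ℕ → ℕ) (hd : ∀ j ∈ I, 0 < d j)
    (hco : ∀ i ∈ I, ∀ j ∈ I, i ≠ j → Nat.Coprime (d i) (d j)) (F : ℕ → ℕ → ℂ)
    (hF : ∀ j ∈ I, Function.Periodic (F j) (d j)) {W : ℕ} (hW : 0 < W)
    (hWd : ∀ j ∈ I, Nat.Coprime W (d j)) {G : ℕ → ℂ} (hG : Function.Periodic G W) :
    Function.Periodic (fun n => G n * ∏ j ∈ I, F j n) (W * ∏ j ∈ I, d j) ∧
    mean (W * ∏ j ∈ I, d j) (fun n => G n * ∏ j ∈ I, F j n)
      = mean W G * ∏ j ∈ I, mean (d j) (F j) := by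
  classical
  induction I using Finset.induction_on with
  | empty =>
    simp only [prod_empty, mul_one]
    exact ⟨hG, trivial⟩
  | insert a s ha ih =>
    obtain ⟨ih1, ih2⟩ := ih (fun j hj => hd j (mem_insert_of_mem hj))
      (fun i hi j hj => hco i (mem_insert_of_mem hi) j (mem_insert_of_mem hj))
      (fun j hj => hF j (mem_insert_of_mem hj)) (fun j hj => hWd j (mem_insert_of_mem hj))
    have hda := hd a (mem_insert_self _ _)
    have hFa := hF a (mem_insert_self _ _)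
    have hcop : Nat.Coprime (W * ∏ j ∈ s, d j) (d a) := by
      apply Nat.Coprime.mul_left
      · exact hWd a (mem_insert_self _ _)
      · apply Nat.Coprime.prod_left
        intro j hj
        refine hco j (mem_insert_of_mem hj) a (mem_insert_self _ _) ?_
        rintro rfl
        exact ha hj
    have hpos : 0 < W * ∏ j ∈ s, d j :=
      Nat.mul_pos hW (prod_pos fun j hj => hd j (mem_insert_of_mem hj))
    have e1 : W * ∏ j ∈ insert a s, d j = (W * ∏ j ∈ s, d j) * d a := by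
      rw [prod_insert ha]
      ring
    have e2 : (fun n => G n * ∏ j ∈ insert a s, F j n)
        = fun n => (G n * ∏ j ∈ s, F j n) * F a n := by
      funext n
      rw [prod_insert ha]
      ring
    rw [e1, e2]
    constructor
    · have p1 : Function.Periodic (fun n => G n * ∏ j ∈ s, F j n) ((W * ∏ j ∈ s, d j) * d a) := by
        have := ih1.nat_mul (d a)
        rwa [Nat.cast_id, mul_comm] at this
      have p2 : Function.Periodic (F a) ((W * ∏ j ∈ s, d j) * d a) := by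
        have := hFa.nat_mul (W * ∏ j ∈ s, d j)
        rwa [Nat.cast_id] at this
      exact p1.mul p2
    · rw [mean_mul hpos hda hcop ih1 hFa, ih2, prod_insert ha]
      ring

/-- independence of the residues modulo coprime moduli -/
theorem mean_prod (I : Finset ℕ) (d : ℕ → ℕ) (hd : ∀ j ∈ I, 0 < d j)
    (hco : ∀ i ∈ I, ∀ j ∈ I, i ≠ j → Nat.Coprime (d i) (d j)) (F : ℕ → ℕ → ℂ)
    (hF : ∀ j ∈ I, Function.Periodic (F j) (d j)) {W : ℕ} (hW : 0 < W)
    (hWd : ∀ j ∈ I, Nat.Coprime W (d j)) {G : ℕ → ℂ} (hG : Function.Periodic G W) {N : ℕ} (hN : 0 < N)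
    (hdN : W * ∏ j ∈ I, d j ∣ N) :
    mean N (fun n => G n * ∏ j ∈ I, F j n) = mean W G * ∏ j ∈ I, mean (d j) (F j) := by
  obtain ⟨h1, h2⟩ := mean_prod_aux I d hd hco F hF hW hWd hG
  rw [← h2]
  exact mean_dvd (Nat.mul_pos hW (prod_pos fun j hj => hd j hj)) hN hdN h1

end Pool.Agent.H1.LP
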