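import Pool.Agent.H1.LP.Trunc

/-!
# [H1 LP MOM]  moments of the number of active primes

* `Bp_nonneg`, `one_le_Bp`: `Bp` counts the subsets of size `D + 1` of the active primes.
* `rep_Bp`: `∏_{p ∈ S} 1_{φ p n ≠ 0}` has period `∏ p^e` and values in `[0,1]`; weight
  `∑_S ∏_{p ∈ S} p^e ≤ (∑ p^e)^(D+1)` (`esymm_le`).
* `rmean_Bp`: `mean_prod` (with `I = S`, `d p = p ^ e`, `W = 1`, `G = 1`): the mean of `∏_{p ∈ S} 1_{φ p n ≠ 0}` is
  `∏_{p ∈ S} (card / p^e) ≤ ∏_{p ∈ S} m / p`; `esymm_le`.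
* `rmean_36`: `36^om = ∏_{p ∈ P} (1 + 35 * 1_{φ p n ≠ 0})`, `mean_prod`:
  `∏ (1 + 35 card / p^e) ≤ exp (35 ∑ m/p)`.
* `rmean_Tp`: from `norm_Tp_sq_le` and `rmean_36`.
-/

set_option autoImplicit false

namespace Pool.Agent.H1.LP

open Finset Pool.H2.Ell

open Classical in
/-- the indicator of an active prime -/
noncomputable def momA (φ : ℕ → ℕ → ℂ) (p n : ℕ) : ℝ := if φ p n ≠ 0 then 1 else 0

theorem momA_nonneg (φ : ℕ → ℕ → ℂ) (p n : ℕ) : 0 ≤ momA φ p n := by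
  unfold momA
  split_ifs <;> norm_num

theorem momA_le (φ : ℕ → ℕ → ℂ) (p n : ℕ) : momA φ p n ≤ 1 := by
  unfold momA
  split_ifs <;> norm_num

theorem mom_Bp (P : Finset ℕ) (D : ℕ) (φ : ℕ → ℕ → ℂ) (n : ℕ) :
    Bp P D φ n = ∑ S ∈ P.powersetCard (D + 1), ∏ p ∈ S, momA φ p n := rfl

theorem Bp_nonneg (P : Finset ℕ) (D : ℕ) (φ : ℕ → ℕ → ℂ) (n : ℕ) : 0 ≤ Bp P D φ n := by
  rw [mom_Bp]
  exact sum_nonneg fun S _ => prod_nonneg fun p _ => momA_nonneg φ p n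

theorem one_le_Bp (P : Finset ℕ) (D : ℕ) (φ : ℕ → ℕ → ℂ) (n : ℕ) (h : D < om P φ n) :
    1 ≤ Bp P D φ n := by
  classical
  rw [mom_Bp]
  unfold om at h
  obtain ⟨S, hS, hcard⟩ := exists_subset_card_eq (show D + 1 ≤ _ from h)
  have hSP : S ∈ P.powersetCard (D + 1) :=
    mem_powersetCard.2 ⟨hS.trans (filter_subset _ _), hcard⟩
  have h1 : ∏ p ∈ S, momA φ p n = 1 := by
    apply prod_eq_one
    intro p hp
    have := (mem_filter.1 (hS hp)).2
    unfold momA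
    rw [if_pos this]
  rw [← h1]
  exact single_le_sum (f := fun S => ∏ p ∈ S, momA φ p n)
    (fun S _ => prod_nonneg fun p _ => momA_nonneg φ p n) hSP

theorem momA_per {e m : ℕ} {P : Finset ℕ} {φ : ℕ → ℕ → ℂ} (hL : Loc e m P φ) (p : ℕ)
    (hp : p ∈ P) : Function.Periodic (momA φ p) (p ^ e) := by
  intro n
  unfold momA
  rw [hL.per p hp n]

theorem rep_Bp {e m : ℕ} {P : Finset ℕ} {φ : ℕ → ℕ → ℂ} (hL : Loc e m P φ) (D N : ℕ)
    (hd : ∏ p ∈ P, p ^ e ∣ N) :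
    Rep N (fun n => (Bp P D φ n : ℂ)) ((∑ p ∈ P, (p : ℝ) ^ e) ^ (D + 1)) := by
  classical
  have h0 : (fun n => (Bp P D φ n : ℂ)) =
      fun n => ∑ S ∈ P.powersetCard (D + 1), ∏ p ∈ S, ((momA φ p n : ℝ) : ℂ) := by
    funext n
    rw [mom_Bp]
    push_cast
    rfl
  have h1 : ∀ S ∈ P.powersetCard (D + 1),
      Rep N (fun n => ∏ p ∈ S, ((momA φ p n : ℝ) : ℂ)) (∏ p ∈ S, (p : ℝ) ^ e) := by
    intro S hS
    have hSP : S ⊆ P := (mem_powersetCard.1 hS).1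
    have hpos : 0 < ∏ p ∈ S, p ^ e :=
      prod_pos fun p hp => pow_pos (hL.prime p (hSP hp)).pos _
    have hdvd : ∏ p ∈ S, p ^ e ∣ N := (prod_dvd_prod_of_subset _ _ _ hSP).trans hd
    have hper : Function.Periodic (fun n => ∏ p ∈ S, ((momA φ p n : ℝ) : ℂ))
        (∏ p ∈ S, p ^ e) := by
      intro n
      refine prod_congr rfl fun p hp => ?_
      obtain ⟨k, hk⟩ := dvd_prod_of_mem (fun p => p ^ e) hp
      rw [hk, mul_comm]
      have := (momA_per hL p (hSP hp)).nat_mul k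
      rw [Nat.cast_id] at this
      rw [this n]
    have hbd : ∀ n, ‖∏ p ∈ S, ((momA φ p n : ℝ) : ℂ)‖ ≤ 1 := by
      intro n
      rw [norm_prod]
      apply prod_le_one (fun p _ => norm_nonneg _)
      intro p _
      rw [Complex.norm_real, Real.norm_eq_abs, abs_of_nonneg (momA_nonneg φ p n)]
      exact momA_le φ p n
    have h2 := Rep.of_periodic hpos hdvd hper hbd
    have e2 : ∏ p ∈ S, (p : ℝ) ^ e = 1 * ((∏ p ∈ S, p ^ e : ℕ) : ℝ) := by
      push_cast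
      rw [one_mul]
    rw [e2]
    exact h2
  have h2 := Rep.sum (P.powersetCard (D + 1)) h1
  rw [h0]
  refine Rep.mono h2 ?_
  exact esy_le_pow P (D + 1) (fun p => (p : ℝ) ^ e) (fun p _ => by positivity)

theorem mom_prod {e m : ℕ} {P : Finset ℕ} {φ : ℕ → ℕ → ℂ} (hL : Loc e m P φ) {N : ℕ}
    (hN : 0 < N) (hd : ∏ p ∈ P, p ^ e ∣ N) (S : Finset ℕ) (hS : S ⊆ P) (a : ℕ → ℕ → ℝ)
    (ha : ∀ p ∈ S, Function.Periodic (a p) (p ^ e)) :
    rmean N (fun n => ∏ p ∈ S, a p n) = ∏ p ∈ S, rmean (p ^ e) (a p) := by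
  have h1 := mean_prod S (fun p => p ^ e) (fun p hp => pow_pos (hL.prime p (hS hp)).pos _)
    (fun p hp q hq hpq => Nat.Coprime.pow _ _ ((Nat.coprime_primes (hL.prime p (hS hp))
      (hL.prime q (hS hq))).2 hpq)) (fun p n => ((a p n : ℝ) : ℂ))
    (fun p hp n => by simp only [ha p hp n]) (W := 1) one_pos
    (fun p _ => Nat.coprime_one_left _) (G := fun _ => 1) (fun _ => rfl) hN
    (by rw [one_mul]; exact (prod_dvd_prod_of_subset _ _ _ hS).trans hd)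
  have h2 : (fun n => (1 : ℂ) * ∏ p ∈ S, ((a p n : ℝ) : ℂ)) =
      fun n => ((∏ p ∈ S, a p n : ℝ) : ℂ) := by
    funext n
    push_cast
    rw [one_mul]
  rw [h2, mean_ofReal, mean_one one_pos, one_mul] at h1
  have h3 : ∏ p ∈ S, mean (p ^ e) (fun n => ((a p n : ℝ) : ℂ)) =
      ((∏ p ∈ S, rmean (p ^ e) (a p) : ℝ) : ℂ) := by
    push_cast
    exact prod_congr rfl fun p _ => mean_ofReal _ _
  rw [h3] at h1
  exact_mod_cast h1

theorem mom_rmean {e m : ℕ} {P : Finset ℕ} {φ : ℕ → ℕ → ℂ} (hL : Loc e m P φ) (p : ℕ)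
    (hp : p ∈ P) : rmean (p ^ e) (momA φ p) ≤ (m : ℝ) / p := by
  classical
  have hp0 : (0 : ℝ) < p := by exact_mod_cast (hL.prime p hp).pos
  have h1 := hL.supp p hp
  unfold rmean
  have h2 : ∑ r ∈ range (p ^ e), momA φ p r =
      (((range (p ^ e)).filter (fun r => φ p r ≠ 0)).card : ℝ) := by
    unfold momA
    rw [sum_boole]
  rw [h2]
  push_cast
  rw [div_le_div_iff₀ (by positivity) hp0]
  convert h1 using 2

theorem rmean_Bp {e m : ℕ} {P : Finset ℕ} {φ : ℕ → ℕ → ℂ} (hL : Loc e m P φ) (D : ℕ) {N : ℕ}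
    (hN : 0 < N) (hd : ∏ p ∈ P, p ^ e ∣ N) {s : ℝ} (hs : ∑ p ∈ P, (m : ℝ) / p ≤ s) :
    rmean N (Bp P D φ) ≤ s ^ (D + 1) / ((D + 1).factorial : ℝ) := by
  have h0 : Bp P D φ = fun n => ∑ S ∈ P.powersetCard (D + 1), ∏ p ∈ S, momA φ p n := by
    funext n
    exact mom_Bp P D φ n
  rw [h0, rmean_sum]
  calc ∑ S ∈ P.powersetCard (D + 1), rmean N (fun n => ∏ p ∈ S, momA φ p n)
      ≤ ∑ S ∈ P.powersetCard (D + 1), ∏ p ∈ S, (m : ℝ) / p := by
        refine sum_le_sum fun S hS => ?_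
        have hSP : S ⊆ P := (mem_powersetCard.1 hS).1
        rw [mom_prod hL hN hd S hSP (momA φ) fun p hp => momA_per hL p (hSP hp)]
        exact prod_le_prod (fun p _ => rmean_nonneg _ fun n => momA_nonneg φ p n)
          fun p hp => mom_rmean hL p (hSP hp)
    _ ≤ (∑ p ∈ P, (m : ℝ) / p) ^ (D + 1) / ((D + 1).factorial : ℝ) :=
        esymm_le P (fun p => (m : ℝ) / p) (fun p _ => by positivity) (D + 1)
    _ ≤ s ^ (D + 1) / ((D + 1).factorial : ℝ) := by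
        have h1 : 0 ≤ ∑ p ∈ P, (m : ℝ) / p := sum_nonneg fun p _ => by positivity
        gcongr

theorem rmean_36 {e m : ℕ} {P : Finset ℕ} {φ : ℕ → ℕ → ℂ} (hL : Loc e m P φ) {N : ℕ}
    (hN : 0 < N) (hd : ∏ p ∈ P, p ^ e ∣ N) {s : ℝ} (hs : ∑ p ∈ P, (m : ℝ) / p ≤ s) :
    rmean N (fun n => (36 : ℝ) ^ om P φ n) ≤ Real.exp (35 * s) := by
  classical
  have h0 : (fun n => (36 : ℝ) ^ om P φ n) = fun n => ∏ p ∈ P, (1 + 35 * momA φ p n) := by
    funext n
    unfold om momA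
    rw [← prod_const, prod_filter]
    refine prod_congr rfl fun p _ => ?_
    split_ifs <;> norm_num
  rw [h0, mom_prod hL hN hd P (Subset.refl _) (fun p n => 1 + 35 * momA φ p n)
    (fun p hp n => by simp only [momA_per hL p hp n])]
  calc ∏ p ∈ P, rmean (p ^ e) (fun n => 1 + 35 * momA φ p n)
      ≤ ∏ p ∈ P, Real.exp (35 * ((m : ℝ) / p)) := by
        refine prod_le_prod (fun p _ => rmean_nonneg _ fun n => ?_) fun p hp => ?_
        · have := momA_nonneg φ p n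
          linarith
        · have hpe : (0 : ℝ) < ((p ^ e : ℕ) : ℝ) := by
            exact_mod_cast pow_pos (hL.prime p hp).pos _
          have h1 : rmean (p ^ e) (fun n => 1 + 35 * momA φ p n) =
              1 + 35 * rmean (p ^ e) (momA φ p) := by
            unfold rmean
            rw [sum_add_distrib, ← mul_sum, sum_const, card_range, nsmul_eq_mul, mul_one, add_div,
              div_self hpe.ne', mul_div_assoc]
          rw [h1]
          have h2 := mom_rmean hL p hp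
          have h3 := Real.add_one_le_exp (35 * ((m : ℝ) / p))
          linarith
    _ = Real.exp (35 * ∑ p ∈ P, (m : ℝ) / p) := by
        rw [← Real.exp_sum, mul_sum]
    _ ≤ Real.exp (35 * s) := by
        apply Real.exp_le_exp.2
        linarith

theorem rmean_Tp {e m : ℕ} {P : Finset ℕ} {φ : ℕ → ℕ → ℂ} (hL : Loc e m P φ) (D : ℕ) {N : ℕ}
    (hN : 0 < N) (hd : ∏ p ∈ P, p ^ e ∣ N) {s : ℝ} (hs : ∑ p ∈ P, (m : ℝ) / p ≤ s) :
    rmean N (fun n => ‖Tp P D φ n‖ ^ 2) ≤ 1 + Real.exp (35 * s) / 4 ^ D := by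
  have hNR : (0 : ℝ) < N := by exact_mod_cast hN
  have h1 : rmean N (fun n => ‖Tp P D φ n‖ ^ 2) ≤
      rmean N (fun n => 1 + (36 : ℝ) ^ om P φ n / 4 ^ D) :=
    rmean_mono N fun n => norm_Tp_sq_le P D φ n fun p hp => hL.bd p hp n
  have h2 : rmean N (fun n => 1 + (36 : ℝ) ^ om P φ n / 4 ^ D) =
      1 + rmean N (fun n => (36 : ℝ) ^ om P φ n) / 4 ^ D := by
    unfold rmean
    rw [sum_add_distrib, ← sum_div, sum_const, card_range, nsmul_eq_mul, mul_one, add_div,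
      div_self hNR.ne', div_right_comm]
  rw [h2] at h1
  refine h1.trans ?_
  have h3 := rmean_36 hL hN hd hs
  have h4 : (0 : ℝ) < 4 ^ D := by positivity
  have := div_le_div_of_nonneg_right h3 h4.le
  linarith

end Pool.Agent.H1.LP
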