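import Pool.Agent.H1.LP.Core
import Pool.Agent.H1.LP.Arch
import Pool.Agent.H2.EllPair

/-!
# [H1 LP PAIR]  the pair correlations in Katai's criterion, uniform version of `Pool.H2.Ell.pair_corr`

Let `η = ε/8`, `V = (∑ |h i|)/η`, `δ = ε/(4 (2 + V))`, `(α, M, J, N₀)` from `core_fin (J × Bool) A B δ` with
`B = q₀ + (P+Q)^2 (2 m₀)`, `A = (P+Q)(1 + 2 m₀)`; `J₀ = J`; `X₀` such that `lev X₀ ≥ N₀ + J` and `X₀` is large
(`η X ≥ 1`, `2 m₀ + 1 ≤ (ε/8) X`).  For `X ≥ X₀` put `N' = lev X - J`; `Y (lev X) ≤ X < Y (lev X + 1)` (`lev_spec`).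
`D = pairSys g q χ t h ...`; the values of `uu` at `(i, true)`, `(i, false)` are conjugate to each other (`uu_conj`, as in
`uu_fb`), with the same real part; so both hypotheses of `core_fin` hold.
As in `pair_corr`: `FF g h (P (m + m₀)) conj (FF g h (Q (m + m₀))) = D.F m`, and `D.W m = ∏_i aw (t i) m₀ P Q (h i) m`.
If `N ≤ 2 m₀ + 1` the bound is trivial.  Otherwise put `y = N - (2 m₀ + 1)`:
`P y + b = P (N - 1) - P m₀ + h ≤ P (N - 1) < X` (`lt_xp_iff`: `N - 1 < xp X P`), same for `Q`.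
`∑_{m<N} = ∑_{m<m₀} + ∑_{m<y} D.F m + (the last m₀ + 1 terms)`, and by `psum` with `m₁ = ⌈η X⌉`, `arch_sum`:
`‖∑_{m<y} D.F m‖ ≤ m₁ + δ X (2 + V) ≤ η X + 1 + (ε/4) X`.
-/

set_option autoImplicit false

namespace Pool.Agent.H1.LP

open Finset Pool.H2.Ell

theorem lev_spec {X : ℕ} (hX : 2 ≤ X) : Y (lev X) ≤ X ∧ X < Y (lev X + 1) := by
  have hL1 : 1 ≤ Nat.log 2 X := Nat.log_pos (by norm_num) hX
  have h1 : 2 ^ Nat.log 2 X ≤ X := Nat.pow_log_le_self 2 (by omega)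
  have h2 : X < 2 ^ (Nat.log 2 X + 1) := Nat.lt_pow_succ_log_self (by norm_num) X
  have h3 : 2 ^ Nat.log 2 (Nat.log 2 X) ≤ Nat.log 2 X := Nat.pow_log_le_self 2 (by omega)
  have h4 : Nat.log 2 X < 2 ^ (Nat.log 2 (Nat.log 2 X) + 1) := Nat.lt_pow_succ_log_self (by norm_num) _
  constructor
  · show 2 ^ (2 ^ Nat.log 2 (Nat.log 2 X)) ≤ X
    exact (Nat.pow_le_pow_right (by norm_num) h3).trans h1
  · show X < 2 ^ (2 ^ (Nat.log 2 (Nat.log 2 X) + 1))
    exact lt_of_lt_of_le h2 (Nat.pow_le_pow_right (by norm_num) h4)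

theorem le_lev {X n : ℕ} (hX : Y n ≤ X) : n ≤ lev X := by
  have h2 : 2 ≤ X := (two_le_Y n).trans hX
  have h := (lev_spec h2).2
  by_contra hcon
  push Not at hcon
  have := Y_mono (show lev X + 1 ≤ n by omega)
  omega

theorem norm_sum_range_le (f : ℕ → ℂ) (hf : ∀ n, ‖f n‖ ≤ 1) (N : ℕ) : ‖∑ n ∈ range N, f n‖ ≤ N := by
  refine (norm_sum_le _ _).trans ?_
  calc ∑ n ∈ range N, ‖f n‖ ≤ ∑ _n ∈ range N, (1 : ℝ) := sum_le_sum fun n _ => hf n
    _ = N := by simp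

theorem cf_pos {P Q : ℕ} (hP : 1 ≤ P) (hQ : 1 ≤ Q) (β : Bool) : 1 ≤ cf P Q β := by
  cases β
  · exact hQ
  · exact hP

theorem cf_le (P Q : ℕ) (β : Bool) : cf P Q β ≤ P + Q := by
  cases β
  · show Q ≤ P + Q; omega
  · show P ≤ P + Q; omega

theorem bb_le {P Q m₀ : ℕ} {h : ℤ} (hP : 1 ≤ P) (hQ : 1 ≤ Q) (hm : |h| < m₀) (β : Bool) :
    bb P Q m₀ h β ≤ (P + Q) * (2 * m₀) := by
  have h1 := (bb_cast (cf_pos hP hQ β) hm).1
  have h2 := (abs_lt.1 hm).2
  have h3 := cf_le P Q β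
  have h4 : ((cf P Q β : ℕ) : ℤ) ≤ P + Q := by exact_mod_cast h3
  have h5 : ((bb P Q m₀ h β : ℕ) : ℤ) ≤ (P + Q) * (2 * m₀) := by
    rw [h1]
    have h6 : ((cf P Q β : ℕ) : ℤ) * m₀ ≤ (P + Q) * m₀ := by
      apply mul_le_mul_of_nonneg_right h4 (by positivity)
    have h7 : (m₀ : ℤ) ≤ (P + Q) * m₀ := by
      apply le_mul_of_one_le_left (by positivity)
      have : (1 : ℤ) ≤ P := by exact_mod_cast hP
      have : (0 : ℤ) ≤ Q := by positivity
      linarith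
    linarith
  exact_mod_cast h5

theorem re_uu_fb {q : ℕ} (hq : 0 < q) (g : ℕ → ℂ) (χ : DirichletCharacter ℂ q) (t : ℝ) (β : Bool) (p : ℕ) :
    (uu (fb g β) (chb χ β) (tb t β) p).re = (uu g χ t p).re := by
  have : NeZero q := ⟨hq.ne'⟩
  cases β
  · show (uu (fun n => (starRingEnd ℂ) (g n)) χ⁻¹ (-t) p).re = _
    rw [uu_conj, Complex.conj_re]
  · rfl

theorem pair_fin {J : Type} [Fintype J] (h : J → ℤ) (hinj : Function.Injective h) (hne : ∀ i, h i ≠ 0)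
    (m₀ : ℕ) (hm : ∀ i, |h i| < m₀) (P Q : ℕ) (hP : P.Prime) (hQ : Q.Prime) (hPm : m₀ ≤ P)
    (hQm : m₀ ≤ Q) (hPQ : P ≠ Q) {ε : ℝ} (hε : 0 < ε) :
    ∃ (α : ℝ) (J₀ : ℕ), 0 < α ∧ ∀ q₀ : ℕ, ∃ (M : ℝ) (X₀ : ℕ), ∀ (g : J → ℕ → ℂ) (q : J → ℕ)
      (χ : ∀ i, DirichletCharacter ℂ (q i)) (t : J → ℝ) (X : ℕ), (∀ i, MB (g i)) → (∀ i, 0 < q i) →
      (∀ i, q i ≤ q₀) → X₀ ≤ X → (∀ i, |t i| ≤ X) →
      (∀ i, ∑ p ∈ (Ioc (Y (lev X - J₀)) X).filter Nat.Prime,
        (1 - (uu (g i) (χ i) (t i) p).re) / (p : ℝ) ≤ α) →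
      (∃ i, M ≤ ∑ p ∈ (Ioc 0 X).filter Nat.Prime, (1 - (uu (g i) (χ i) (t i) p).re) / (p : ℝ)) →
      ∀ N : ℕ, N ≤ xp X P → N ≤ xp X Q →
      ‖∑ m ∈ range N, FF g h (P * m) * (starRingEnd ℂ) (FF g h (Q * m))‖ ≤ ε * X := by
  classical
  have hP1 : 1 ≤ P := hP.one_lt.le
  have hQ1 : 1 ≤ Q := hQ.one_lt.le
  set η : ℝ := ε / 8 with hη
  have hη0 : 0 < η := by rw [hη]; positivity
  set Hs : ℝ := ∑ i, |(h i : ℝ)| with hHs
  have hHs0 : 0 ≤ Hs := sum_nonneg fun _ _ => abs_nonneg _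
  set V : ℝ := Hs / η with hV
  have hV0 : 0 ≤ V := by rw [hV]; positivity
  set δ : ℝ := ε / (4 * (2 + V)) with hδ
  have hδ0 : 0 < δ := by rw [hδ]; positivity
  obtain ⟨α, J₁, hα, hcore0⟩ := core_fin (J × Bool) ((P + Q) * (1 + 2 * m₀)) hδ0
  refine ⟨α, J₁, hα, fun q₀ => ?_⟩
  obtain ⟨M, N₀, hcore⟩ := hcore0 (q₀ + (P + Q) * ((P + Q) * (2 * m₀)) + (P + Q))
  obtain ⟨x₁, hx₁⟩ := exists_nat_ge (max (1 / η) ((2 * m₀ + 2) / (ε / 8)))
  refine ⟨M, max (Y (N₀ + J₁)) x₁, ?_⟩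
  intro g q χ t X hg hq hqle hX ht hrough hdist N hNP hNQ
  have hX1 : Y (N₀ + J₁) ≤ X := le_trans (le_max_left _ _) hX
  have hX2 : x₁ ≤ X := le_trans (le_max_right _ _) hX
  have h2X : 2 ≤ X := (two_le_Y _).trans hX1
  have hXr : (0 : ℝ) < X := by exact_mod_cast (show 0 < X by omega)
  have hxX : (x₁ : ℝ) ≤ X := by exact_mod_cast hX2
  have hη1 : 1 ≤ η * X := by
    have h1 : 1 / η ≤ X := ((le_max_left _ _).trans hx₁).trans hxX
    rw [div_le_iff₀ hη0] at h1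
    linarith
  have hm₀X : 2 * (m₀ : ℝ) + 2 ≤ (ε / 8) * X := by
    have h1 : (2 * (m₀ : ℝ) + 2) / (ε / 8) ≤ X := ((le_max_right _ _).trans hx₁).trans hxX
    rw [div_le_iff₀ (by positivity)] at h1
    linarith
  have hlev := lev_spec h2X
  have hle := le_lev hX1
  set D := pairSys g q χ t h hg hq hinj hne m₀ P Q hm hP hQ hPm hQm hPQ with hD
  have hDa : ∀ x : J × Bool, D.a x = cf P Q x.2 := fun _ => rfl
  have hDb : ∀ x : J × Bool, D.b x = bb P Q m₀ (h x.1) x.2 := fun _ => rfl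
  have hDq : ∀ x : J × Bool, D.q x = q x.1 := fun _ => rfl
  have hDu : ∀ (x : J × Bool) (p : ℕ), (D.u x p).re = (uu (g x.1) (χ x.1) (t x.1) p).re := by
    intro x p
    exact re_uu_fb (hq x.1) (g x.1) (χ x.1) (t x.1) x.2 p
  have hadm : D.Adm (q₀ + (P + Q) * ((P + Q) * (2 * m₀)) + (P + Q)) := by
    refine ⟨fun x => ?_, fun x => ?_, fun x y => ?_⟩
    · rw [hDa]
      have := cf_le P Q x.2
      omega
    · rw [hDq]
      have := hqle x.1
      omega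
    · rw [hDa, hDb]
      have h1 := cf_le P Q x.2
      have h2 := bb_le hP1 hQ1 (hm y.1) y.2
      have h3 := Nat.mul_le_mul h1 h2
      omega
  have hAle : ∀ x, D.a x + D.b x ≤ (P + Q) * (1 + 2 * m₀) := by
    intro x
    rw [hDa, hDb]
    have h1 := cf_le P Q x.2
    have h2 := bb_le hP1 hQ1 (hm x.1) x.2
    nlinarith
  have hNN : N₀ ≤ lev X - J₁ := by omega
  have hNJ : lev X - J₁ + J₁ = lev X := by omega
  have hcore' := hcore D hadm hAle (lev X - J₁) X hNN (by rw [hNJ]; exact hlev.1)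
    (by rw [hNJ]; exact hlev.2)
    (by
      intro x
      simp only [hDu]
      exact hrough x.1)
    (by
      obtain ⟨i, hi⟩ := hdist
      refine ⟨(i, true), ?_⟩
      simp only [hDu]
      exact hi)
  -- the summand
  set S : ℕ → ℂ := fun m => FF g h (P * m) * (starRingEnd ℂ) (FF g h (Q * m)) with hS
  have hSb : ∀ m, ‖S m‖ ≤ 1 := by
    intro m
    rw [hS]
    simp only []
    rw [norm_mul, RCLike.norm_conj]
    exact mul_le_one₀ (norm_FF_le g h hg _) (norm_nonneg _) (norm_FF_le g h hg _)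
  have hF : ∀ m, S (m + m₀) = D.F m := by
    intro m
    rw [hS]
    unfold FF Sys.F
    simp only []
    rw [map_prod, Fintype.prod_prod_type, ← prod_mul_distrib]
    apply prod_congr rfl
    intro i _
    rw [Fintype.prod_bool]
    have eq1 : ∀ β, (((cf P Q β * (m + m₀) : ℕ) : ℤ) + h i).toNat = D.L (i, β) m := by
      intro β
      have h2 := (bb_cast (cf_pos hP1 hQ1 β) (hm i)).1
      have h3 : (((cf P Q β * (m + m₀) : ℕ) : ℤ) + h i) = ((cf P Q β * m + bb P Q m₀ (h i) β : ℕ) : ℤ) := by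
        push_cast
        rw [h2]
        ring
      rw [h3, Int.toNat_natCast]
      rfl
    have e1 := eq1 true
    have e2 := eq1 false
    simp only [cf] at e1 e2
    rw [e1, e2]
    rfl
  have hW : ∀ m, D.W m = ∏ i, aw (t i) m₀ P Q (h i) m := by
    intro m
    unfold Sys.W
    rw [Fintype.prod_prod_type]
    apply prod_congr rfl
    intro i _
    rw [Fintype.prod_bool]
    rfl
  by_cases hNs : N ≤ 2 * m₀ + 1
  · refine (norm_sum_range_le S hSb N).trans ?_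
    have h1 : (N : ℝ) ≤ 2 * m₀ + 1 := by exact_mod_cast hNs
    have : 0 ≤ ε * X := by positivity
    linarith
  · push Not at hNs
    obtain ⟨y, hy⟩ : ∃ y, N = m₀ + (y + (m₀ + 1)) := ⟨N - (2 * m₀ + 1), by omega⟩
    have hyb : ∀ x : J × Bool, D.a x * y + D.b x ≤ X := by
      rintro ⟨i, β⟩
      rw [hDa, hDb]
      have hlt : cf P Q β * (N - 1) < X := by
        cases β
        · exact (lt_xp_iff X Q (N - 1) hQ.pos).1 (by omega)
        · exact (lt_xp_iff X P (N - 1) hP.pos).1 (by omega)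
      have h2 := (bb_cast (cf_pos hP1 hQ1 β) (hm i)).1
      have h3 := (abs_lt.1 (hm i)).2
      have h4 := cf_pos hP1 hQ1 β
      have h5 : N - 1 = y + m₀ + m₀ := by omega
      rw [h5] at hlt
      have h6 : ((cf P Q β : ℕ) : ℤ) * (y + m₀ + m₀) < X := by exact_mod_cast hlt
      have h7 : (m₀ : ℤ) ≤ (cf P Q β : ℤ) * m₀ := le_mul_of_one_le_left (by positivity) (by exact_mod_cast h4)
      have h8 : ((cf P Q β * y + bb P Q m₀ (h i) β : ℕ) : ℤ) ≤ X := by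
        push_cast
        rw [h2]
        nlinarith
      exact_mod_cast h8
    -- partial summation
    set m₁ : ℕ := ⌈η * X⌉₊ with hm₁
    have hm₁a : η * X ≤ m₁ := Nat.le_ceil _
    have hm₁b : (m₁ : ℝ) ≤ η * X + 1 := (Nat.ceil_lt_add_one (by positivity)).le
    have hm₁1 : 1 ≤ m₁ := by
      have : (1 : ℝ) ≤ m₁ := hη1.trans hm₁a
      exact_mod_cast this
    have hps := psum (fun n => D.F n) (fun n => ∏ i, aw (t i) m₀ P Q (h i) n) (δ := δ * X) (V := V)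
      (y := y) (m₁ := m₁) D.norm_F_le
      (by
        intro n
        rw [norm_prod]
        exact prod_eq_one fun i _ => norm_aw (t i) (hm i) hP1 hQ1 n)
      (by
        intro z hz
        have h1 := hcore' z (fun x => by
          have h2 := hyb x
          have h3 : D.a x * z ≤ D.a x * y := Nat.mul_le_mul_left _ hz
          omega)
        simpa only [hW] using h1)
      (by
        refine (arch_sum t hm hP1 hQ1 ht hm₁1 y).trans ?_
        rw [← hHs, hV]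
        have hm₁pos : (0 : ℝ) < m₁ := by linarith
        rw [div_le_div_iff₀ hm₁pos hη0]
        calc (X : ℝ) * Hs * η = Hs * (η * X) := by ring
          _ ≤ Hs * m₁ := by gcongr)
    have hδV : δ * X * (2 + V) = (ε / 4) * X := by
      rw [hδ]; field_simp
    rw [hδV] at hps
    have hsplit : ∑ m ∈ range N, S m = ∑ m ∈ range m₀, S m
        + (∑ m ∈ range y, D.F m + ∑ m ∈ range (m₀ + 1), S (m₀ + (y + m))) := by
      rw [hy, sum_range_add, sum_range_add]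
      congr 2
      apply sum_congr rfl
      intro m _
      rw [← hF, add_comm m m₀]
    have e1 := norm_sum_range_le S hSb m₀
    have e2 := norm_sum_range_le (fun m => S (m₀ + (y + m))) (fun _ => hSb _) (m₀ + 1)
    push_cast at e2
    show ‖∑ m ∈ range N, S m‖ ≤ ε * X
    rw [hsplit]
    calc _ ≤ ‖∑ m ∈ range m₀, S m‖ + (‖∑ m ∈ range y, D.F m‖ + ‖∑ m ∈ range (m₀ + 1), S (m₀ + (y + m))‖) := by
          refine (norm_add_le _ _).trans ?_
          gcongr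
          exact norm_add_le _ _
      _ ≤ m₀ + ((m₁ + (ε / 4) * X) + (m₀ + 1)) := by gcongr
      _ ≤ ε * X := by
        rw [hη] at hm₁b
        have : 0 ≤ ε * X := by positivity
        linarith

end Pool.Agent.H1.LP
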