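import Pool.Agent.H1.LP.Block
import Pool.Agent.H2.EllMert

/-!
# [H1 LP PARAMS]  choice of the parameters in `block`

Let `m' = max m 1`, `s = 4 m'` (`Pool.H2.Ell.sum_blk_inv`: `∑_{p ∈ blk j} 1/p ≤ 4`), `I = Ico n₀ N'`, `P j = blk j`,
`D j = K (N' - j + 1)`, `K ≥ 1` to be chosen, `i = N' - j ≥ 1`.
* `κ`: `∑_j exp (35 s) / 4^(D j) ≤ exp (35 s) ∑_{i ≥ 1} 4^(-K (i+1)) ≤ exp (35 s) 4^(-K) =: ζ` (as `K (i+1) ≥ K + i`
  and `∑_{i ≥ 1} 4^(-i) ≤ 1`).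
* `η`: `s^(D+1)/(D+1)! ≤ exp (4 s) / 4^(D+1)` (`(4 s)^n / n! ≤ exp (4 s)`, `Real.pow_div_factorial_le_exp`), so
  `∑_j ≤ exp (4 s) 4^(-K) ≤ ζ`.
* `R_j := 1 + ∑_{p ∈ blk j} 2 p^e ≤ 1 + 2 Y(j+1) Y(j+1)^e ≤ Y(j+1)^(e+2)` (`card_blk`, `Y (j+1) ≥ 4`),
  `Y(j+1) = 2^(2^(j+1))`, so `E_T = ∏_j R_j^(D j) ≤ 2^(∑_j 2^(j+1) (e+2) K (N'-j+1)) ≤ 2^(6 (e+2) K 2^N') =
  Y(N')^(6 (e+2) K)`, from `∑_{j ∈ Ico n₀ N'} 2^(j+1) (N'-j+1) ≤ 6 * 2^N'` (induction on `N'`, or the lemma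
  `Pool.H2.Ell.sum_two_pow`).
* `E := Y(N')^(12 (e+2) K + 1)`: `E_T^2 ≤ E`; `Q E_T ≤ Y N' * E_T ≤ E`;
  `(∑ p^e)^(D j + 1) ≤ R_j^(2 D j) ≤ E_T^2` for each `j` (all factors are `≥ 1`), and there are at most
  `N' ≤ Y N'` values of `j`.
* `2^J₀ ≥ 12 (e+2) K + 2`: `X ≥ Y(N'+J₀) = Y(N')^(2^J₀) ≥ E * Y N'`, so `E ≤ X / Y N' ≤ θ X` if `Y N' ≥ 1/θ`
  (`lt_Y : j < Y j`).
* The error of `block` is, for `y ≤ X`, with `τ = ζ + 2 θ ≤ 1`, `exp κ ≤ 3` (`κ = ζ ≤ 1`), at most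
  `X (2 τ + 2 √(τ * 4) + τ) ≤ 7 √τ X ≤ δ X` if `τ ≤ (δ/7)^2` (and `3 + 2θ ≤ 4`).
* `∏_{p ∈ rng n₀ N'} = ∏_{j ∈ Ico n₀ N'} ∏_{p ∈ blk j}`: `Pool.H2.Ell.prod_rng`, `blk_disjoint`.
-/

set_option autoImplicit false

namespace Pool.Agent.H1.LP

open Finset Pool.H2.Ell

private theorem pr_R (e j : ℕ) :
    1 + ∑ p ∈ blk j, 2 * (p : ℝ) ^ e ≤ ((Y (j + 1) : ℕ) : ℝ) ^ (e + 2) := by
  set T : ℝ := ((Y (j + 1) : ℕ) : ℝ) with hT
  have hT4 : 4 ≤ T := by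
    have h1 : 4 ≤ Y (j + 1) := by
      rw [Y_succ]
      have := two_le_Y j
      nlinarith
    rw [hT]
    exact_mod_cast h1
  have h1 : ∑ p ∈ blk j, 2 * (p : ℝ) ^ e ≤ T * (2 * T ^ e) := by
    calc ∑ p ∈ blk j, 2 * (p : ℝ) ^ e ≤ ∑ p ∈ blk j, 2 * T ^ e := by
          apply sum_le_sum
          intro p hp
          have h2 : (p : ℝ) ≤ T := by
            rw [hT]
            exact_mod_cast (mem_blk.1 hp).1.2
          have h3 : (p : ℝ) ^ e ≤ T ^ e := pow_le_pow_left₀ (Nat.cast_nonneg _) h2 e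
          linarith
      _ = (blk j).card * (2 * T ^ e) := by rw [sum_const, nsmul_eq_mul]
      _ ≤ T * (2 * T ^ e) := by
          apply mul_le_mul_of_nonneg_right _ (by positivity)
          rw [hT]
          exact_mod_cast card_blk j
  have h2 : (1 : ℝ) ≤ T ^ (e + 1) := one_le_pow₀ (by linarith)
  have h3 : T ^ (e + 2) = T * T ^ (e + 1) := by ring
  have h4 : T * (2 * T ^ e) = 2 * T ^ (e + 1) := by ring
  rw [h3]
  nlinarith

private theorem pr_sum (n₀ N' : ℕ) :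
    ∑ j ∈ Ico n₀ N', 2 ^ (j + 1) * (N' - j + 1) ≤ 6 * 2 ^ N' := by
  have h1 := sum_two_pow n₀ N'
  have h2 : ∑ j ∈ Ico n₀ N', 2 ^ (j + 2) * (N' - j) = 2 * ∑ j ∈ Ico n₀ N', 2 ^ (j + 1) * (N' - j) := by
    rw [mul_sum]
    refine sum_congr rfl fun j _ => ?_
    ring
  have h3 : ∑ j ∈ Ico n₀ N', 2 ^ (j + 1) ≤ 2 * 2 ^ N' := by
    calc ∑ j ∈ Ico n₀ N', 2 ^ (j + 1) ≤ ∑ j ∈ range N', 2 ^ (j + 1) := by
          apply sum_le_sum_of_subset
          intro j hj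
          rw [mem_range]
          exact (mem_Ico.1 hj).2
      _ = 2 * ∑ j ∈ range N', 2 ^ j := by
          rw [mul_sum]
          refine sum_congr rfl fun j _ => ?_
          ring
      _ ≤ 2 * 2 ^ N' := by
          have := Nat.geomSum_lt (m := 2) (n := N') (s := range N') (by norm_num)
            (fun k hk => mem_range.1 hk)
          omega
  have h4 : ∑ j ∈ Ico n₀ N', 2 ^ (j + 1) * (N' - j + 1) =
      ∑ j ∈ Ico n₀ N', 2 ^ (j + 1) * (N' - j) + ∑ j ∈ Ico n₀ N', 2 ^ (j + 1) := by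
    rw [← sum_add_distrib]
    refine sum_congr rfl fun j _ => ?_
    ring
  have h5 : 2 ^ (N' + 3) = 8 * 2 ^ N' := by ring
  omega

private theorem pr_ET (e K n₀ N' : ℕ) :
    ∏ j ∈ Ico n₀ N', (1 + ∑ p ∈ blk j, 2 * (p : ℝ) ^ e) ^ (K * (N' - j + 1)) ≤
      ((Y N' : ℕ) : ℝ) ^ (6 * (e + 2) * K) := by
  have h0 : ∀ j, 0 ≤ 1 + ∑ p ∈ blk j, 2 * (p : ℝ) ^ e := fun j => by positivity
  calc ∏ j ∈ Ico n₀ N', (1 + ∑ p ∈ blk j, 2 * (p : ℝ) ^ e) ^ (K * (N' - j + 1))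
      ≤ ∏ j ∈ Ico n₀ N', (((Y (j + 1) : ℕ) : ℝ) ^ (e + 2)) ^ (K * (N' - j + 1)) := by
        apply prod_le_prod
        · intro j _
          exact pow_nonneg (h0 j) _
        · intro j _
          exact pow_le_pow_left₀ (h0 j) (pr_R e j) _
    _ = ∏ j ∈ Ico n₀ N', (2 : ℝ) ^ ((e + 2) * K * (2 ^ (j + 1) * (N' - j + 1))) := by
        refine prod_congr rfl fun j _ => ?_
        unfold Y
        push_cast
        rw [← pow_mul, ← pow_mul]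
        congr 1
        ring
    _ = (2 : ℝ) ^ ((e + 2) * K * ∑ j ∈ Ico n₀ N', 2 ^ (j + 1) * (N' - j + 1)) := by
        rw [prod_pow_eq_pow_sum, mul_sum]
    _ ≤ (2 : ℝ) ^ ((e + 2) * K * (6 * 2 ^ N')) := by
        apply pow_le_pow_right₀ (by norm_num)
        exact Nat.mul_le_mul_left _ (pr_sum n₀ N')
    _ = ((Y N' : ℕ) : ℝ) ^ (6 * (e + 2) * K) := by
        unfold Y
        push_cast
        rw [← pow_mul]
        congr 1
        ring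

private theorem pr_one_le (I : Finset ℕ) (f : ℕ → ℝ) (h : ∀ j ∈ I, 1 ≤ f j) : 1 ≤ ∏ j ∈ I, f j :=
  Finset.prod_induction f (fun x => 1 ≤ x) (fun _ _ ha hb => one_le_mul_of_one_le_of_one_le ha hb)
    le_rfl h

private theorem pr_geom0 (n₀ N' : ℕ) (h : n₀ ≤ N') :
    ∑ j ∈ Ico n₀ N', (1 / 4 : ℝ) ^ (N' - j) ≤ 1 := by
  induction N', h using Nat.le_induction with
  | base => simp
  | succ N' hN ih =>
    rw [sum_Ico_succ_top hN]
    have h1 : ∑ j ∈ Ico n₀ N', (1 / 4 : ℝ) ^ (N' + 1 - j) =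
        (1 / 4) * ∑ j ∈ Ico n₀ N', (1 / 4 : ℝ) ^ (N' - j) := by
      rw [mul_sum]
      refine sum_congr rfl fun j hj => ?_
      have := (mem_Ico.1 hj).2
      rw [show N' + 1 - j = (N' - j) + 1 by omega]
      ring
    rw [h1, show N' + 1 - N' = 1 by omega]
    linarith

private theorem pr_geom (K n₀ N' : ℕ) (hK : 1 ≤ K) (h : n₀ ≤ N') :
    ∑ j ∈ Ico n₀ N', (1 : ℝ) / 4 ^ (K * (N' - j + 1)) ≤ 1 / 4 ^ K := by
  calc ∑ j ∈ Ico n₀ N', (1 : ℝ) / 4 ^ (K * (N' - j + 1))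
      ≤ ∑ j ∈ Ico n₀ N', (1 : ℝ) / 4 ^ K * (1 / 4) ^ (N' - j) := by
        apply sum_le_sum
        intro j _
        rw [one_div_pow, one_div_mul_one_div, ← pow_add]
        apply one_div_le_one_div_of_le (by positivity)
        apply pow_le_pow_right₀ (by norm_num)
        have h1 : 1 * (N' - j) ≤ K * (N' - j) := Nat.mul_le_mul_right _ hK
        have h2 : K * (N' - j + 1) = K * (N' - j) + K := by ring
        omega
    _ = 1 / 4 ^ K * ∑ j ∈ Ico n₀ N', (1 / 4 : ℝ) ^ (N' - j) := by rw [mul_sum]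
    _ ≤ 1 / 4 ^ K * 1 := mul_le_mul_of_nonneg_left (pr_geom0 n₀ N' h) (by positivity)
    _ = 1 / 4 ^ K := mul_one _

private theorem pr_fac (s : ℝ) (hs : 0 ≤ s) (D : ℕ) :
    s ^ (D + 1) / ((D + 1).factorial : ℝ) ≤ Real.exp (35 * s) / 4 ^ D := by
  have h1 := Real.pow_div_factorial_le_exp (4 * s) (by positivity) (D + 1)
  have h2 : s ^ (D + 1) / ((D + 1).factorial : ℝ) =
      ((4 * s) ^ (D + 1) / ((D + 1).factorial : ℝ)) / 4 ^ (D + 1) := by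
    rw [mul_pow]
    field_simp
  rw [h2]
  have h3 : Real.exp (4 * s) ≤ Real.exp (35 * s) := Real.exp_le_exp.2 (by linarith)
  have h4 : (4 : ℝ) ^ D ≤ 4 ^ (D + 1) := pow_le_pow_right₀ (by norm_num) (by omega)
  exact div_le_div₀ (Real.exp_pos _).le (h1.trans h3) (by positivity) h4

theorem params (e m : ℕ) {δ : ℝ} (hδ : 0 < δ) : ∃ J₀ N₀ : ℕ, ∀ (n₀ N' X Q : ℕ) (φ : ℕ → ℕ → ℂ) (G : ℕ → ℂ),
    n₀ ≤ N' → N₀ ≤ N' → Y (N' + J₀) ≤ X → 0 < Q → Q ≤ Y N' → (∀ p ∈ rng n₀ N', ¬ p ∣ Q) →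
    (∀ j ∈ Ico n₀ N', Loc e m (blk j) φ) → Function.Periodic G Q → (∀ n, ‖G n‖ ≤ 1) → ∀ y ≤ X,
    ‖∑ n ∈ range y, G n * ∏ p ∈ rng n₀ N', (1 + φ p n)
        - y * (mean Q G * ∏ p ∈ rng n₀ N', (1 + mean (p ^ e) (φ p)))‖ ≤ δ * X := by
  -- the constants
  set s : ℝ := 4 * m with hs
  have hs0 : 0 ≤ s := by positivity
  set τ0 : ℝ := min 1 ((δ / 7) ^ 2) with hτ0
  have hτ0p : 0 < τ0 := lt_min one_pos (by positivity)
  have hτ01 : τ0 ≤ 1 := min_le_left _ _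
  have hτ02 : τ0 ≤ (δ / 7) ^ 2 := min_le_right _ _
  obtain ⟨K0, hK0⟩ := exists_pow_lt_of_lt_one (show (0 : ℝ) < τ0 / 3 / Real.exp (35 * s) by positivity)
    (show (1 / 4 : ℝ) < 1 by norm_num)
  set K : ℕ := K0 + 1 with hK
  have hK1 : 1 ≤ K := by omega
  set ζ : ℝ := Real.exp (35 * s) / 4 ^ K with hζ
  have hζ0 : 0 ≤ ζ := by positivity
  have hζ1 : ζ ≤ τ0 / 3 := by
    have h1 : (1 / 4 : ℝ) ^ K ≤ (1 / 4) ^ K0 :=
      pow_le_pow_of_le_one (by norm_num) (by norm_num) (by omega)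
    have h2 : ζ = Real.exp (35 * s) * (1 / 4) ^ K := by
      rw [hζ, one_div_pow]
      ring
    have h3 : Real.exp (35 * s) * (1 / 4) ^ K ≤
        Real.exp (35 * s) * (τ0 / 3 / Real.exp (35 * s)) :=
      mul_le_mul_of_nonneg_left (h1.trans hK0.le) (Real.exp_pos _).le
    rw [h2]
    refine h3.trans (le_of_eq ?_)
    field_simp
  set θ : ℝ := τ0 / 3 with hθ
  have hθ0 : 0 < θ := by positivity
  set a : ℕ := 12 * (e + 2) * K + 1 with ha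
  obtain ⟨N₀, hN₀⟩ := exists_nat_ge (1 / θ)
  refine ⟨a + 1, N₀, ?_⟩
  intro n₀ N' X Q φ G hn₀ hNN hX hQ hQY hQp hL hG hG1 y hy
  set D : ℕ → ℕ := fun j => K * (N' - j + 1) with hD
  set E : ℝ := ((Y N' : ℕ) : ℝ) ^ a with hE
  have hY1 : (1 : ℝ) ≤ ((Y N' : ℕ) : ℝ) := by
    exact_mod_cast Y_pos N'
  have hE0 : 0 ≤ E := by positivity
  -- the bound of `E`
  have hEX : E ≤ θ * X := by
    have h1 : ((Y N' : ℕ) : ℝ) ^ (a + 1) ≤ X := by
      have h2 : Y N' ^ (a + 1) ≤ Y (N' + (a + 1)) := by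
        unfold Y
        rw [← pow_mul, pow_add]
        apply Nat.pow_le_pow_right (by norm_num)
        exact Nat.mul_le_mul_left _ Nat.lt_two_pow_self.le
      exact_mod_cast h2.trans hX
    have h3 : 1 / θ ≤ ((Y N' : ℕ) : ℝ) := by
      have h4 : (N₀ : ℝ) ≤ N' := by exact_mod_cast hNN
      have h5 : (N' : ℝ) ≤ ((Y N' : ℕ) : ℝ) := by exact_mod_cast (lt_Y N').le
      linarith
    have h6 : E * (1 / θ) ≤ X := by
      calc E * (1 / θ) ≤ E * ((Y N' : ℕ) : ℝ) := mul_le_mul_of_nonneg_left h3 hE0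
        _ = ((Y N' : ℕ) : ℝ) ^ (a + 1) := by
            rw [hE]
            exact (pow_succ _ _).symm
        _ ≤ X := h1
    have h7 : E = θ * (E * (1 / θ)) := by field_simp
    rw [h7]
    exact mul_le_mul_of_nonneg_left h6 hθ0.le
  set ET : ℝ := ∏ j ∈ Ico n₀ N', (1 + ∑ p ∈ blk j, 2 * (p : ℝ) ^ e) ^ D j with hET
  have hETle : ET ≤ ((Y N' : ℕ) : ℝ) ^ (6 * (e + 2) * K) := pr_ET e K n₀ N'
  have hR1 : ∀ j, 1 ≤ 1 + ∑ p ∈ blk j, 2 * (p : ℝ) ^ e := fun j => by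
    have : 0 ≤ ∑ p ∈ blk j, 2 * (p : ℝ) ^ e := by positivity
    linarith
  have hET0 : 0 ≤ ET := prod_nonneg fun j _ => pow_nonneg (by linarith [hR1 j]) _
  have hET2 : ET ^ 2 * ((Y N' : ℕ) : ℝ) ≤ E := by
    calc ET ^ 2 * ((Y N' : ℕ) : ℝ)
        ≤ (((Y N' : ℕ) : ℝ) ^ (6 * (e + 2) * K)) ^ 2 * ((Y N' : ℕ) : ℝ) := by gcongr
      _ = E := by
          rw [hE, ha, ← pow_mul, ← pow_succ]
          congr 1
          ring
  have hb := block (Ico n₀ N') blk (fun i _ j _ hij => blk_disjoint hij) D hL hQ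
    (fun j hj p hp => hQp p (by
      unfold rng
      exact mem_biUnion.2 ⟨j, hj, hp⟩)) hG hG1 (s := s) (κ := ζ) (η := ζ) (E := E) ?_ ?_ ?_ ?_ ?_ ?_ y
  · -- conclusion
    have e1 : ∀ n, ∏ p ∈ rng n₀ N', (1 + φ p n) = ∏ j ∈ Ico n₀ N', Hp (blk j) φ n := by
      intro n
      rw [prod_rng]
      rfl
    rw [prod_rng]
    simp only [e1]
    refine hb.trans ?_
    have hyX : (y : ℝ) ≤ X := by exact_mod_cast hy
    have hX0 : (0 : ℝ) ≤ X := Nat.cast_nonneg _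
    have hy0 : (0 : ℝ) ≤ y := Nat.cast_nonneg _
    set τ : ℝ := ζ + 2 * θ with hτ
    have hτp : 0 < τ := by positivity
    have hττ : τ ≤ τ0 := by
      rw [hτ, hθ]
      linarith
    have c1 : y * ζ + 2 * E ≤ τ * X := by
      have : (y : ℝ) * ζ ≤ X * ζ := mul_le_mul_of_nonneg_right hyX hζ0
      rw [hτ]
      linarith
    have c0 : 0 ≤ y * ζ + 2 * E := by positivity
    have hexp : Real.exp ζ ≤ 3 := by
      have h1 : Real.exp ζ ≤ Real.exp 1 := Real.exp_le_exp.2 (by linarith)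
      linarith [Real.exp_one_lt_d9]
    have c2 : y * Real.exp ζ + 2 * E ≤ 4 * X := by
      have h1 : (y : ℝ) * Real.exp ζ ≤ X * 3 := mul_le_mul hyX hexp (Real.exp_pos _).le hX0
      have h2 : 2 * E ≤ X := by
        have : θ * X ≤ 1 / 3 * X := mul_le_mul_of_nonneg_right (by rw [hθ]; linarith) hX0
        linarith
      linarith
    have c3 : Real.sqrt ((y * ζ + 2 * E) * (y * Real.exp ζ + 2 * E)) ≤ 2 * Real.sqrt τ * X := by
      apply Real.sqrt_le_iff.2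
      refine ⟨by positivity, ?_⟩
      calc (y * ζ + 2 * E) * (y * Real.exp ζ + 2 * E) ≤ (τ * X) * (4 * X) :=
            mul_le_mul c1 c2 (by positivity) (by positivity)
        _ = (2 * Real.sqrt τ * X) ^ 2 := by
            rw [mul_pow, mul_pow, Real.sq_sqrt hτp.le]
            ring
    have c4 : τ ≤ Real.sqrt τ := by
      apply Real.le_sqrt_of_sq_le
      rw [sq]
      exact mul_le_of_le_one_right hτp.le (hττ.trans hτ01)
    have c5 : Real.sqrt τ ≤ δ / 7 := by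
      apply Real.sqrt_le_iff.2
      exact ⟨by positivity, by linarith⟩
    have c6 : 2 * E ≤ τ * X := by
      have : 0 ≤ (y : ℝ) * ζ := by positivity
      linarith
    have c7 : τ * X ≤ Real.sqrt τ * X := mul_le_mul_of_nonneg_right c4 hX0
    have c8 : Real.sqrt τ * X ≤ δ / 7 * X := mul_le_mul_of_nonneg_right c5 hX0
    have c9 : 2 * Real.sqrt τ * X = 2 * (Real.sqrt τ * X) := by ring
    rw [c9] at c3
    have c10 : δ / 7 * X = (δ * X) / 7 := by ring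
    rw [c10] at c8
    linarith
  · -- the sum of `m/p`
    intro j _
    have h1 := sum_blk_inv j
    have h2 : ∑ p ∈ blk j, (m : ℝ) / p = m * ∑ p ∈ blk j, (1 : ℝ) / p := by
      rw [mul_sum]
      refine sum_congr rfl fun p _ => ?_
      ring
    rw [h2, hs]
    have := mul_le_mul_of_nonneg_left h1 (Nat.cast_nonneg (α := ℝ) m)
    linarith
  · -- `κ`
    have h1 : ∑ j ∈ Ico n₀ N', Real.exp (35 * s) / 4 ^ D j =
        Real.exp (35 * s) * ∑ j ∈ Ico n₀ N', (1 : ℝ) / 4 ^ (K * (N' - j + 1)) := by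
      rw [mul_sum]
      refine sum_congr rfl fun j _ => ?_
      rw [hD]
      ring
    rw [h1, hζ, div_eq_mul_one_div]
    exact mul_le_mul_of_nonneg_left (pr_geom K n₀ N' hK1 hn₀) (Real.exp_pos _).le
  · -- `η`
    have h1 : ∑ j ∈ Ico n₀ N', s ^ (D j + 1) / ((D j + 1).factorial : ℝ) ≤
        ∑ j ∈ Ico n₀ N', Real.exp (35 * s) / 4 ^ D j := sum_le_sum fun j _ => pr_fac s hs0 (D j)
    refine h1.trans ?_
    have h1 : ∑ j ∈ Ico n₀ N', Real.exp (35 * s) / 4 ^ D j =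
        Real.exp (35 * s) * ∑ j ∈ Ico n₀ N', (1 : ℝ) / 4 ^ (K * (N' - j + 1)) := by
      rw [mul_sum]
      refine sum_congr rfl fun j _ => ?_
      rw [hD]
      ring
    rw [h1, hζ, div_eq_mul_one_div (Real.exp (35 * s)) (4 ^ K)]
    exact mul_le_mul_of_nonneg_left (pr_geom K n₀ N' hK1 hn₀) (Real.exp_pos _).le
  · -- `E1`
    have hj : ∀ j ∈ Ico n₀ N', (∑ p ∈ blk j, (p : ℝ) ^ e) ^ (D j + 1) ≤ ET ^ 2 := by
      intro j hj
      have h0 : 0 ≤ ∑ p ∈ blk j, (p : ℝ) ^ e := by positivity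
      have h1 : ∑ p ∈ blk j, (p : ℝ) ^ e ≤ 1 + ∑ p ∈ blk j, 2 * (p : ℝ) ^ e := by
        rw [← mul_sum]
        linarith
      have hDj : 1 ≤ D j := by
        exact Nat.mul_pos (by omega) (by omega)
      calc (∑ p ∈ blk j, (p : ℝ) ^ e) ^ (D j + 1)
          ≤ (1 + ∑ p ∈ blk j, 2 * (p : ℝ) ^ e) ^ (D j + 1) := pow_le_pow_left₀ h0 h1 _
        _ ≤ (1 + ∑ p ∈ blk j, 2 * (p : ℝ) ^ e) ^ (2 * D j) :=
            pow_le_pow_right₀ (hR1 j) (by omega)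
        _ = ((1 + ∑ p ∈ blk j, 2 * (p : ℝ) ^ e) ^ D j) ^ 2 := by
            rw [← pow_mul]
            congr 1
            ring
        _ ≤ ET ^ 2 := by
            apply pow_le_pow_left₀ (pow_nonneg (by linarith [hR1 j]) _)
            rw [hET, ← mul_prod_erase _ _ hj]
            exact le_mul_of_one_le_right (pow_nonneg (by linarith [hR1 j]) _)
              (pr_one_le _ _ fun i _ => one_le_pow₀ (hR1 i))
    calc ∑ j ∈ Ico n₀ N', (∑ p ∈ blk j, (p : ℝ) ^ e) ^ (D j + 1)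
        ≤ ∑ j ∈ Ico n₀ N', ET ^ 2 := sum_le_sum hj
      _ = ((N' - n₀ : ℕ) : ℝ) * ET ^ 2 := by rw [sum_const, Nat.card_Ico, nsmul_eq_mul]
      _ ≤ ((Y N' : ℕ) : ℝ) * ET ^ 2 := by
          apply mul_le_mul_of_nonneg_right _ (by positivity)
          have : N' - n₀ ≤ Y N' := le_trans (by omega) (lt_Y N').le
          exact_mod_cast this
      _ = ET ^ 2 * ((Y N' : ℕ) : ℝ) := by ring
      _ ≤ E := hET2
  · -- `E2`
    calc ET ^ 2 ≤ ET ^ 2 * ((Y N' : ℕ) : ℝ) := le_mul_of_one_le_right (by positivity) hY1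
      _ ≤ E := hET2
  · -- `E3`
    have hET1 : 1 ≤ ET := by
      rw [hET]
      exact pr_one_le _ _ fun j _ => one_le_pow₀ (hR1 j)
    calc (Q : ℝ) * ET ≤ ((Y N' : ℕ) : ℝ) * ET :=
          mul_le_mul_of_nonneg_right (by exact_mod_cast hQY) hET0
      _ ≤ ((Y N' : ℕ) : ℝ) * ET ^ 2 := by
          apply mul_le_mul_of_nonneg_left _ (by positivity)
          rw [sq]
          exact le_mul_of_one_le_right hET0 hET1
      _ = ET ^ 2 * ((Y N' : ℕ) : ℝ) := by ring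
      _ ≤ E := hET2

end Pool.Agent.H1.LP
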