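import Pool.Agent.H1.LP.Mean

/-!
# [H1 LP REP]  sums of periodic functions of small period

`Rep.mul`: index set `ι₁ × ι₂`, period `lcm (d₁, d₂)` (divides `N`, at most `d₁ d₂`), bound `c₁ c₂`.
`Rep.sum_sub_mean`: `sum_sub_mean` for each term, with `mean N (u j) = mean (d j) (u j)` (`mean_dvd`).
-/

set_option autoImplicit false

namespace Pool.Agent.H1.LP

open Finset Pool.H2.Ell

theorem Rep.nonneg {N : ℕ} {ψ : ℕ → ℂ} {E : ℝ} (h : Rep N ψ E) : 0 ≤ E := by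
  obtain ⟨ι, _, d, c, u, hd, hp, hc, hs, hE⟩ := h
  refine le_trans (Finset.sum_nonneg (fun j _ => ?_)) hE
  exact mul_nonneg ((norm_nonneg _).trans (hc j 0)) (Nat.cast_nonneg _)

theorem Rep.mono {N : ℕ} {ψ : ℕ → ℂ} {E E' : ℝ} (h : Rep N ψ E) (hE : E ≤ E') : Rep N ψ E' := by
  obtain ⟨ι, i, d, c, u, hd, hp, hc, hs, hE'⟩ := h
  exact ⟨ι, i, d, c, u, hd, hp, hc, hs, hE'.trans hE⟩

theorem Rep.of_periodic {N d : ℕ} (hd : 0 < d) (hdN : d ∣ N) {ψ : ℕ → ℂ}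
    (hψ : Function.Periodic ψ d) {c : ℝ} (hc : ∀ n, ‖ψ n‖ ≤ c) : Rep N ψ (c * d) := by
  refine ⟨Unit, inferInstance, fun _ => d, fun _ => c, fun _ => ψ, fun _ => ⟨hd, hdN⟩,
    fun _ => hψ, fun _ n => hc n, fun n => ?_, ?_⟩
  · simp
  · simp

theorem periodic_of_dvd {f : ℕ → ℂ} {d e : ℕ} (h : Function.Periodic f d) (hde : d ∣ e) :
    Function.Periodic f e := by
  obtain ⟨k, rfl⟩ := hde
  have := h.nsmul k
  rwa [smul_eq_mul, mul_comm] at this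

theorem Rep.mul {N : ℕ} {ψ₁ ψ₂ : ℕ → ℂ} {E₁ E₂ : ℝ} (h₁ : Rep N ψ₁ E₁) (h₂ : Rep N ψ₂ E₂) :
    Rep N (fun n => ψ₁ n * ψ₂ n) (E₁ * E₂) := by
  obtain ⟨ι₁, i₁, d₁, c₁, u₁, hd₁, hp₁, hc₁, hs₁, hE₁⟩ := h₁
  obtain ⟨ι₂, i₂, d₂, c₂, u₂, hd₂, hp₂, hc₂, hs₂, hE₂⟩ := h₂
  have hc1 : ∀ j, 0 ≤ c₁ j := fun j => (norm_nonneg _).trans (hc₁ j 0)
  have hc2 : ∀ j, 0 ≤ c₂ j := fun j => (norm_nonneg _).trans (hc₂ j 0)
  refine ⟨ι₁ × ι₂, inferInstance, fun j => Nat.lcm (d₁ j.1) (d₂ j.2), fun j => c₁ j.1 * c₂ j.2,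
    fun j n => u₁ j.1 n * u₂ j.2 n, fun j => ⟨?_, ?_⟩, fun j => ?_, fun j n => ?_, fun n => ?_, ?_⟩
  · exact Nat.lcm_pos (hd₁ j.1).1 (hd₂ j.2).1
  · exact Nat.lcm_dvd (hd₁ j.1).2 (hd₂ j.2).2
  · have a1 : Function.Periodic (u₁ j.1) (Nat.lcm (d₁ j.1) (d₂ j.2)) :=
      periodic_of_dvd (hp₁ j.1) (Nat.dvd_lcm_left _ _)
    have a2 : Function.Periodic (u₂ j.2) (Nat.lcm (d₁ j.1) (d₂ j.2)) :=
      periodic_of_dvd (hp₂ j.2) (Nat.dvd_lcm_right _ _)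
    intro n
    beta_reduce
    rw [a1 n, a2 n]
  · rw [norm_mul]
    exact mul_le_mul (hc₁ _ _) (hc₂ _ _) (norm_nonneg _) (hc1 _)
  · beta_reduce
    rw [hs₁ n, hs₂ n, Finset.sum_mul_sum, Fintype.sum_prod_type]
  · have h3 : ∑ j : ι₁ × ι₂, c₁ j.1 * c₂ j.2 * (Nat.lcm (d₁ j.1) (d₂ j.2) : ℝ) ≤
        (∑ j, c₁ j * d₁ j) * ∑ j, c₂ j * d₂ j := by
      rw [Finset.sum_mul_sum, Fintype.sum_prod_type]
      refine Finset.sum_le_sum (fun a _ => Finset.sum_le_sum (fun e _ => ?_))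
      have h4 : ((Nat.lcm (d₁ a) (d₂ e) : ℕ) : ℝ) ≤ (d₁ a : ℝ) * d₂ e := by
        have : Nat.lcm (d₁ a) (d₂ e) ≤ d₁ a * d₂ e :=
          Nat.le_of_dvd (Nat.mul_pos (hd₁ a).1 (hd₂ e).1) (Nat.lcm_dvd_mul _ _)
        exact_mod_cast this
      calc c₁ a * c₂ e * (Nat.lcm (d₁ a) (d₂ e) : ℝ) ≤ c₁ a * c₂ e * ((d₁ a : ℝ) * d₂ e) :=
            mul_le_mul_of_nonneg_left h4 (mul_nonneg (hc1 a) (hc2 e))
        _ = c₁ a * d₁ a * (c₂ e * d₂ e) := by ring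
    have h5 : 0 ≤ ∑ j, c₁ j * (d₁ j : ℝ) :=
      Finset.sum_nonneg (fun j _ => mul_nonneg (hc1 j) (Nat.cast_nonneg _))
    have h6 : 0 ≤ ∑ j, c₂ j * (d₂ j : ℝ) :=
      Finset.sum_nonneg (fun j _ => mul_nonneg (hc2 j) (Nat.cast_nonneg _))
    exact h3.trans (mul_le_mul hE₁ hE₂ h6 (h5.trans hE₁))

theorem Rep.conj {N : ℕ} {ψ : ℕ → ℂ} {E : ℝ} (h : Rep N ψ E) :
    Rep N (fun n => (starRingEnd ℂ) (ψ n)) E := by
  obtain ⟨ι, i, d, c, u, hd, hp, hc, hs, hE'⟩ := h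
  refine ⟨ι, i, d, c, fun j n => (starRingEnd ℂ) (u j n), hd, fun j n => ?_, fun j n => ?_,
    fun n => ?_, hE'⟩
  · beta_reduce
    rw [hp j n]
  · rw [RCLike.norm_conj]
    exact hc j n
  · beta_reduce
    rw [hs n, map_sum]

theorem Rep.zero (N : ℕ) : Rep N (fun _ => 0) 0 := by
  refine ⟨Empty, inferInstance, fun j => j.elim, fun j => j.elim, fun j => j.elim,
    fun j => j.elim, fun j => j.elim, fun j => j.elim, fun n => ?_, ?_⟩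
  · simp
  · simp

theorem Rep.add {N : ℕ} {ψ₁ ψ₂ : ℕ → ℂ} {E₁ E₂ : ℝ} (h₁ : Rep N ψ₁ E₁) (h₂ : Rep N ψ₂ E₂) :
    Rep N (fun n => ψ₁ n + ψ₂ n) (E₁ + E₂) := by
  obtain ⟨ι₁, i₁, d₁, c₁, u₁, hd₁, hp₁, hc₁, hs₁, hE₁⟩ := h₁
  obtain ⟨ι₂, i₂, d₂, c₂, u₂, hd₂, hp₂, hc₂, hs₂, hE₂⟩ := h₂
  refine ⟨ι₁ ⊕ ι₂, inferInstance, Sum.elim d₁ d₂, Sum.elim c₁ c₂, Sum.elim u₁ u₂, fun j => ?_,
    fun j => ?_, fun j n => ?_, fun n => ?_, ?_⟩
  · rcases j with j | j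
    · exact hd₁ j
    · exact hd₂ j
  · rcases j with j | j
    · exact hp₁ j
    · exact hp₂ j
  · rcases j with j | j
    · exact hc₁ j n
    · exact hc₂ j n
  · rw [Fintype.sum_sum_type]
    simp only [Sum.elim_inl, Sum.elim_inr]
    rw [hs₁ n, hs₂ n]
  · rw [Fintype.sum_sum_type]
    simp only [Sum.elim_inl, Sum.elim_inr]
    exact add_le_add hE₁ hE₂

theorem Rep.sum {N : ℕ} {κ : Type} (s : Finset κ) {ψ : κ → ℕ → ℂ} {E : κ → ℝ}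
    (h : ∀ i ∈ s, Rep N (ψ i) (E i)) : Rep N (fun n => ∑ i ∈ s, ψ i n) (∑ i ∈ s, E i) := by
  classical
  induction s using Finset.induction_on with
  | empty =>
    simp only [Finset.sum_empty]
    exact Rep.zero N
  | insert a s ha ih =>
    simp only [Finset.sum_insert ha]
    exact Rep.add (h a (Finset.mem_insert_self a s))
      (ih (fun i hi => h i (Finset.mem_insert_of_mem hi)))

theorem Rep.prod {N : ℕ} {κ : Type} (s : Finset κ) {ψ : κ → ℕ → ℂ} {E : κ → ℝ}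
    (h : ∀ i ∈ s, Rep N (ψ i) (E i)) : Rep N (fun n => ∏ i ∈ s, ψ i n) (∏ i ∈ s, E i) := by
  classical
  induction s using Finset.induction_on with
  | empty =>
    simp only [Finset.prod_empty]
    have := Rep.of_periodic (N := N) (d := 1) one_pos (one_dvd N) (ψ := fun _ => 1)
      (fun n => rfl) (c := 1) (fun n => by simp)
    simpa using this
  | insert a s ha ih =>
    simp only [Finset.prod_insert ha]
    exact Rep.mul (h a (Finset.mem_insert_self a s))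
      (ih (fun i hi => h i (Finset.mem_insert_of_mem hi)))

theorem Rep.sum_sub_mean {N : ℕ} (hN : 0 < N) {ψ : ℕ → ℂ} {E : ℝ} (h : Rep N ψ E) (y : ℕ) :
    ‖∑ n ∈ range y, ψ n - y * mean N ψ‖ ≤ 2 * E := by
  obtain ⟨ι, i, d, c, u, hd, hp, hc, hs, hE⟩ := h
  have h1 : mean N ψ = ∑ j, mean (d j) (u j) := by
    have h2 : ∀ j, mean (d j) (u j) = mean N (u j) := fun j =>
      (mean_dvd (hd j).1 hN (hd j).2 (hp j)).symm
    simp_rw [h2]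
    unfold mean
    rw [← Finset.sum_div]
    congr 1
    rw [Finset.sum_comm]
    exact Finset.sum_congr rfl (fun n _ => hs n)
  have h3 : ∑ n ∈ range y, ψ n - y * mean N ψ =
      ∑ j, (∑ n ∈ range y, u j n - y * mean (d j) (u j)) := by
    rw [Finset.sum_sub_distrib, h1, Finset.mul_sum, Finset.sum_comm]
    congr 1
    exact Finset.sum_congr rfl (fun n _ => hs n)
  rw [h3]
  calc ‖∑ j, (∑ n ∈ range y, u j n - y * mean (d j) (u j))‖ ≤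
      ∑ j, ‖∑ n ∈ range y, u j n - y * mean (d j) (u j)‖ := norm_sum_le _ _
    _ ≤ ∑ j, 2 * (c j * d j) :=
      Finset.sum_le_sum (fun j _ => _root_.Pool.Agent.H1.LP.sum_sub_mean (hd j).1 (hp j) (hc j) y)
    _ = 2 * ∑ j, c j * d j := by rw [Finset.mul_sum]
    _ ≤ 2 * E := by linarith

end Pool.Agent.H1.LP
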