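import Pool.Agent.H1.LP.Rep

/-!
# [H1 LP TRUNC]  the truncated local product

Let `Z n = {p ∈ P | φ p n ≠ 0}`, `om P φ n = card (Z n)`.  `∏_{p ∈ S} φ p n = 0` unless `S ⊆ Z n`.
* `Tp_eq`: `∏_{p ∈ P} (1 + φ) = ∑_{S ⊆ P} ∏_{p ∈ S} φ` (`Finset.prod_one_add`) and the terms with
  `S.card > D ≥ om` vanish.
* `norm_Tp_le`: `‖φ p n‖ ≤ 2`, so `‖Tp‖ ≤ ∑_{S ⊆ Z n} 2^|S| = 3^om` (`Finset.prod_one_add` for the constant `2`).
* `norm_Tp_sq_le`: if `om ≤ D` then `Tp = Hp` has norm `≤ 1`; else `‖Tp‖^2 ≤ 9^om ≤ 9^om 4^(om - D)`.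
* `rep_Tp`: each `∏_{p ∈ S} φ p n` has period `∏_{p ∈ S} p^e` and norm `≤ 2^|S|`; by `Rep.of_periodic`, `Rep.sum`
  the weight is `∑_{S, |S| ≤ D} ∏_{p ∈ S} 2 p^e ≤ ∑_{j ≤ D} x^j ≤ (1 + x)^D`, `x = ∑_{p ∈ P} 2 p^e`
  (`∑_{S ∈ powersetCard j P} ∏_{p ∈ S} x_p ≤ x^j`, `Finset.prod_powersetCard_le` or induction;
  `sum_pow_le` in `Pool/Agent/H2/EllPoly.lean`).
-/

set_option autoImplicit false

namespace Pool.Agent.H1.LP

open Finset Pool.H2.Ell

theorem trunc_bern (s x : ℝ) (hs : 0 ≤ s) (hx : 0 ≤ x) (j : ℕ) :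
    s ^ (j + 1) + (j + 1) * x * s ^ j ≤ (x + s) ^ (j + 1) := by
  induction j with
  | zero => simp; linarith
  | succ j ih =>
    have h1 : (s ^ (j + 1) + (j + 1) * x * s ^ j) * (x + s) ≤ (x + s) ^ (j + 1) * (x + s) :=
      mul_le_mul_of_nonneg_right ih (by linarith)
    have h2 : 0 ≤ (j + 1) * x * s ^ j * x := by positivity
    have e : (s ^ (j + 1) + (j + 1) * x * s ^ j) * (x + s) =
        s ^ (j + 1 + 1) + ((j : ℝ) + 1 + 1) * x * s ^ (j + 1) + (j + 1) * x * s ^ j * x := by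
      ring
    rw [e] at h1
    rw [pow_succ (x + s) (j + 1)]
    push_cast
    linarith

/-- elementary symmetric functions of nonnegative numbers -/
theorem esymm_le (P : Finset ℕ) (x : ℕ → ℝ) (hx : ∀ p ∈ P, 0 ≤ x p) (j : ℕ) :
    ∑ S ∈ P.powersetCard j, ∏ p ∈ S, x p ≤ (∑ p ∈ P, x p) ^ j / (j.factorial : ℝ) := by
  change esy P j x ≤ _
  induction P using Finset.induction_on generalizing j with
  | empty =>
    cases j with
    | zero => simp [esy_zero]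
    | succ j => simp [esy_empty_succ]
  | insert p B hp ih =>
    have hB : ∀ p ∈ B, 0 ≤ x p := fun p' hp' => hx p' (mem_insert_of_mem hp')
    have hxp := hx p (mem_insert_self _ _)
    have hS : 0 ≤ ∑ p ∈ B, x p := sum_nonneg hB
    cases j with
    | zero => simp [esy_zero]
    | succ j =>
      rw [esy_insert B j x hp, sum_insert hp]
      have h1 := ih hB (j + 1)
      have h2 := ih hB j
      set T := ∑ p ∈ B, x p with hT
      have hf : (0 : ℝ) < ((j + 1).factorial : ℝ) := by exact_mod_cast Nat.factorial_pos _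
      have hf0 : (0 : ℝ) < (j.factorial : ℝ) := by exact_mod_cast Nat.factorial_pos _
      have e : ((j + 1).factorial : ℝ) = (j + 1) * (j.factorial : ℝ) := by
        rw [Nat.factorial_succ]
        push_cast
        ring
      calc esy B (j + 1) x + x p * esy B j x
          ≤ T ^ (j + 1) / ((j + 1).factorial : ℝ) + x p * (T ^ j / (j.factorial : ℝ)) := by
            gcongr
        _ = (T ^ (j + 1) + (j + 1) * x p * T ^ j) / ((j + 1).factorial : ℝ) := by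
            rw [e]
            field_simp
        _ ≤ (x p + T) ^ (j + 1) / ((j + 1).factorial : ℝ) :=
            div_le_div_of_nonneg_right (trunc_bern T (x p) hS hxp j) hf.le

open Classical in
theorem trunc_zero (φ : ℕ → ℕ → ℂ) (P : Finset ℕ) (n : ℕ) (S : Finset ℕ) (hS : S ⊆ P)
    (h : ∏ p ∈ S, φ p n ≠ 0) : S.card ≤ om P φ n := by
  unfold om
  apply card_le_card
  intro p hp
  exact mem_filter.2 ⟨hS hp, (prod_ne_zero_iff.1 h) p hp⟩

theorem Tp_eq (P : Finset ℕ) (D : ℕ) (φ : ℕ → ℕ → ℂ) (n : ℕ) (h : om P φ n ≤ D) :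
    Tp P D φ n = Hp P φ n := by
  unfold Tp Hp
  rw [prod_one_add]
  apply sum_filter_of_ne
  intro S hS hne
  exact (trunc_zero φ P n S (mem_powerset.1 hS) hne).trans h

theorem norm_Hp_le (P : Finset ℕ) (φ : ℕ → ℕ → ℂ) (n : ℕ) (hbd : ∀ p ∈ P, ‖1 + φ p n‖ ≤ 1) :
    ‖Hp P φ n‖ ≤ 1 := by
  unfold Hp
  rw [norm_prod]
  exact prod_le_one (fun p _ => norm_nonneg _) hbd

theorem trunc_phi_le {z : ℂ} (h : ‖1 + z‖ ≤ 1) : ‖z‖ ≤ 2 := by
  have e : z = (1 + z) - 1 := by ring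
  rw [e]
  refine (norm_sub_le _ _).trans ?_
  rw [norm_one]
  linarith

theorem norm_Tp_le (P : Finset ℕ) (D : ℕ) (φ : ℕ → ℕ → ℂ) (n : ℕ)
    (hbd : ∀ p ∈ P, ‖1 + φ p n‖ ≤ 1) : ‖Tp P D φ n‖ ≤ 3 ^ om P φ n := by
  classical
  unfold Tp
  calc ‖∑ S ∈ P.powerset.filter (fun S => S.card ≤ D), ∏ p ∈ S, φ p n‖
      ≤ ∑ S ∈ P.powerset.filter (fun S => S.card ≤ D), ‖∏ p ∈ S, φ p n‖ := norm_sum_le _ _
    _ ≤ ∑ S ∈ P.powerset, ‖∏ p ∈ S, φ p n‖ :=
        sum_le_sum_of_subset_of_nonneg (filter_subset _ _) fun _ _ _ => norm_nonneg _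
    _ = ∏ p ∈ P, (1 + ‖φ p n‖) := by
        rw [prod_one_add]
        exact sum_congr rfl fun S _ => norm_prod _ _
    _ ≤ ∏ p ∈ P, (if φ p n ≠ 0 then (3 : ℝ) else 1) := by
        apply prod_le_prod (fun p _ => by positivity)
        intro p hp
        split_ifs with h
        · have := trunc_phi_le (hbd p hp)
          linarith
        · push Not at h
          rw [h, norm_zero, add_zero]
    _ = 3 ^ om P φ n := by
        rw [← prod_filter, prod_const]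
        unfold om
        congr 1

theorem norm_Tp_sq_le (P : Finset ℕ) (D : ℕ) (φ : ℕ → ℕ → ℂ) (n : ℕ)
    (hbd : ∀ p ∈ P, ‖1 + φ p n‖ ≤ 1) : ‖Tp P D φ n‖ ^ 2 ≤ 1 + 36 ^ om P φ n / 4 ^ D := by
  rcases le_or_gt (om P φ n) D with h | h
  · rw [Tp_eq P D φ n h]
    have h1 : ‖Hp P φ n‖ ^ 2 ≤ 1 := pow_le_one₀ (norm_nonneg _) (norm_Hp_le P φ n hbd)
    have h2 : (0 : ℝ) ≤ 36 ^ om P φ n / 4 ^ D := by positivity
    linarith
  · have h1 : ‖Tp P D φ n‖ ^ 2 ≤ (3 ^ om P φ n) ^ 2 := by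
      gcongr
      exact norm_Tp_le P D φ n hbd
    have h2 : ((3 : ℝ) ^ om P φ n) ^ 2 = 9 ^ om P φ n := by
      rw [← pow_mul, mul_comm, pow_mul]
      norm_num
    have h3 : (9 : ℝ) ^ om P φ n ≤ 36 ^ om P φ n / 4 ^ D := by
      rw [le_div_iff₀ (by positivity)]
      calc (9 : ℝ) ^ om P φ n * 4 ^ D ≤ 9 ^ om P φ n * 4 ^ om P φ n := by
            gcongr
            · norm_num
        _ = 36 ^ om P φ n := by
            rw [← mul_pow]
            norm_num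
    rw [h2] at h1
    linarith

theorem trunc_sum_le (P : Finset ℕ) (y : ℕ → ℝ) (hy : ∀ p ∈ P, 0 ≤ y p) (D : ℕ) :
    ∑ S ∈ P.powerset.filter (fun S => S.card ≤ D), ∏ p ∈ S, y p ≤ (1 + ∑ p ∈ P, y p) ^ D := by
  classical
  have h1 : ∑ S ∈ P.powerset.filter (fun S => S.card ≤ D), ∏ p ∈ S, y p
      = ∑ j ∈ range (D + 1), esy P j y := by
    rw [← sum_fiberwise_of_maps_to (g := fun S : Finset ℕ => S.card) (t := range (D + 1))]
    · refine sum_congr rfl fun j hj => ?_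
      unfold esy
      refine sum_congr ?_ fun _ _ => rfl
      ext S
      simp only [mem_filter, mem_powerset, mem_powersetCard]
      rw [mem_range] at hj
      constructor
      · rintro ⟨⟨h1, h2⟩, h3⟩
        exact ⟨h1, h3⟩
      · rintro ⟨h1, h2⟩
        exact ⟨⟨h1, by omega⟩, h2⟩
    · intro S hS
      have := (mem_filter.1 hS).2
      simp only [mem_range]
      omega
  rw [h1]
  refine (sum_le_sum fun j _ => esy_le_pow P j y hy).trans ?_
  exact sum_pow_le _ (sum_nonneg hy) D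

theorem rep_Tp {e m : ℕ} {P : Finset ℕ} {φ : ℕ → ℕ → ℂ} (hL : Loc e m P φ) (D N : ℕ)
    (hd : ∏ p ∈ P, p ^ e ∣ N) : Rep N (Tp P D φ) ((1 + ∑ p ∈ P, 2 * (p : ℝ) ^ e) ^ D) := by
  classical
  have h1 : ∀ S ∈ P.powerset.filter (fun S => S.card ≤ D),
      Rep N (fun n => ∏ p ∈ S, φ p n) (∏ p ∈ S, 2 * (p : ℝ) ^ e) := by
    intro S hS
    have hSP : S ⊆ P := mem_powerset.1 (mem_filter.1 hS).1
    have hpos : 0 < ∏ p ∈ S, p ^ e :=
      prod_pos fun p hp => pow_pos (hL.prime p (hSP hp)).pos _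
    have hdvd : ∏ p ∈ S, p ^ e ∣ N := (prod_dvd_prod_of_subset _ _ _ hSP).trans hd
    have hper : Function.Periodic (fun n => ∏ p ∈ S, φ p n) (∏ p ∈ S, p ^ e) := by
      intro n
      refine prod_congr rfl fun p hp => ?_
      obtain ⟨k, hk⟩ := dvd_prod_of_mem (fun p => p ^ e) hp
      rw [hk, mul_comm]
      have := (hL.per p (hSP hp)).nat_mul k
      rw [Nat.cast_id] at this
      exact this n
    have hbd : ∀ n, ‖∏ p ∈ S, φ p n‖ ≤ 2 ^ S.card := by
      intro n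
      rw [norm_prod, ← prod_const]
      exact prod_le_prod (fun p _ => norm_nonneg _)
        fun p hp => trunc_phi_le (hL.bd p (hSP hp) n)
    have h2 := Rep.of_periodic hpos hdvd hper hbd
    have e2 : ∏ p ∈ S, 2 * (p : ℝ) ^ e = 2 ^ S.card * ((∏ p ∈ S, p ^ e : ℕ) : ℝ) := by
      rw [prod_mul_distrib, prod_const]
      push_cast
      rfl
    rw [e2]
    exact h2
  have h2 := Rep.sum (P.powerset.filter (fun S => S.card ≤ D)) h1
  refine Rep.mono (ψ := Tp P D φ) h2 ?_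
  exact trunc_sum_le P (fun p => 2 * (p : ℝ) ^ e) (fun p _ => by positivity) D

end Pool.Agent.H1.LP
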